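import Mathlib

set_option autoImplicit false
set_option linter.style.haveILetI false

namespace Pool.Agent.H601Z.Form

open RegularWreathProduct

theorem exists_simple_quot {X : Type} [Group X] [Finite X] (X₁ : Subgroup X) [h₁ : X₁.Normal]
    (hne : X₁ ≠ ⊤) : ∃ (S : Type) (_ : Group S) (_ : Finite S) (φ : X →* S),
      IsSimpleGroup S ∧ Function.Surjective φ ∧ X₁ ≤ φ.ker := by
  have hfin : {N : Subgroup X | N.Normal ∧ N ≠ ⊤ ∧ X₁ ≤ N}.Finite := Set.toFinite _
  obtain ⟨M, ⟨hMn, hMt, hM1⟩, hmax⟩ := hfin.exists_maximal ⟨X₁, h₁, hne, le_rfl⟩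
  haveI := hMn
  refine ⟨X ⧸ M, inferInstance, inferInstance, QuotientGroup.mk' M, ?_,
    QuotientGroup.mk'_surjective M, by rwa [QuotientGroup.ker_mk']⟩
  haveI : Nontrivial (X ⧸ M) := QuotientGroup.nontrivial_iff.2 hMt
  refine ⟨fun N hN => ?_⟩
  by_cases ht : N.comap (QuotientGroup.mk' M) = ⊤
  · right
    rw [← Subgroup.map_comap_eq_self_of_surjective (QuotientGroup.mk'_surjective M) N, ht]
    exact Subgroup.map_top_of_surjective _ (QuotientGroup.mk'_surjective M)
  · left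
    have hle : M ≤ N.comap (QuotientGroup.mk' M) := by
      intro x hx
      rw [Subgroup.mem_comap]
      have : QuotientGroup.mk' M x = 1 := (QuotientGroup.eq_one_iff x).2 hx
      rw [this]; exact N.one_mem
    have hge := hmax ⟨hN.comap _, ht, hM1.trans hle⟩ hle
    rw [eq_bot_iff]
    intro y hy
    obtain ⟨x, rfl⟩ := QuotientGroup.mk'_surjective M y
    exact (QuotientGroup.eq_one_iff x).2 (hge hy)

/-- The cyclic group of order `p`. -/
abbrev Cp (p : ℕ) : Type := Multiplicative (ZMod p)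

theorem card_Cp (p : ℕ) : Nat.card (Cp p) = p :=
  (Nat.card_congr Multiplicative.toAdd).trans (Nat.card_zmod p)

theorem simple_pgroup_equiv {p : ℕ} [hp : Fact p.Prime] {S : Type} [Group S] [Finite S]
    (hS : IsSimpleGroup S) (h : IsPGroup p S) : Nonempty (S ≃* Cp p) := by
  haveI := h.isNilpotent
  have hc : ∀ a b : S, a * b = b * a := IsSimpleGroup.comm_iff_isSolvable.2 inferInstance
  letI : CommGroup S := { (inferInstance : Group S) with mul_comm := hc }
  have hq : (Nat.card S).Prime := IsSimpleGroup.prime_card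
  obtain ⟨n, hn⟩ := IsPGroup.iff_card.1 h
  have hcard : Nat.card S = p := by
    have h1 : Nat.card S ∣ p ^ n := hn ▸ dvd_rfl
    exact (Nat.prime_dvd_prime_iff_eq hq hp.out).1 (hq.dvd_of_dvd_pow h1)
  exact ⟨mulEquivOfPrimeCardEq hcard (card_Cp p)⟩

theorem pgroup_Cp (p : ℕ) [Fact p.Prime] : IsPGroup p (Cp p) :=
  IsPGroup.of_card (n := 1) (by rw [card_Cp, pow_one])

theorem pgroup_unique {p q : ℕ} [hp : Fact p.Prime] [hq : Fact q.Prime] {X : Type} [Group X]
    [Nontrivial X] (h1 : IsPGroup p X) (h2 : IsPGroup q X) : p = q := by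
  obtain ⟨x, hx⟩ := exists_ne (1 : X)
  obtain ⟨a, ha⟩ := IsPGroup.iff_orderOf.1 h1 x
  obtain ⟨b, hb⟩ := IsPGroup.iff_orderOf.1 h2 x
  have ha0 : a ≠ 0 := by
    rintro rfl
    exact hx (orderOf_eq_one_iff.1 (by simpa using ha))
  have : p ∣ q ^ b := by rw [← hb, ha]; exact dvd_pow_self p ha0
  exact (Nat.prime_dvd_prime_iff_eq hp.out hq.out).1 (hp.out.dvd_of_dvd_pow this)

section wreath

variable {X Y : Type} [Group X] [Group Y]

open Classical in
/-- The element of the base group supported at `1`. -/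
noncomputable def dl (a : X) (y : Y) : X ≀ᵣ Y := ⟨fun x => if x = 1 then a else 1, y⟩

theorem wr_base_surj (R : Subgroup (X ≀ᵣ Y)) [hR : R.Normal] {r : X ≀ᵣ Y} (hr : r ∈ R)
    (h1 : r.right ≠ 1) (a : X) : ∃ u ∈ R, u.right = 1 ∧ u.left 1 = a := by
  refine ⟨dl a (1 : Y) * r * (dl a (1 : Y))⁻¹ * r⁻¹, R.mul_mem (hR.conj_mem r hr _) (R.inv_mem hr),
    ?_, ?_⟩
  · simp [dl]
  · simp [dl, h1]

theorem base_pow (u : X ≀ᵣ Y) (hu : u.right = 1) (n : ℕ) :
    (u ^ n).right = 1 ∧ ∀ y, (u ^ n).left y = u.left y ^ n := by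
  induction n with
  | zero => simp
  | succ n ih =>
    refine ⟨by rw [pow_succ, mul_right, ih.1, hu, mul_one], fun y => ?_⟩
    rw [pow_succ, mul_left, ih.1, pow_succ]
    simp [ih.2]

theorem wr_pgroup {p : ℕ} (R : Subgroup (X ≀ᵣ Y)) [hR : R.Normal] (hp : IsPGroup p R)
    {r : X ≀ᵣ Y} (hr : r ∈ R) (h1 : r.right ≠ 1) : IsPGroup p X := by
  intro a
  obtain ⟨u, hu, hu1, hua⟩ := wr_base_surj R hr h1 a
  obtain ⟨k, hk⟩ := hp ⟨u, hu⟩
  refine ⟨k, ?_⟩
  have h2 : u ^ p ^ k = 1 := by simpa using congrArg Subtype.val hk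
  rw [← hua, ← (base_pow u hu1 _).2, h2]
  rfl

theorem wr_nil [Finite X] [Finite Y] [Nontrivial X] (R : Subgroup (X ≀ᵣ Y)) [hR : R.Normal]
    (hn : Group.IsNilpotent R) (hne : R.map rightHom ≠ ⊥) :
    ∃ p : ℕ, p.Prime ∧ IsPGroup p X ∧ IsPGroup p (R.map rightHom) := by
  have key : ∀ q : ℕ, q.Prime → q ∣ Nat.card (R.map (rightHom : X ≀ᵣ Y →* Y)) → IsPGroup q X := by
    intro q hq hd
    haveI := Fact.mk hq
    obtain ⟨P⟩ : Nonempty (Sylow q R) := inferInstance
    have hPn : (P : Subgroup R).Normal := inferInstance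
    haveI : (P : Subgroup R).Characteristic := Sylow.characteristic_of_normal P hPn
    have hsurj := MonoidHom.subgroupMap_surjective (rightHom : X ≀ᵣ Y →* Y) R
    have hQ := (P.mapSurjective hsurj).ne_bot_of_dvd_card hd
    rw [Sylow.coe_mapSurjective] at hQ
    obtain ⟨⟨z, hz⟩, hz1⟩ := Subgroup.ne_bot_iff_exists_ne_one.1 hQ
    obtain ⟨r, hr, rfl⟩ := hz
    have hpg : IsPGroup q ((P : Subgroup R).map R.subtype) := P.isPGroup'.map _
    refine wr_pgroup ((P : Subgroup R).map R.subtype) hpg (r := r) ⟨r, hr, rfl⟩ ?_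
    intro h
    apply hz1
    ext
    exact h
  have hc : Nat.card (R.map (rightHom : X ≀ᵣ Y →* Y)) ≠ 1 := by
    rwa [Ne, Subgroup.card_eq_one]
  obtain ⟨p, hp, hd⟩ := Nat.exists_prime_and_dvd hc
  refine ⟨p, hp, key p hp hd, ?_⟩
  haveI := Fact.mk hp
  have hpos : Nat.card (R.map (rightHom : X ≀ᵣ Y →* Y)) ≠ 0 := Nat.card_pos.ne'
  refine IsPGroup.of_card (Nat.eq_prime_pow_of_unique_prime_dvd hpos ?_)
  intro q hq hqd
  haveI := Fact.mk hq
  exact pgroup_unique (key q hq hqd) (key p hp hd)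

/-- The map of wreath products induced by a map of the base factor. -/
def wrMap {X' : Type} [Group X'] (f : X →* X') (Y : Type) [Group Y] : X ≀ᵣ Y →* X' ≀ᵣ Y where
  toFun w := ⟨fun y => f (w.left y), w.right⟩
  map_one' := by ext <;> simp
  map_mul' a b := by ext <;> simp

theorem wrMap_surj {X' : Type} [Group X'] (f : X →* X') (hf : Function.Surjective f) :
    Function.Surjective (wrMap f Y) := by
  intro w
  choose g hg using hf
  exact ⟨⟨fun y => g (w.left y), w.right⟩, by ext <;> simp [wrMap, hg]⟩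

theorem rightHom_surj : Function.Surjective (rightHom : X ≀ᵣ Y →* Y) := fun y => ⟨inl y, rfl⟩

theorem dl_pow (a : X) (y : Y) (n : ℕ) (h1 : 1 ≤ n) (h2 : n ≤ orderOf y) :
    (dl a y ^ n).right = y ^ n ∧ (dl a y ^ n).left 1 = a := by
  induction n, h1 using Nat.le_induction with
  | base => simp [dl]
  | succ n hn ih =>
    obtain ⟨i1, i2⟩ := ih (by omega)
    have hy : y ^ n ≠ 1 := pow_ne_one_of_lt_orderOf (by omega) (by omega)
    refine ⟨by rw [pow_succ, mul_right, i1, pow_succ]; rfl, ?_⟩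
    rw [pow_succ, mul_left, i1]
    change (dl a y ^ n).left 1 * (dl a y).left ((y ^ n)⁻¹ * 1) = a
    rw [i2]
    simp [dl, hy]

theorem exponent_lt [Finite X] [Finite Y] [Nontrivial X] :
    Monoid.exponent Y < Monoid.exponent (X ≀ᵣ Y) := by
  have hd : Monoid.exponent Y ∣ Monoid.exponent (X ≀ᵣ Y) :=
    MonoidHom.exponent_dvd (f := (rightHom : X ≀ᵣ Y →* Y)) rightHom_surj
  have hW : Monoid.exponent (X ≀ᵣ Y) ≠ 0 := Monoid.exponent_ne_zero_of_finite
  have hY : Monoid.exponent Y ≠ 0 := Monoid.exponent_ne_zero_of_finite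
  refine lt_of_le_of_ne (Nat.le_of_dvd (Nat.pos_of_ne_zero hW) hd) fun he => ?_
  have hc : Nat.card X ≠ 1 := Finite.one_lt_card.ne'
  obtain ⟨p, hp, hpd⟩ := Nat.exists_prime_and_dvd hc
  haveI := Fact.mk hp
  obtain ⟨a, ha⟩ := exists_prime_orderOf_dvd_card' p hpd
  obtain ⟨y, hy⟩ := hp.exists_orderOf_eq_pow_factorization_exponent Y
  have hpos : 1 ≤ orderOf y := orderOf_pos y
  obtain ⟨i1, i2⟩ := dl_pow a y (orderOf y) hpos le_rfl
  rw [pow_orderOf_eq_one] at i1
  have h3 := (base_pow _ i1 (ordCompl[p] (Monoid.exponent Y))).2 1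
  rw [i2, ← pow_mul, hy, Nat.ordProj_mul_ordCompl_eq_self, he, Monoid.pow_exponent_eq_one,
    ← he] at h3
  have h4 : p ∣ ordCompl[p] (Monoid.exponent Y) := by
    have h5 : a ^ (ordCompl[p] (Monoid.exponent Y)) = 1 := h3.symm
    have := orderOf_dvd_of_pow_eq_one h5
    rwa [ha] at this
  exact Nat.not_dvd_ordCompl hp hY h4

end wreath

/-- Gaschütz: a normal subgroup that is nilpotent modulo the Frattini subgroup is nilpotent. -/
theorem nilpotent_of_frattini {G : Type} [Group G] [Finite G] (K : Subgroup G) [hK : K.Normal]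
    (h : Group.IsNilpotent (K.map (QuotientGroup.mk' (frattini G)))) : Group.IsNilpotent K := by
  have q := (Group.isNilpotent_of_finite_tfae (G := K)).out 0 3
  rw [q]; clear q
  intro p hp P
  set π := QuotientGroup.mk' (frattini G) with hπ
  have hπs : Function.Surjective π := QuotientGroup.mk'_surjective _
  haveI : (K.map π).Normal := hK.map π hπs
  have hsurj := MonoidHom.subgroupMap_surjective π K
  let Q := P.mapSurjective hsurj
  have hQn : (Q : Subgroup (K.map π)).Normal := inferInstance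
  haveI : (Q : Subgroup (K.map π)).Characteristic := Sylow.characteristic_of_normal Q hQn
  let T : Subgroup G := ((Q : Subgroup (K.map π)).map (K.map π).subtype).comap π
  haveI hT : T.Normal := Subgroup.Normal.comap inferInstance π
  let P' : Subgroup G := (P : Subgroup K).map K.subtype
  have hTle : T ≤ P' ⊔ frattini G := by
    intro x hx
    obtain ⟨z, hz, hzx⟩ := hx
    obtain ⟨k, hk, rfl⟩ := hz
    have h1 : π (k : G) = π x := hzx
    have h2 : (k : G)⁻¹ * x ∈ frattini G := by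
      rw [← QuotientGroup.ker_mk' (frattini G), MonoidHom.mem_ker, map_mul, map_inv]
      change (π k)⁻¹ * π x = 1
      rw [h1, inv_mul_cancel]
    have : x = k * ((k : G)⁻¹ * x) := by group
    rw [this]
    exact Subgroup.mul_mem_sup ⟨k, hk, rfl⟩ h2
  have hP'T : P' ≤ T := by
    rintro _ ⟨k, hk, rfl⟩
    exact ⟨_, ⟨k, hk, rfl⟩, rfl⟩
  let D : Subgroup G := T ⊓ K
  have hPD : (P : Subgroup K) ≤ D.subgroupOf K := fun k hk => ⟨hP'T ⟨k, hk, rfl⟩, k.2⟩
  let e : D.subgroupOf K ≃* D := Subgroup.subgroupOfEquivOfLe inf_le_right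
  let P₂ : Sylow p D := (P.subtype hPD).mapSurjective (f := e.toMonoidHom) e.surjective
  have hP₂ : (P₂ : Subgroup D).map D.subtype = P' := by
    apply le_antisymm
    · rintro _ ⟨_, ⟨d, hd, rfl⟩, rfl⟩
      exact ⟨d.1, hd, rfl⟩
    · rintro _ ⟨k, hk, rfl⟩
      exact ⟨e ⟨k, hPD hk⟩, ⟨⟨k, hPD hk⟩, hk, rfl⟩, rfl⟩
  have hfr := Sylow.normalizer_sup_eq_top P₂
  rw [hP₂] at hfr
  have htop : Subgroup.normalizer (P' : Set G) ⊔ frattini G = ⊤ := by
    rw [eq_top_iff, ← hfr]
    refine sup_le le_sup_left (inf_le_left.trans (hTle.trans ?_))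
    exact sup_le_sup_right Subgroup.le_normalizer _
  have hN : P'.Normal := Subgroup.normalizer_eq_top_iff.mp (frattini_nongenerating htop)
  exact hN.of_map_subtype

theorem exists_char_mod {K M : Type} [Field K] [AddCommGroup M] [Module K M] {n : M}
    (hn : n ≠ 0) : ∃ χ : M →+ K, χ n ≠ 0 ∧ Function.Surjective χ := by
  obtain ⟨φ, hφ⟩ : ∃ φ : Module.Dual K M, φ n ≠ 0 := by
    by_contra hcon
    push Not at hcon
    exact hn ((Module.forall_dual_apply_eq_zero_iff K _).1 hcon)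
  refine ⟨φ.toAddMonoidHom, hφ, fun c => ⟨(c * (φ n)⁻¹) • n, ?_⟩⟩
  change φ ((c * (φ n)⁻¹) • n) = c
  rw [map_smul, smul_eq_mul, mul_assoc, inv_mul_cancel₀ hφ, mul_one]

theorem exists_char_add {p : ℕ} [hp : Fact p.Prime] {M : Type} [AddCommGroup M]
    (he : ∀ a : M, p • a = 0) {n : M} (hn : n ≠ 0) :
    ∃ χ : M →+ ZMod p, χ n ≠ 0 ∧ Function.Surjective χ := by
  letI : Module (ZMod p) M := AddCommGroup.zmodModule he
  exact exists_char_mod (K := ZMod p) hn

/-- Characters of elementary abelian groups separate points. -/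
theorem exists_char {p : ℕ} [hp : Fact p.Prime] {N : Type} [Group N]
    (hc : ∀ a b : N, a * b = b * a) (he : ∀ a : N, a ^ p = 1) {n : N} (hn : n ≠ 1) :
    ∃ χ : N →* Cp p, χ n ≠ 1 ∧ Function.Surjective χ := by
  letI : CommGroup N := { (inferInstance : Group N) with mul_comm := hc }
  obtain ⟨χ, h1, h2⟩ := exists_char_add (p := p) (M := Additive N)
    (fun x => by
      change Additive.ofMul ((Additive.toMul x) ^ p) = 0
      rw [he]; rfl) (n := Additive.ofMul n) hn
  refine ⟨⟨⟨fun x => Multiplicative.ofAdd (χ (Additive.ofMul x)), ?_⟩, ?_⟩, h1, fun c => ?_⟩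
  · exact congrArg Multiplicative.ofAdd χ.map_zero
  · intro x y
    exact congrArg Multiplicative.ofAdd (χ.map_add (Additive.ofMul x) (Additive.ofMul y))
  · obtain ⟨m, hm⟩ := h2 (Multiplicative.toAdd c)
    exact ⟨Additive.toMul m, congrArg Multiplicative.ofAdd hm⟩

end Pool.Agent.H601Z.Form
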