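import Mathlib
import Pool.Agent.Helper75.UF.Defs

set_option autoImplicit false

/-! Definitions for products of non-decomposable formations.  Classes of groups (`GroupClass`),
formations (`IsFormation`), residuals (`residual`) and the product `Product F H = {G | G^H ∈ F}`
are those of `Pool.Agent.Helper75.UF.Defs`. -/

namespace Pool.Agent.H601Z.Form

open Pool.Agent.Helper75.UF

/-- A class is saturated if it contains the finite group `G` whenever it contains `G / Φ(G)`. -/
def Saturated (F : GroupClass) : Prop :=
  ∀ (G : Type) [Group G] [Finite G], F (G ⧸ frattini G) → F G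

/-- The one-generated saturated formation of `G₀`: the intersection of all saturated formations
that contain `G₀`. -/
def SatGen (G₀ : Type) [Group G₀] : GroupClass :=
  fun H _ => ∀ S : GroupClass, IsFormation S → Saturated S → S G₀ → S H

/-- A formation `F` is non-decomposable if there are no formations `A ≠ F` and `B ≠ F` with
`F = A B`. -/
def NonDecomposable (F : GroupClass) : Prop :=
  IsFormation F ∧
    ¬ ∃ A B : GroupClass, IsFormation A ∧ IsFormation B ∧ A ≠ F ∧ B ≠ F ∧ F = Product A B

/-- The product `F₁ F₂ ⋯ F_t` (`t ≥ 1`) of the class `F₁` and the list `[F₂, …, F_t]`. -/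
def prodList : GroupClass → List GroupClass → GroupClass
  | A, [] => A
  | A, B :: l => Product A (prodList B l)

end Pool.Agent.H601Z.Form
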