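import Mathlib
import Pool.Agent.Helper75.UF.P_prod_assoc
import Pool.Agent.Helper75.UF.P_prod_formation
import Pool.Agent.Helper75.UF.P_residual_prod
import Pool.Agent.Helper75.UF.P_residual_eq_bot
import Pool.Agent.Helper75.UF.P_map_residual
import Pool.Agent.Helper75.UF.P_times_mem
import Pool.Agent.Helper75.UF.P_triv_prod
import Pool.Agent.Helper75.UF.P_triv_formation
import Pool.Agent.H601Z.FormA
import Pool.Agent.H601Z.FormDefs

set_option autoImplicit false
set_option linter.style.haveILetI false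

namespace Pool.Agent.H601Z.Form

open Pool.Agent.Helper75.UF RegularWreathProduct Function

theorem mkFormation {C : GroupClass} (hfin : ∀ (G : Type) [Group G], C G → Finite G)
    (hne : C Unit)
    (hs : ∀ (G H : Type) [Group G] [Group H] (f : G →* H), Surjective f → C G → C H)
    (hsub : ∀ (G A B : Type) [Group G] [Finite G] [Group A] [Group B] (f : G →* A) (g : G →* B),
      Surjective f → Surjective g → (∀ x, f x = 1 → g x = 1 → x = 1) → C A → C B → C G) :
    IsFormation C where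
  nonempty := ⟨Unit, inferInstance, hne⟩
  finite := hfin
  iso := fun G H _ _ ⟨e⟩ h => hs G H e.toMonoidHom e.surjective h
  quotient := fun G _ N _ h => hs G _ (QuotientGroup.mk' N) (QuotientGroup.mk'_surjective N) h
  subdirect := fun G _ _ M N _ _ hM hN => by
    refine hsub _ _ _ (QuotientGroup.map (M ⊓ N) M (MonoidHom.id G) inf_le_left)
      (QuotientGroup.map (M ⊓ N) N (MonoidHom.id G) inf_le_right) ?_ ?_ ?_ hM hN
    · intro y
      obtain ⟨x, rfl⟩ := QuotientGroup.mk_surjective y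
      exact ⟨x, rfl⟩
    · intro y
      obtain ⟨x, rfl⟩ := QuotientGroup.mk_surjective y
      exact ⟨x, rfl⟩
    · intro y h1 h2
      obtain ⟨x, rfl⟩ := QuotientGroup.mk_surjective y
      exact (QuotientGroup.eq_one_iff x).2
        ⟨(QuotientGroup.eq_one_iff x).1 h1, (QuotientGroup.eq_one_iff x).1 h2⟩

/-- Finite `p`-groups. -/
def Np (p : ℕ) : GroupClass := fun G _ => Finite G ∧ IsPGroup p G

/-- Finite elementary abelian `p`-groups. -/
def Ep (p : ℕ) : GroupClass :=
  fun G _ => Finite G ∧ (∀ a b : G, a * b = b * a) ∧ ∀ a : G, a ^ p = 1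

/-- Finite nilpotent groups. -/
def Nil : GroupClass := fun G _ => Finite G ∧ Group.IsNilpotent G

/-- Finite groups of exponent dividing `e`. -/
def Exp (e : ℕ) : GroupClass := fun G _ => Finite G ∧ ∀ a : G, a ^ e = 1

theorem Np_formation (p : ℕ) : IsFormation (Np p) := by
  refine mkFormation (fun _ _ h => h.1) ⟨inferInstance, fun g => ⟨0, Subsingleton.elim _ _⟩⟩
    (fun G H _ _ f hf h => ⟨haveI := h.1; Finite.of_surjective f hf, h.2.of_surjective f hf⟩) ?_
  intro G A B _ _ _ _ f g _ _ hfg hA hB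
  refine ⟨inferInstance, fun x => ?_⟩
  obtain ⟨a, ha⟩ := hA.2 (f x)
  obtain ⟨b, hb⟩ := hB.2 (g x)
  refine ⟨a + b, hfg _ ?_ ?_⟩
  · rw [map_pow, pow_add, pow_mul, ha, one_pow]
  · rw [map_pow, pow_add, mul_comm, pow_mul, hb, one_pow]

theorem Exp_formation (e : ℕ) : IsFormation (Exp e) := by
  refine mkFormation (fun _ _ h => h.1) ⟨inferInstance, fun g => Subsingleton.elim _ _⟩
    (fun G H _ _ f hf h => ⟨haveI := h.1; Finite.of_surjective f hf, fun y => ?_⟩) ?_
  · obtain ⟨x, rfl⟩ := hf y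
    rw [← map_pow, h.2, map_one]
  intro G A B _ _ _ _ f g _ _ hfg hA hB
  exact ⟨inferInstance, fun x => hfg _ (by rw [map_pow, hA.2]) (by rw [map_pow, hB.2])⟩

theorem Ep_formation (p : ℕ) : IsFormation (Ep p) := by
  refine mkFormation (fun _ _ h => h.1)
    ⟨inferInstance, fun _ _ => Subsingleton.elim _ _, fun g => Subsingleton.elim _ _⟩
    (fun G H _ _ f hf h => ⟨haveI := h.1; Finite.of_surjective f hf, fun y z => ?_,
      fun y => ?_⟩) ?_
  · obtain ⟨x, rfl⟩ := hf y
    obtain ⟨w, rfl⟩ := hf z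
    rw [← map_mul, h.2.1, map_mul]
  · obtain ⟨x, rfl⟩ := hf y
    rw [← map_pow, h.2.2, map_one]
  intro G A B _ _ _ _ f g _ _ hfg hA hB
  refine ⟨inferInstance, fun x y => ?_,
    fun x => hfg _ (by rw [map_pow, hA.2.2]) (by rw [map_pow, hB.2.2])⟩
  rw [← mul_inv_eq_one]
  apply hfg
  · rw [map_mul, map_inv, map_mul, map_mul, hA.2.1 (f x), mul_inv_cancel]
  · rw [map_mul, map_inv, map_mul, map_mul, hB.2.1 (g x), mul_inv_cancel]

theorem Nil_formation : IsFormation Nil := by
  refine mkFormation (fun _ _ h => h.1) ⟨inferInstance, inferInstance⟩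
    (fun G H _ _ f hf h => ⟨haveI := h.1; Finite.of_surjective f hf,
      haveI := h.2; Group.nilpotent_of_surjective f hf⟩) ?_
  intro G A B _ _ _ _ f g _ _ hfg hA hB
  haveI := hA.2
  haveI := hB.2
  have hinj : Injective (f.prod g) := by
    rw [injective_iff_map_eq_one]
    intro x hx
    exact hfg x (congrArg Prod.fst hx) (congrArg Prod.snd hx)
  exact ⟨inferInstance, Group.nilpotent_of_mulEquiv (MonoidHom.ofInjective hinj).symm⟩

theorem inter_formation {A B : GroupClass} (hA : IsFormation A) (hB : IsFormation B) :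
    IsFormation (fun G _ => A G ∧ B G) :=
  mkFormation (fun G _ h => hA.finite G h.1)
    ⟨hA.trivial_mem inferInstance, hB.trivial_mem inferInstance⟩
    (fun _ _ _ _ f hf h => ⟨hA.surj h.1 f hf, hB.surj h.2 f hf⟩)
    (fun _ _ _ _ _ _ _ f g hf hg hfg h1 h2 =>
      ⟨hA.subdirect_hom f g hf hg h1.1 h2.1 hfg, hB.subdirect_hom f g hf hg h1.2 h2.2 hfg⟩)

theorem mem_of_residually {F : GroupClass} (hF : IsFormation F) {G : Type} [Group G] [Finite G]
    (h : ∀ g : G, g ≠ 1 → ∃ (H : Type) (_ : Group H) (φ : G →* H),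
      Surjective φ ∧ F H ∧ φ g ≠ 1) : F G := by
  rw [← residual_eq_bot hF, eq_bot_iff]
  intro g hg
  by_contra hne
  obtain ⟨H, _, φ, hφ, hH, hg1⟩ := h g hne
  exact hg1 ((residual_le_ker hF φ hφ).2 hH hg)

theorem sub_prod {A B : GroupClass} (hA : IsFormation A) (hB : IsFormation B) :
    Sub B (Product A B) := by
  intro G _ h
  haveI := hB.finite G h
  refine ⟨inferInstance, hA.trivial_mem ?_⟩
  rw [(residual_eq_bot hB).2 h]
  infer_instance

theorem prod_triv {A : GroupClass} (hA : IsFormation A) : Product A Triv = A := by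
  refine class_ext fun G _ => ?_
  have key : ∀ [Finite G], residual Triv G = ⊤ := by
    intro _
    have h : Subsingleton (G ⧸ residual Triv G) := quot_residual triv_formation.1 G
    exact QuotientGroup.subsingleton_iff.1 h
  constructor
  · rintro ⟨_, h⟩
    rw [key] at h
    exact hA.iso _ _ ⟨Subgroup.topEquiv⟩ h
  · intro h
    haveI := hA.finite G h
    refine ⟨inferInstance, ?_⟩
    rw [key]
    exact hA.iso _ _ ⟨Subgroup.topEquiv.symm⟩ h

theorem residual_anti {C D : GroupClass} (hC : IsFormation C) (h : Sub C D) (G : Type) [Group G]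
    [Finite G] : residual D G ≤ residual C G :=
  residual_le _ (h _ (quot_residual hC G))

theorem exists_simple {A : GroupClass} (hA : IsFormation A) (h : A ≠ Triv) :
    ∃ (S : Type) (_ : Group S) (_ : Finite S), IsSimpleGroup S ∧ A S := by
  have : ∃ (X : Type) (_ : Group X), A X ∧ Nontrivial X := by
    by_contra hcon
    apply h
    refine class_ext fun G _ => ⟨fun hG => ?_, fun hG => hA.trivial_mem hG⟩
    by_contra hn
    exact hcon ⟨G, inferInstance, hG, not_subsingleton_iff_nontrivial.1 hn⟩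
  obtain ⟨X, _, hX, _⟩ := this
  haveI := hA.finite X hX
  obtain ⟨S, _, _, φ, hS, hφ, -⟩ := exists_simple_quot (⊥ : Subgroup X) bot_ne_top
  exact ⟨S, inferInstance, inferInstance, hS, hA.surj hX φ hφ⟩

theorem saturated_nil {C : GroupClass} (hC : IsFormation C) : Saturated (Product Nil C) := by
  intro G _ _ h
  refine ⟨inferInstance, inferInstance, nilpotent_of_frattini _ ?_⟩
  rw [map_residual hC _ (QuotientGroup.mk'_surjective _)]
  exact h.2.2

theorem wr_dichotomy {B : GroupClass} (hB : IsFormation B) (X : Type) [Group X] [Finite X]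
    {Y : Type} [Group Y] (hY : B Y) :
    (∃ ev : Y → (residual B (X ≀ᵣ Y) →* X), (∀ y, Surjective (ev y)) ∧
      ∀ u, (∀ y, ev y u = 1) → u = 1) ∨
    ∃ (S : Type) (_ : Group S) (_ : Finite S) (φ : X →* S),
      IsSimpleGroup S ∧ Surjective φ ∧ B (S ≀ᵣ Y) := by
  haveI := hB.finite Y hY
  set R := residual B (X ≀ᵣ Y) with hR
  have hle : R ≤ (rightHom : X ≀ᵣ Y →* Y).ker := (residual_le_ker hB _ rightHom_surj).2 hY
  have hr : ∀ u : R, (u : X ≀ᵣ Y).right = 1 := fun u => hle u.2
  let ev : Y → (R →* X) := fun y =>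
    { toFun := fun u => (u : X ≀ᵣ Y).left y
      map_one' := rfl
      map_mul' := fun u v => by simp [hr u] }
  have hRn : R.Normal := inferInstance
  haveI hn : (ev 1).range.Normal := by
    refine ⟨?_⟩
    rintro _ ⟨u, rfl⟩ a
    refine ⟨⟨_, hRn.conj_mem u u.2 (dl a 1)⟩, ?_⟩
    simp [ev, dl, hr u]
  have hmove : ∀ (y z : Y) (u : R), ∃ v : R, ev y v = ev z u := by
    intro y z u
    refine ⟨⟨_, hRn.conj_mem u u.2 (inl (y * z⁻¹))⟩, ?_⟩
    simp [ev]
  by_cases ht : (ev 1).range = ⊤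
  · left
    refine ⟨ev, fun y a => ?_, fun u hu => ?_⟩
    · obtain ⟨u, rfl⟩ := MonoidHom.range_eq_top.1 ht a
      exact hmove y 1 u
    · ext y
      · exact hu y
      · exact hr u
  · right
    obtain ⟨S, _, _, φ, hS, hφ, hk⟩ := exists_simple_quot _ ht
    refine ⟨S, inferInstance, inferInstance, φ, hS, hφ,
      (residual_le_ker hB _ (wrMap_surj φ hφ)).1 fun u hu => ?_⟩
    rw [MonoidHom.mem_ker]
    ext y
    · obtain ⟨v, hv⟩ := hmove 1 y ⟨u, hu⟩
      exact hk ⟨v, hv⟩
    · exact hr ⟨u, hu⟩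

theorem wr_mem {A B : GroupClass} (hA : IsFormation A) (hB : IsFormation B) {X : Type} [Group X]
    (hX : A X) {Y : Type} [Group Y] (hY : B Y) :
    Product A B (X ≀ᵣ Y) ∨ ∃ (S : Type) (_ : Group S) (_ : Finite S) (φ : X →* S),
      IsSimpleGroup S ∧ Surjective φ ∧ B (S ≀ᵣ Y) := by
  haveI := hA.finite X hX
  haveI := hB.finite Y hY
  rcases wr_dichotomy hB X hY with ⟨ev, h1, h2⟩ | h
  · left
    refine ⟨inferInstance, mem_of_residually hA fun u hu => ?_⟩
    by_contra hcon
    apply hu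
    apply h2
    intro y
    by_contra hy
    exact hcon ⟨X, inferInstance, ev y, h1 y, hX, hy⟩
  · exact Or.inr h

theorem wr_simple_mem {A B : GroupClass} (hA : IsFormation A) (hB : IsFormation B) {S : Type}
    [Group S] (hS : IsSimpleGroup S) (hX : A S) {Y : Type} [Group Y] (hY : B Y) :
    Product A B (S ≀ᵣ Y) := by
  rcases wr_mem hA hB hX hY with h | ⟨S', _, _, φ, hS', hφ, h⟩
  · exact h
  · have hinj : Injective φ := by
      rcases hS.eq_bot_or_eq_top_of_normal φ.ker inferInstance with hk | hk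
      · exact (MonoidHom.ker_eq_bot_iff φ).1 hk
      · exfalso
        obtain ⟨s, hs⟩ := exists_ne (1 : S')
        obtain ⟨x, rfl⟩ := hφ s
        have : x ∈ φ.ker := hk ▸ Subgroup.mem_top x
        exact hs this
    let e := MulEquiv.ofBijective φ ⟨hinj, hφ⟩
    exact sub_prod hA hB _ (hB.surj h _ (wrMap_surj e.symm.toMonoidHom e.symm.surjective))

theorem malcev {N : Type} [Group N] (hc : ∀ a b : N, a * b = b * a) (a₁ a₂ a₃ b₁ b₂ b₃ : N) :
    a₁ * b₁ * (a₂ * b₂)⁻¹ * (a₃ * b₃) = a₁ * a₂⁻¹ * a₃ * (b₁ * b₂⁻¹ * b₃) := by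
  letI : CommGroup N := { (inferInstance : Group N) with mul_comm := hc }
  rw [mul_inv]
  simp only [mul_comm, mul_left_comm, mul_assoc]

theorem ext_mem {C : GroupClass} (hC : IsFormation C) {p : ℕ} [Fact p.Prime] {G Y : Type}
    [Group G] [Finite G] [Group Y] (φ : G →* Y) (hφ : Surjective φ)
    (hc : ∀ a b : φ.ker, a * b = b * a) (he : ∀ a : φ.ker, a ^ p = 1) (hY : C Y)
    (hW : C (Cp p ≀ᵣ Y)) : C G := by
  haveI := hC.finite Y hY
  have hW' : C (φ.ker ≀ᵣ Y) := by
    refine mem_of_residually hC fun w hw => ?_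
    by_cases h1 : w.right = 1
    · have : ∃ y, w.left y ≠ 1 := by
        by_contra hcon
        push Not at hcon
        exact hw (RegularWreathProduct.ext (funext hcon) h1)
      obtain ⟨y, hy⟩ := this
      obtain ⟨χ, h2, h3⟩ := exists_char hc he hy
      refine ⟨_, inferInstance, wrMap χ Y, wrMap_surj χ h3, hW, fun h => h2 ?_⟩
      exact congrFun (congrArg RegularWreathProduct.left h) y
    · exact ⟨Y, inferInstance, rightHom, rightHom_surj, hY, h1⟩
  choose s hs using hφ
  let κ : G →* φ.ker ≀ᵣ Y :=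
    { toFun := fun g => ⟨fun y => ⟨(s y)⁻¹ * g * s ((φ g)⁻¹ * y), by
        simp [MonoidHom.mem_ker, hs]⟩, φ g⟩
      map_one' := by ext <;> simp
      map_mul' := fun g h => by ext <;> simp [mul_assoc] }
  have hκ : ∀ g, (κ g).right = φ g := fun g => rfl
  have hκinj : ∀ g, φ g = 1 → (κ g).left 1 = 1 → g = 1 := by
    intro g h1 h2
    have h3 : (s 1)⁻¹ * g * s ((φ g)⁻¹ * 1) = 1 := congrArg Subtype.val h2
    rw [h1, inv_one, one_mul] at h3
    have : g = s 1 * ((s 1)⁻¹ * g * s 1) * (s 1)⁻¹ := by group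
    rw [this, h3]; simp
  let K : Subgroup (((φ.ker ≀ᵣ Y) × (φ.ker ≀ᵣ Y) × (φ.ker ≀ᵣ Y)) × G) :=
    { carrier := {t | t.1.1.right = φ t.2 ∧ t.1.2.1.right = φ t.2 ∧ t.1.2.2.right = φ t.2 ∧
        ∀ y, t.1.1.left y * (t.1.2.1.left y)⁻¹ * t.1.2.2.left y = (κ t.2).left y}
      one_mem' := ⟨by simp, by simp, by simp, fun y => by simp⟩
      mul_mem' := by
        rintro t u ⟨t1, t2, t3, t4⟩ ⟨u1, u2, u3, u4⟩
        refine ⟨by simp [t1, u1], by simp [t2, u2], by simp [t3, u3], fun y => ?_⟩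
        simp only [Prod.fst_mul, Prod.snd_mul, map_mul, mul_left, Pi.mul_apply, t1, t2, t3, hκ]
        rw [malcev hc, t4, u4]
      inv_mem' := by
        rintro t ⟨t1, t2, t3, t4⟩
        refine ⟨by simp [t1], by simp [t2], by simp [t3], fun y => ?_⟩
        simp only [Prod.fst_inv, Prod.snd_inv, map_inv, inv_left, Pi.inv_apply, t1, t2, t3, hκ]
        rw [← t4, eq_inv_iff_mul_eq_one, ← malcev hc]
        simp }
  have hK : C K := by
    refine mem_of_residually hC fun t ht => ?_
    by_cases h1 : t.1.1.1 = 1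
    · by_cases h2 : t.1.1.2.1 = 1
      · by_cases h3 : t.1.1.2.2 = 1
        · exfalso
          obtain ⟨t1, -, -, t4⟩ := t.2
          have h5 : t.1.2 = 1 := by
            refine hκinj _ (by rw [← t1, h1]; rfl) ?_
            rw [← t4, h1, h2, h3]; simp
          exact ht (Subtype.ext (Prod.ext (Prod.ext h1 (Prod.ext h2 h3)) h5))
        · refine ⟨_, inferInstance, ((MonoidHom.snd _ _).comp ((MonoidHom.snd _ _).comp
            (MonoidHom.fst _ _))).comp K.subtype, fun w => ?_, hW', h3⟩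
          exact ⟨⟨((κ (s w.right), w, w), s w.right), rfl, (hs _).symm, (hs _).symm,
            fun y => by simp⟩, rfl⟩
      · refine ⟨_, inferInstance, ((MonoidHom.fst _ _).comp ((MonoidHom.snd _ _).comp
          (MonoidHom.fst _ _))).comp K.subtype, fun w => ?_, hW', h2⟩
        exact ⟨⟨((w, w, κ (s w.right)), s w.right), (hs _).symm, (hs _).symm, rfl,
          fun y => by simp⟩, rfl⟩
    · refine ⟨_, inferInstance, ((MonoidHom.fst _ _).comp (MonoidHom.fst _ _)).comp K.subtype,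
        fun w => ?_, hW', h1⟩
      exact ⟨⟨((w, w, κ (s w.right)), s w.right), (hs _).symm, (hs _).symm, rfl,
        fun y => by simp⟩, rfl⟩
  refine hC.surj hK ((MonoidHom.snd _ _).comp K.subtype) fun g => ?_
  exact ⟨⟨((κ g, κ g, κ g), g), rfl, rfl, rfl, fun y => by simp⟩, rfl⟩

theorem closed_of_wr {C : GroupClass} (hC : IsFormation C) {p : ℕ} [Fact p.Prime] {Z : Type}
    [Group Z] (hZ : C Z) (hQ : ∀ (Y : Type) [Group Y], C Y → C (Cp p ≀ᵣ (Y × Z))) :
    Sub (Product (Ep p) C) C := by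
  rintro G _ ⟨_, -, hc, he⟩
  haveI := hC.finite Z hZ
  have hq := quot_residual hC G
  let φ := (QuotientGroup.mk' (residual C G)).prodMap (MonoidHom.id Z)
  have hφ : Surjective φ := (QuotientGroup.mk'_surjective _).prodMap surjective_id
  have hk : ∀ a : φ.ker, a.1.1 ∈ residual C G ∧ a.1.2 = 1 := fun a =>
    ⟨(QuotientGroup.eq_one_iff _).1 (congrArg Prod.fst a.2), congrArg Prod.snd a.2⟩
  have hGZ : C (G × Z) := by
    refine ext_mem hC (p := p) φ hφ (fun a b => ?_) (fun a => ?_) (times_mem hC hq hZ) (hQ _ hq)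
    · refine Subtype.ext (Prod.ext ?_ ?_)
      · exact congrArg Subtype.val (hc ⟨_, (hk a).1⟩ ⟨_, (hk b).1⟩)
      · simp [(hk a).2, (hk b).2]
    · refine Subtype.ext (Prod.ext ?_ ?_)
      · exact congrArg Subtype.val (he ⟨_, (hk a).1⟩)
      · simp [(hk a).2]
  exact hC.surj hGZ (MonoidHom.fst G Z) Prod.fst_surjective

theorem Ep_Cp (p : ℕ) [Fact p.Prime] : Ep p (Cp p) := by
  refine ⟨inferInstance, mul_comm, fun a => ?_⟩
  have := pow_card_eq_one' (x := a)
  rwa [card_Cp] at this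

theorem absorb {A C : GroupClass} (hA : IsFormation A) (hC : IsFormation C) {p : ℕ}
    [Fact p.Prime] (hcl : Sub (Product (Ep p) C) C)
    (hS : ∀ (S : Type) [Group S], IsSimpleGroup S → A S → IsPGroup p S) :
    Product A C = C := by
  refine class_ext fun G _ => ⟨?_, sub_prod hA hC G⟩
  rintro ⟨_, hR⟩
  rw [← residual_eq_bot hC]
  by_contra hne
  haveI : Nontrivial (residual C G) := (Subgroup.nontrivial_iff_ne_bot _).2 hne
  obtain ⟨S, _, _, φ, hs, hφ, -⟩ :=
    exists_simple_quot (⊥ : Subgroup (residual C G)) bot_ne_top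
  obtain ⟨e⟩ := simple_pgroup_equiv hs (hS S hs (hA.surj hR φ hφ))
  have hE : Ep p S := (Ep_formation p).iso _ _ ⟨e.symm⟩ (Ep_Cp p)
  have h1 : Product (Ep p) C = C :=
    class_ext fun H _ => ⟨hcl H, sub_prod (Ep_formation p) hC H⟩
  have h2 := residual_prod (Ep_formation p) hC G
  rw [h1] at h2
  have h3 := (residual_le_ker (Ep_formation p) φ hφ).2 hE
  obtain ⟨t, ht⟩ := exists_ne (1 : S)
  obtain ⟨x, rfl⟩ := hφ t
  have hx : x.1 ∈ (residual (Ep p) (residual C G)).map (residual C G).subtype := h2 ▸ x.2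
  obtain ⟨z, hz, hzx⟩ := hx
  have : z = x := Subtype.ext hzx
  exact ht (h3 (this ▸ hz))

theorem prodNp_ext {C : GroupClass} (hC : IsFormation C) {p : ℕ} {G H : Type} [Group G]
    [Finite G] [Group H] (φ : G →* H) (hφ : Surjective φ) (hk : IsPGroup p φ.ker)
    (hH : Product (Np p) C H) : Product (Np p) C G := by
  refine ⟨inferInstance, inferInstance, ?_⟩
  have h1 := hH.2.2.comap_of_ker_isPGroup φ hk
  refine h1.to_le ?_
  rw [← map_residual hC φ hφ]
  exact Subgroup.le_comap_map _ _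

end Pool.Agent.H601Z.Form
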