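import Mathlib
import Pool.Agent.H601Z.FormB

set_option autoImplicit false
set_option linter.style.haveILetI false

namespace Pool.Agent.H601Z.Form

open Pool.Agent.Helper75.UF RegularWreathProduct Function

theorem res_nontrivial {C : GroupClass} (hC : IsFormation C) {Y : Type} [Group Y] [Finite Y]
    (h : ¬ C Y) : Nontrivial (residual C Y) :=
  (Subgroup.nontrivial_iff_ne_bot _).2 fun h' => h ((residual_eq_bot hC).1 h')

theorem wr_key {E : GroupClass} (hE : IsFormation E) {X Y : Type} [Group X] [Group Y] [Finite X]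
    [Finite Y] [Nontrivial X] (hY : ¬ E Y) (h : Product Nil E (X ≀ᵣ Y)) :
    ∃ q : ℕ, q.Prime ∧ IsPGroup q X ∧ IsPGroup q (residual E Y) := by
  have hm := map_residual hE (rightHom : X ≀ᵣ Y →* Y) rightHom_surj
  have := wr_nil (residual E (X ≀ᵣ Y)) h.2.2
    (by rw [hm]; exact fun h' => hY ((residual_eq_bot hE).1 h'))
  rwa [hm] at this

theorem wr_Cp_of_simple {C : GroupClass} (hC : IsFormation C) {p : ℕ} [Fact p.Prime] {S Y : Type}
    [Group S] [Finite S] [Group Y] (hS : IsSimpleGroup S) (hp : IsPGroup p S)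
    (h : C (S ≀ᵣ Y)) : C (Cp p ≀ᵣ Y) := by
  obtain ⟨e⟩ := simple_pgroup_equiv hS hp
  exact hC.surj h _ (wrMap_surj e.toMonoidHom e.surjective)

theorem step {E A C : GroupClass} (hE : IsFormation E) (hA : IsFormation A) (hC : IsFormation C)
    (hA1 : A ≠ Triv) (hM : Sub (Product A C) (Product Nil E)) {Z : Type} [Group Z] (hZ : C Z)
    (hZ' : ¬ E Z) :
    ∃ p : ℕ, p.Prime ∧ Sub C (Product (Np p) E) ∧
      (∀ (S : Type) [Group S], IsSimpleGroup S → A S → IsPGroup p S) ∧
      (Sub A (Np p) ∨ Sub (Product (Ep p) C) C) := by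
  obtain ⟨S₀, _, _, hS₀, hAS₀⟩ := exists_simple hA hA1
  haveI := hC.finite Z hZ
  obtain ⟨p, hp, hpS, hpZ⟩ := wr_key hE hZ' (hM _ (wr_simple_mem hA hC hS₀ hAS₀ hZ))
  haveI := Fact.mk hp
  have h1 : Sub C (Product (Np p) E) := by
    intro Y _ hY
    haveI := hC.finite Y hY
    refine ⟨inferInstance, inferInstance, ?_⟩
    by_cases hEY : E Y
    · rw [(residual_eq_bot hE).2 hEY]
      exact IsPGroup.of_bot
    · obtain ⟨q, hq, hqS, hqY⟩ := wr_key hE hEY (hM _ (wr_simple_mem hA hC hS₀ hAS₀ hY))
      haveI := Fact.mk hq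
      rwa [pgroup_unique hpS hqS]
  have h2 : ∀ (S : Type) [Group S], IsSimpleGroup S → A S → IsPGroup p S := by
    intro S _ hS hAS
    haveI := hA.finite S hAS
    obtain ⟨q, hq, hqS, hqZ⟩ := wr_key hE hZ' (hM _ (wr_simple_mem hA hC hS hAS hZ))
    haveI := Fact.mk hq
    haveI := res_nontrivial hE hZ'
    rwa [pgroup_unique hpZ hqZ]
  refine ⟨p, hp, h1, h2, ?_⟩
  by_cases hQ : ∀ (Y : Type) [Group Y], C Y → C (Cp p ≀ᵣ (Y × Z))
  · exact Or.inr (closed_of_wr hC hZ hQ)
  · left
    push Not at hQ
    obtain ⟨Y, _, hY, hQ⟩ := hQ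
    haveI := hC.finite Y hY
    have hYZ := times_mem hC hY hZ
    have hYZ' : ¬ E (Y × Z) := fun h => hZ' (hE.surj h (MonoidHom.snd Y Z) Prod.snd_surjective)
    intro X _ hX
    haveI := hA.finite X hX
    refine ⟨inferInstance, ?_⟩
    rcases subsingleton_or_nontrivial X with h | h
    · exact fun g => ⟨0, Subsingleton.elim _ _⟩
    rcases wr_mem hA hC hX hYZ with h | ⟨S, _, _, φ, hS, hφ, h⟩
    · obtain ⟨q, hq, hqX, hqY⟩ := wr_key hE hYZ' (hM _ h)
      haveI := Fact.mk hq
      haveI := res_nontrivial hE hYZ'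
      rwa [pgroup_unique (h1 _ hYZ).2.2 hqY]
    · exact absurd (wr_Cp_of_simple hC hS (h2 S hS (hA.surj hX φ hφ)) h) hQ

theorem prodNp_mono {A D C : GroupClass} (hD : IsFormation D) (hC : IsFormation C) {p : ℕ}
    (hA : Sub A (Np p)) (h : Sub D (Product (Np p) C)) :
    Sub (Product A D) (Product (Np p) C) := by
  rintro H _ ⟨_, hH⟩
  refine prodNp_ext hC (QuotientGroup.mk' (residual D H)) (QuotientGroup.mk'_surjective _) ?_
    (h _ (quot_residual hD H))
  rw [QuotientGroup.ker_mk']
  exact (hA _ hH).2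

theorem Np_nondecomposable (p : ℕ) [Fact p.Prime] : NonDecomposable (Np p) := by
  refine ⟨Np_formation p, ?_⟩
  rintro ⟨A, B, hA, hB, hA1, hB1, h⟩
  have hBt : B ≠ Triv := by
    rintro rfl
    rw [prod_triv hA] at h
    exact hA1 h.symm
  have hBN : Sub B (Np p) := h ▸ sub_prod hA hB
  obtain ⟨Z, _, _, hZs, hZ⟩ := exists_simple hB hBt
  have hwr : ∀ (X Y : Type) [Group X] [Group Y] [Nontrivial Y], Np p (X ≀ᵣ Y) → IsPGroup p X := by
    intro X Y _ _ _ hW
    obtain ⟨y, hy⟩ := exists_ne (1 : Y)
    exact wr_pgroup ⊤ (hW.2.to_subgroup ⊤) (r := inl y) trivial hy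
  have hS : ∀ (S : Type) [Group S], IsSimpleGroup S → A S → IsPGroup p S := fun S _ hS hAS =>
    hwr S Z (h ▸ wr_simple_mem hA hB hS hAS hZ)
  by_cases hQ : ∀ (Y : Type) [Group Y], B Y → B (Cp p ≀ᵣ (Y × Z))
  · have h1 := absorb (Np_formation p) hB (closed_of_wr hB hZ hQ) (fun S _ _ hS => hS.2)
    apply hB1
    refine class_ext fun G _ => ⟨hBN G, fun hG => ?_⟩
    rw [← h1]
    haveI := hG.1
    exact ⟨inferInstance, inferInstance, hG.2.to_subgroup _⟩
  · push Not at hQ
    obtain ⟨Y, _, hY, hQ⟩ := hQ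
    have hYZ := times_mem hB hY hZ
    haveI := hB.finite _ hYZ
    apply hA1
    refine class_ext fun X _ => ⟨fun hX => ⟨hA.finite X hX, ?_⟩, fun hX => ?_⟩
    · rcases wr_mem hA hB hX hYZ with h' | ⟨S, _, _, φ, hS', hφ, h'⟩
      · exact hwr X (Y × Z) (h ▸ h')
      · exact absurd (wr_Cp_of_simple hB hS' (hS S hS' (hA.surj hX φ hφ)) h') hQ
    · haveI := hX.1
      rcases wr_dichotomy hB X hYZ with ⟨ev, h1, -⟩ | ⟨S, _, _, φ, hS', hφ, h'⟩
      · have hW : Np p (X ≀ᵣ (Y × Z)) := by
          refine ⟨inferInstance, ?_⟩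
          obtain ⟨a, ha⟩ := IsPGroup.iff_card.1 hX.2
          obtain ⟨b, hb⟩ := IsPGroup.iff_card.1 (hBN _ hYZ).2
          refine IsPGroup.of_card (n := a * Nat.card (Y × Z) + b) ?_
          rw [RegularWreathProduct.card, ha, pow_add, pow_mul, ← hb]
        rw [h] at hW
        exact hA.surj hW.2 (ev 1) (h1 1)
      · exact absurd (wr_Cp_of_simple hB hS' (hX.2.of_surjective φ hφ) h') hQ

/-- All the members of the list are formations different from `(1)`. -/
def Good (L : List GroupClass) : Prop := ∀ X ∈ L, IsFormation X ∧ X ≠ Triv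

theorem prodList_formation : ∀ (l : List GroupClass) (A : GroupClass),
    (∀ X ∈ A :: l, IsFormation X) → IsFormation (prodList A l)
  | [], A, h => h A List.mem_cons_self
  | B :: l, A, h => prod_formation (h A List.mem_cons_self)
      (prodList_formation l B fun X hX => h X (List.mem_cons_of_mem _ hX))

theorem prodList_append (B : GroupClass) (m : List GroupClass)
    (hm : ∀ X ∈ B :: m, IsFormation X) : ∀ (l : List GroupClass) (A : GroupClass),
    (∀ X ∈ A :: l, IsFormation X) →
      prodList A (l ++ B :: m) = Product (prodList A l) (prodList B m)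
  | [], _, _ => rfl
  | A' :: l, A, h => by
    have h' : ∀ X ∈ A' :: l, IsFormation X := fun X hX => h X (List.mem_cons_of_mem _ hX)
    change Product A (prodList A' (l ++ B :: m)) =
      Product (Product A (prodList A' l)) (prodList B m)
    rw [prodList_append B m hm l A' h',
      prod_assoc (h A List.mem_cons_self) (prodList_formation l A' h') (prodList_formation m B hm)]

theorem prodList_foldr (B : GroupClass) (m : List GroupClass) :
    ∀ (L : List GroupClass) (A : GroupClass) (l : List GroupClass), A :: l = L ++ B :: m →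
      prodList A l = L.foldr Product (prodList B m)
  | [], A, l, h => by
    obtain ⟨rfl, rfl⟩ := List.cons.inj h
    rfl
  | A' :: L, A, l, h => by
    obtain ⟨rfl, rfl⟩ := List.cons.inj h
    cases L with
    | nil => rfl
    | cons A'' L =>
      change Product A (prodList A'' (L ++ B :: m)) = Product A _
      rw [prodList_foldr B m (A'' :: L) A'' (L ++ B :: m) rfl]

theorem big_of_long : ∀ (l : List GroupClass) (A : GroupClass), Good (A :: l) →
    ∃ (Z : Type) (_ : Group Z), prodList A l Z ∧ l.length < Monoid.exponent Z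
  | [], A, h => ⟨Unit, inferInstance, (h A List.mem_cons_self).1.trivial_mem inferInstance,
      Nat.pos_of_ne_zero Monoid.exponent_ne_zero_of_finite⟩
  | B :: l, A, h => by
    have h' : Good (B :: l) := fun X hX => h X (List.mem_cons_of_mem _ hX)
    obtain ⟨Z, _, hZ, hl⟩ := big_of_long l B h'
    have hF := prodList_formation l B fun X hX => (h' X hX).1
    obtain ⟨hA, hA1⟩ := h A List.mem_cons_self
    obtain ⟨S, _, _, hS, hAS⟩ := exists_simple hA hA1
    haveI := hF.finite Z hZ
    refine ⟨S ≀ᵣ Z, inferInstance, wr_simple_mem hA hF hS hAS hZ, ?_⟩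
    have := exponent_lt (X := S) (Y := Z)
    simp only [List.length_cons]
    omega

theorem big_of_long' {e : ℕ} (he : 0 < e) (l : List GroupClass) (A : GroupClass)
    (h : Good (A :: l)) (hl : e ≤ l.length) :
    ∃ (Z : Type) (_ : Group Z), prodList A l Z ∧ ¬ Exp e Z := by
  obtain ⟨Z, _, hZ, hl'⟩ := big_of_long l A h
  refine ⟨Z, inferInstance, hZ, fun hE => ?_⟩
  have := Nat.le_of_dvd he (Monoid.exponent_dvd_of_forall_pow_eq_one hE.2)
  omega

theorem fin_of_bounded (n : ℕ) : ∀ F : GroupClass, IsFormation F → F ≠ Triv →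
    (∀ (A : GroupClass) (l : List GroupClass), Good (A :: l) → prodList A l = F → l.length < n) →
    ∃ (F₁ : GroupClass) (l : List GroupClass),
      (∀ X ∈ F₁ :: l, NonDecomposable X) ∧ F = prodList F₁ l := by
  induction n with
  | zero =>
    intro F hF h1 h
    exact absurd (h F [] (by simpa [Good] using ⟨hF, h1⟩) rfl) (by simp)
  | succ n ih =>
    intro F hF h1 h
    by_cases hnd : NonDecomposable F
    · exact ⟨F, [], by simpa using hnd, rfl⟩
    have : ∃ A B : GroupClass,
        IsFormation A ∧ IsFormation B ∧ A ≠ F ∧ B ≠ F ∧ F = Product A B := by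
      by_contra hcon
      exact hnd ⟨hF, hcon⟩
    obtain ⟨A, B, hA, hB, hAF, hBF, hAB⟩ := this
    have hAt : A ≠ Triv := by
      rintro rfl
      exact hBF (by rw [hAB, triv_prod hB])
    have hBt : B ≠ Triv := by
      rintro rfl
      exact hAF (by rw [hAB, prod_triv hA])
    obtain ⟨A₁, la, ha, haA⟩ := ih A hA hAt fun A' l hl hp => by
      have h2 := h A' (l ++ [B]) (by
        intro X hX
        rw [← List.cons_append, List.mem_append] at hX
        rcases hX with hX | hX
        · exact hl X hX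
        · rw [List.mem_singleton.1 hX]; exact ⟨hB, hBt⟩) (by
        rw [prodList_append B [] (by simpa using hB) l A' (fun X hX => (hl X hX).1), hp, hAB]
        rfl)
      simpa using h2
    obtain ⟨B₁, lb, hb, hbB⟩ := ih B hB hBt fun B' l hl hp => by
      have h2 := h A (B' :: l) (by
        intro X hX
        rcases List.mem_cons.1 hX with hX | hX
        · rw [hX]; exact ⟨hA, hAt⟩
        · exact hl X hX) (by rw [hAB, ← hp]; rfl)
      simpa using h2
    refine ⟨A₁, la ++ B₁ :: lb, ?_, ?_⟩
    · intro X hX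
      rw [← List.cons_append, List.mem_append] at hX
      rcases hX with hX | hX
      · exact ha X hX
      · exact hb X hX
    · rw [prodList_append B₁ lb (fun X hX => (hb X hX).1) la A₁ (fun X hX => (ha X hX).1),
        ← haA, ← hbB, hAB]

theorem foldr_formation {C : GroupClass} (hC : IsFormation C) : ∀ L : List GroupClass, Good L →
    IsFormation (L.foldr Product C) ∧ Sub C (L.foldr Product C)
  | [], _ => ⟨hC, fun _ _ h => h⟩
  | A :: L, h => by
    obtain ⟨h1, h2⟩ := foldr_formation hC L fun X hX => h X (List.mem_cons_of_mem _ hX)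
    have hA := (h A List.mem_cons_self).1
    exact ⟨prod_formation hA h1, fun G _ hG => sub_prod hA h1 G (h2 G hG)⟩

theorem chain {E C : GroupClass} (hE : IsFormation E) (hC : IsFormation C) {p : ℕ}
    [hp : Fact p.Prime] {Z : Type} [Group Z] (hZ : C Z) (hZ' : ¬ E Z) :
    ∀ L : List GroupClass, Good L → Sub (L.foldr Product C) (Product (Np p) E) →
      Sub (Product (Ep p) (L.foldr Product C)) (L.foldr Product C) ∨
      (Sub (L.foldr Product C) (Product (Np p) C) ∧
        ∀ (G : Type) [Group G] [Finite G], IsPGroup p (residual C G) →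
          residual (L.foldr Product C) G = ⊥ ∨
            Nat.card (residual (L.foldr Product C) G) + L.length ≤ Nat.card G)
  | [], _, _ => Or.inr ⟨sub_prod (Np_formation p) hC, fun G _ _ _ =>
      Or.inr (Subgroup.card_le_card_group _)⟩
  | A :: L, h, hM => by
    have hL : Good L := fun X hX => h X (List.mem_cons_of_mem _ hX)
    obtain ⟨hA, hA1⟩ := h A List.mem_cons_self
    obtain ⟨hD, hCD⟩ := foldr_formation hC L hL
    set D := L.foldr Product C with hDdef
    change Sub (Product A D) _ at hM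
    change Sub (Product (Ep p) (Product A D)) (Product A D) ∨
      (Sub (Product A D) (Product (Np p) C) ∧
        ∀ (G : Type) [Group G] [Finite G], IsPGroup p (residual C G) →
          residual (Product A D) G = ⊥ ∨
            Nat.card (residual (Product A D) G) + (L.length + 1) ≤ Nat.card G)
    have hM' : Sub D (Product (Np p) E) := fun G _ hG => hM G (sub_prod hA hD G hG)
    have hMn : Sub (Product A D) (Product Nil E) := fun G _ hG =>
      have h1 := hM G hG
      ⟨h1.1, h1.2.1, haveI := h1.2.1; h1.2.2.isNilpotent⟩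
    obtain ⟨q, hq, h1, h2, h3⟩ := step hE hA hD hA1 hMn (hCD Z hZ) hZ'
    haveI := hC.finite Z hZ
    haveI := res_nontrivial hE hZ'
    haveI := Fact.mk hq
    obtain rfl : p = q := pgroup_unique (hM' Z (hCD Z hZ)).2.2 (h1 Z (hCD Z hZ)).2.2
    have hcl : Sub (Product (Ep p) D) D → Sub (Product (Ep p) (Product A D)) (Product A D) := by
      intro hcl
      rw [absorb hA hD hcl h2]
      exact hcl
    rcases chain hE hC hZ hZ' L hL hM' with h4 | ⟨h4, h5⟩
    · exact Or.inl (hcl h4)
    rcases h3 with h3 | h3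
    swap
    · exact Or.inl (hcl h3)
    refine Or.inr ⟨prodNp_mono hD hC h3 h4, fun G _ _ hG => ?_⟩
    have hle : residual D G ≤ residual C G := residual_anti hC hCD G
    by_cases hb : residual D G = ⊥
    · left
      rw [eq_bot_iff, ← hb]
      exact residual_anti hD (sub_prod hA hD) G
    right
    have h6 : Nat.card (residual D G) + L.length ≤ Nat.card G := (h5 G hG).resolve_left hb
    haveI : Nontrivial (residual D G) := (Subgroup.nontrivial_iff_ne_bot _).2 hb
    obtain ⟨S, _, _, φ, hs, hφ, -⟩ :=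
      exists_simple_quot (⊥ : Subgroup (residual D G)) bot_ne_top
    obtain ⟨e₁⟩ := simple_pgroup_equiv hs ((hG.to_le hle).of_surjective φ hφ)
    obtain ⟨S₀, _, _, hS₀, hAS₀⟩ := exists_simple hA hA1
    obtain ⟨e₂⟩ := simple_pgroup_equiv hS₀ (h2 S₀ hS₀ hAS₀)
    have hAS : A S := hA.iso _ _ ⟨e₂.trans e₁.symm⟩ hAS₀
    have h7 := (residual_le_ker hA φ hφ).2 hAS
    have h8 : residual A (residual D G) ≠ ⊤ := by
      intro ht
      obtain ⟨t, ht1⟩ := exists_ne (1 : S)
      obtain ⟨x, rfl⟩ := hφ t
      exact ht1 (h7 (ht ▸ Subgroup.mem_top x))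
    have h9 : Nat.card (residual A (residual D G)) < Nat.card (residual D G) :=
      lt_of_le_of_ne (Subgroup.card_le_card_group _) fun h' => h8 (Subgroup.eq_top_of_card_eq _ h')
    rw [residual_prod hA hD, Subgroup.card_map_of_injective (Subgroup.subtype_injective _)]
    omega

theorem main (G₀ : Type) [Group G₀] [Finite G₀] (F : GroupClass) (hF : IsFormation F)
    (hsub : ∀ (H : Type) [Group H], F H → SatGen G₀ H) (hne : F ≠ Product F F) :
    ∃ (F₁ : GroupClass) (l : List GroupClass),
      (∀ A ∈ F₁ :: l, NonDecomposable A) ∧ F = prodList F₁ l := by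
  set e := Nat.card G₀ with hedef
  have he : 0 < e := Nat.card_pos
  have hE := Exp_formation e
  have hM : Sub F (Product Nil (Exp e)) := fun H _ hH =>
    hsub H hH _ (prod_formation Nil_formation hE) (saturated_nil hE)
      (sub_prod Nil_formation hE _ ⟨inferInstance, fun a => pow_card_eq_one'⟩)
  have hFt : F ≠ Triv := by
    rintro rfl
    exact hne (triv_prod hF).symm
  by_cases hb : ∃ n, ∀ (A : GroupClass) (l : List GroupClass), Good (A :: l) →
      prodList A l = F → l.length < n
  · obtain ⟨n, hn⟩ := hb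
    exact fin_of_bounded n F hF hFt hn
  push Not at hb
  have hsplit : ∀ n : ℕ, ∃ (L : List GroupClass) (C : GroupClass) (Z : Type) (_ : Group Z),
      Good L ∧ L.length = n ∧ IsFormation C ∧ C Z ∧ ¬ Exp e Z ∧ F = L.foldr Product C := by
    intro n
    obtain ⟨A, l, hg, hp, hl⟩ := hb (n + e)
    obtain ⟨B, m, hBm⟩ : ∃ B m, (A :: l).drop n = B :: m := by
      apply List.exists_cons_of_ne_nil
      rw [Ne, List.drop_eq_nil_iff, List.length_cons]
      omega
    have h1 : A :: l = (A :: l).take n ++ B :: m := by rw [← hBm, List.take_append_drop]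
    have h2 : Good (B :: m) := fun X hX => hg X (List.mem_of_mem_drop (hBm ▸ hX))
    have h3 : e ≤ m.length := by
      have := congrArg List.length hBm
      simp only [List.length_drop, List.length_cons] at this
      omega
    obtain ⟨Z, _, hZ, hZ'⟩ := big_of_long' he m B h2 h3
    refine ⟨(A :: l).take n, prodList B m, Z, inferInstance,
      fun X hX => hg X (List.mem_of_mem_take hX), ?_,
      prodList_formation m B fun X hX => (h2 X hX).1, hZ, hZ', ?_⟩
    · rw [List.length_take, List.length_cons]; omega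
    · rw [← hp]; exact prodList_foldr B m _ A l h1
  obtain ⟨p, hp, hFp⟩ : ∃ p : ℕ, p.Prime ∧ Sub F (Product (Np p) (Exp e)) := by
    obtain ⟨L, C, Z, _, hL, hl, hC, hZ, hZ', hFL⟩ := hsplit 1
    obtain ⟨A, rfl⟩ := List.length_eq_one_iff.1 hl
    obtain ⟨hA, hA1⟩ := hL A List.mem_cons_self
    change F = Product A C at hFL
    obtain ⟨p, hp, h1, h2, h3⟩ := step hE hA hC hA1 (hFL ▸ hM) hZ hZ'
    haveI := Fact.mk hp
    refine ⟨p, hp, ?_⟩
    rcases h3 with h3 | h3
    · rw [hFL]; exact prodNp_mono hC hE h3 h1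
    · rw [hFL, absorb hA hC h3 h2]; exact h1
  haveI := Fact.mk hp
  have hcl : Sub (Product (Ep p) F) F := by
    intro G _ hG
    haveI := hG.1
    obtain ⟨L, C, Z, _, hL, hl, hC, hZ, hZ', hFL⟩ := hsplit (Nat.card G)
    rcases chain (p := p) hE hC hZ hZ' L hL (hFL ▸ hFp) with h | ⟨h1, h2⟩
    · rw [← hFL] at h
      exact h G hG
    · rw [← hFL] at h1 h2
      have h3 : Product (Np p) C G := by
        refine prodNp_ext hC (QuotientGroup.mk' (residual F G)) (QuotientGroup.mk'_surjective _)
          ?_ (h1 _ (quot_residual hF G))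
        rw [QuotientGroup.ker_mk']
        exact fun g => ⟨1, by rw [pow_one]; exact hG.2.2.2 g⟩
      rcases h2 G h3.2.2 with h4 | h4
      · exact (residual_eq_bot hF).1 h4
      · have : 0 < Nat.card (residual F G) := Nat.card_pos
        omega
  have hNF : Product (Np p) F = F := absorb (Np_formation p) hF hcl fun S _ _ hS => hS.2
  let B₀ : GroupClass := fun G _ => F G ∧ Exp e G
  have hB₀ : IsFormation B₀ := inter_formation hF hE
  have hFB : F = Product (Np p) B₀ := by
    refine class_ext fun G _ => ⟨fun hG => ?_, fun hG => ?_⟩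
    · haveI := hF.finite G hG
      refine prodNp_ext hB₀ (QuotientGroup.mk' (residual (Exp e) G))
        (QuotientGroup.mk'_surjective _) ?_
        (sub_prod (Np_formation p) hB₀ _ ⟨hF.quotient G _ hG, quot_residual hE G⟩)
      rw [QuotientGroup.ker_mk']
      exact (hFp G hG).2.2
    · rw [← hNF]
      haveI := hG.1
      exact ⟨inferInstance, inferInstance,
        hG.2.2.to_le (residual_anti hB₀ (fun _ _ h => h.1) G)⟩
  have hBt : B₀ ≠ Triv := by
    intro h
    rw [h, prod_triv (Np_formation p)] at hFB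
    apply hne
    rw [hFB] at hNF ⊢
    exact hNF.symm
  obtain ⟨B₁, l, hl, hBl⟩ := fin_of_bounded e B₀ hB₀ hBt fun A l hg hp' => by
    by_contra hcon
    obtain ⟨Z, _, hZ, hZ'⟩ := big_of_long' he l A hg (not_lt.1 hcon)
    rw [hp'] at hZ
    exact hZ' hZ.2
  refine ⟨Np p, B₁ :: l, ?_, ?_⟩
  · intro X hX
    rcases List.mem_cons.1 hX with hX | hX
    · rw [hX]; exact Np_nondecomposable p
    · exact hl X hX
  · rw [hFB, hBl]; rfl

end Pool.Agent.H601Z.Form
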