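import Mathlib
import Pool.Agent.H601Z.FormC

set_option autoImplicit false
set_option linter.style.haveILetI false

namespace Pool.Agent.H601Z.Form

open Pool.Agent.Helper75.UF RegularWreathProduct Function

theorem le_iff_map_mk {G : Type} [Group G] (H N : Subgroup G) [N.Normal] :
    H ≤ N ↔ H.map (QuotientGroup.mk' N) = ⊥ := by
  rw [Subgroup.map_eq_bot_iff, QuotientGroup.ker_mk']

theorem lcs_comm {G : Type} [Group G] (j : ℕ) : ∀ i : ℕ,
    ⁅(⊤ : Subgroup G).lowerCentralSeries i, (⊤ : Subgroup G).lowerCentralSeries j⁆ ≤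
      (⊤ : Subgroup G).lowerCentralSeries (i + j + 1) := by
  induction j with
  | zero => intro i; exact le_rfl
  | succ j ih =>
    intro i
    rw [Subgroup.lowerCentralSeries_succ ⊤ j, Subgroup.commutator_comm, le_iff_map_mk,
      Subgroup.map_commutator, Subgroup.map_commutator]
    apply Subgroup.commutator_commutator_eq_bot_of_rotate
    · rw [← Subgroup.map_commutator, ← Subgroup.map_commutator, ← le_iff_map_mk,
        Subgroup.commutator_comm ⊤, ← Subgroup.lowerCentralSeries_succ]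
      have := ih (i + 1)
      rwa [show i + 1 + j + 1 = i + (j + 1) + 1 by ring] at this
    · rw [← Subgroup.map_commutator, ← Subgroup.map_commutator, ← le_iff_map_mk]
      exact Subgroup.commutator_mono (ih i) le_rfl

theorem comm_aux {Q : Type} [Group Q] (a β m ν : Q) (h1 : Commute β (m * ν)) (h2 : Commute ν a) :
    (a * β) * (m * ν) * (a * β)⁻¹ * (m * ν)⁻¹ = a * m * a⁻¹ * m⁻¹ := by
  have e1 : β * (m * ν) * β⁻¹ = m * ν := by rw [h1.eq]; simp
  have e2 : ν * a⁻¹ * ν⁻¹ = a⁻¹ := by rw [h2.inv_right.eq]; simp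
  calc (a * β) * (m * ν) * (a * β)⁻¹ * (m * ν)⁻¹
      = a * (β * (m * ν) * β⁻¹) * a⁻¹ * (m * ν)⁻¹ := by group
    _ = a * m * (ν * a⁻¹ * ν⁻¹) * m⁻¹ := by rw [e1]; group
    _ = a * m * a⁻¹ * m⁻¹ := by rw [e2]

theorem commute_mk {G : Type} [Group G] (N : Subgroup G) [N.Normal] {x y : G}
    (h : x * y * x⁻¹ * y⁻¹ ∈ N) :
    Commute (QuotientGroup.mk' N x) (QuotientGroup.mk' N y) := by
  have := (QuotientGroup.eq_one_iff _).2 h
  rw [← commutatorElement_eq_one_iff_commute]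
  simpa [commutatorElement_def] using this

/-- Bryant, Bryce and Hartley: supplements of nilpotent normal subgroups stay in a formation. -/
theorem bbh {A : GroupClass} (hA : IsFormation A) (c : ℕ) : ∀ (G : Type) [Group G] [Finite G]
    (N : ℕ → Subgroup G), (∀ i, (N i).Normal) → (∀ i j, ⁅N i, N j⁆ ≤ N (i + j + 1)) →
    (∀ i, N (i + 1) ≤ N i) → N c = ⊥ → ∀ U : Subgroup G, (∀ g, ∃ u ∈ U, u⁻¹ * g ∈ N 0) →
    A G → A U := by
  induction c with
  | zero =>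
    intro G _ _ N _ _ _ h0 U hU hG
    have : U = ⊤ := by
      rw [eq_top_iff]
      intro g _
      obtain ⟨u, hu, h⟩ := hU g
      rw [h0, Subgroup.mem_bot, inv_mul_eq_one] at h
      exact h ▸ hu
    rw [this]
    exact hA.iso _ _ ⟨Subgroup.topEquiv.symm⟩ hG
  | succ c ih =>
    intro G _ _ N hn hc hanti h0 U hU hG
    have hcm : ∀ i j, ∀ x ∈ N i, ∀ y ∈ N j, x * y * x⁻¹ * y⁻¹ ∈ N (i + j + 1) :=
      fun i j x hx y hy => hc i j (Subgroup.commutator_mem_commutator hx hy)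
    have hmul : ∀ i (a b a' b' : G), a⁻¹ * b ∈ N i → a'⁻¹ * b' ∈ N i →
        (a * a')⁻¹ * (b * b') ∈ N i := by
      intro i a b a' b' h1 h2
      have : (a * a')⁻¹ * (b * b') = a'⁻¹ * (a⁻¹ * b) * a'⁻¹⁻¹ * (a'⁻¹ * b') := by group
      rw [this]
      exact (N i).mul_mem ((hn i).conj_mem _ h1 _) h2
    have hinv : ∀ i (a b : G), a⁻¹ * b ∈ N i → a⁻¹⁻¹ * b⁻¹ ∈ N i := by
      intro i a b h1
      have : a⁻¹⁻¹ * b⁻¹ = a * (a⁻¹ * b)⁻¹ * a⁻¹ := by group
      rw [this]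
      exact (hn i).conj_mem _ ((N i).inv_mem h1) _
    let G₂ : Subgroup (G × G) :=
      { carrier := {x | x.1⁻¹ * x.2 ∈ N 0}
        one_mem' := by simp
        mul_mem' := fun {x y} hx hy => hmul 0 _ _ _ _ hx hy
        inv_mem' := fun {x} hx => hinv 0 _ _ hx }
    let N₂ : ℕ → Subgroup G₂ := fun i =>
      { carrier := {x | x.1.1 ∈ N i ∧ x.1.1⁻¹ * x.1.2 ∈ N (i + 1)}
        one_mem' := by simp
        mul_mem' := fun {x y} hx hy => ⟨(N i).mul_mem hx.1 hy.1, hmul _ _ _ _ _ hx.2 hy.2⟩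
        inv_mem' := fun {x} hx => ⟨(N i).inv_mem hx.1, hinv _ _ _ hx.2⟩ }
    have hn₂ : ∀ i, (N₂ i).Normal := by
      intro i
      refine ⟨?_⟩
      rintro ⟨⟨a, b⟩, hab⟩ ⟨h1, h2⟩ ⟨⟨g, h⟩, hgh⟩
      refine ⟨(hn i).conj_mem _ h1 _, ?_⟩
      change (g * a * g⁻¹)⁻¹ * (h * b * h⁻¹) ∈ N (i + 1)
      have : (g * a * g⁻¹)⁻¹ * (h * b * h⁻¹) = g * ((a⁻¹ * (g⁻¹ * h) * a⁻¹⁻¹ * (g⁻¹ * h)⁻¹) *
          ((g⁻¹ * h) * (a⁻¹ * b) * (g⁻¹ * h)⁻¹)) * g⁻¹ := by group
      rw [this]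
      exact (hn _).conj_mem _ ((N _).mul_mem (hcm i 0 _ ((N i).inv_mem h1) _ hgh)
        ((hn _).conj_mem _ h2 _)) _
    have hc₂ : ∀ i j, ⁅N₂ i, N₂ j⁆ ≤ N₂ (i + j + 1) := by
      intro i j
      rw [Subgroup.commutator_le]
      rintro ⟨⟨a, b⟩, hab⟩ ⟨h1, h2⟩ ⟨⟨m, n⟩, hmn⟩ ⟨h3, h4⟩
      refine ⟨hcm i j a h1 m h3, ?_⟩
      change (a * m * a⁻¹ * m⁻¹)⁻¹ * (b * n * b⁻¹ * n⁻¹) ∈ N (i + j + 1 + 1)
      haveI := hn (i + j + 1 + 1)
      change a⁻¹ * b ∈ _ at h2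
      change m⁻¹ * n ∈ _ at h4
      have hn' : m * (m⁻¹ * n) ∈ N j := (N j).mul_mem h3 (hanti j h4)
      have c1 := commute_mk (N (i + j + 1 + 1)) (x := a⁻¹ * b) (y := m * (m⁻¹ * n))
        (by have := hcm (i + 1) j _ h2 _ hn'
            rwa [show i + 1 + j + 1 = i + j + 1 + 1 by ring] at this)
      have c2 := commute_mk (N (i + j + 1 + 1)) (x := a) (y := m⁻¹ * n) (hcm i (j + 1) _ h1 _ h4)
      rw [map_mul _ m] at c1
      have c3 := comm_aux _ _ _ _ c1 c2.symm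
      rw [← QuotientGroup.eq]
      simp only [← map_mul, ← map_inv, mul_inv_cancel_left] at c3
      exact c3.symm
    haveI := hn₂ c
    let π := QuotientGroup.mk' (N₂ c)
    have hπ : Surjective π := QuotientGroup.mk'_surjective _
    let U₂ : Subgroup G₂ := U.comap ((MonoidHom.fst G G).comp G₂.subtype)
    have hG₂ : A G₂ := by
      refine hA.subdirect_hom ((MonoidHom.fst G G).comp G₂.subtype)
        ((MonoidHom.snd G G).comp G₂.subtype) (fun g => ⟨⟨(g, g), by simp [G₂]⟩, rfl⟩)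
        (fun g => ⟨⟨(g, g), by simp [G₂]⟩, rfl⟩) hG hG fun x h1 h2 => ?_
      exact Subtype.ext (Prod.ext h1 h2)
    have h1 : A (U₂.map π) := by
      refine ih (G₂ ⧸ N₂ c) (fun i => (N₂ i).map π) (fun i => (hn₂ i).map π hπ)
        (fun i j => ?_) (fun i => Subgroup.map_mono fun x hx => ⟨hanti i hx.1, hanti _ hx.2⟩)
        ((le_iff_map_mk _ _).1 le_rfl) _ (fun y => ?_) (hA.surj hG₂ π hπ)
      · rw [← Subgroup.map_commutator]
        exact Subgroup.map_mono (hc₂ i j)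
      · obtain ⟨⟨⟨g, h⟩, hgh⟩, rfl⟩ := hπ y
        obtain ⟨u, hu, hm⟩ := hU g
        have h2 : u⁻¹ * (h * (u⁻¹ * g)⁻¹) ∈ N 0 := by
          have : u⁻¹ * (h * (u⁻¹ * g)⁻¹) = (u⁻¹ * g) * (g⁻¹ * h) * (u⁻¹ * g)⁻¹ := by group
          rw [this]
          exact (hn 0).conj_mem _ hgh _
        refine ⟨π ⟨(u, h * (u⁻¹ * g)⁻¹), h2⟩, ⟨_, hu, rfl⟩, ?_⟩
        rw [← map_inv, ← map_mul]
        refine ⟨_, ⟨hm, ?_⟩, rfl⟩
        change (u⁻¹ * g)⁻¹ * ((h * (u⁻¹ * g)⁻¹)⁻¹ * h) ∈ N (0 + 1)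
        have : (u⁻¹ * g)⁻¹ * ((h * (u⁻¹ * g)⁻¹)⁻¹ * h) = 1 := by group
        rw [this]
        exact (N _).one_mem
    have h2 : A U₂ := by
      refine hA.subdirect_hom (π.subgroupMap U₂)
        (((MonoidHom.snd G G).comp G₂.subtype).comp U₂.subtype)
        (MonoidHom.subgroupMap_surjective π U₂) (fun g => ?_) h1 hG fun x h3 h4 => ?_
      · obtain ⟨u, hu, hm⟩ := hU g
        exact ⟨⟨⟨(u, g), hm⟩, hu⟩, rfl⟩
      · have h5 : x.1 ∈ N₂ c := (QuotientGroup.eq_one_iff _).1 (congrArg Subtype.val h3)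
        have h6 := h5.2
        rw [h0, Subgroup.mem_bot, inv_mul_eq_one] at h6
        exact Subtype.ext (Subtype.ext (Prod.ext (h6.trans h4) h4))
    refine hA.surj h2 ((((MonoidHom.fst G G).comp G₂.subtype).comp U₂.subtype).codRestrict U
      fun x => x.2) fun u => ?_
    exact ⟨⟨⟨(u, u), by simp [G₂]⟩, u.2⟩, rfl⟩

theorem sclosed {A : GroupClass} (hA : IsFormation A) {p : ℕ} [Fact p.Prime] (hp : Sub A (Np p))
    {G : Type} [Group G] (hG : A G) (U : Subgroup G) : A U := by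
  haveI := hA.finite G hG
  haveI := (hp G hG).2.isNilpotent
  obtain ⟨c, hc⟩ := Subgroup.nilpotent_iff_lowerCentralSeries.1 (inferInstance : Group.IsNilpotent G)
  exact bbh hA c G (⊤ : Subgroup G).lowerCentralSeries (fun _ => inferInstance)
    (fun i j => lcs_comm j i) (fun i => Subgroup.lowerCentralSeries_antitone _ (Nat.le_succ i)) hc U
    (fun g => ⟨1, U.one_mem, trivial⟩) hG

theorem mem_of_sep {A : GroupClass} (hA : IsFormation A) {p : ℕ} [Fact p.Prime]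
    (hp : Sub A (Np p)) {H : Type} [Group H] [Finite H]
    (h : ∀ x : H, x ≠ 1 → ∃ (G : Type) (_ : Group G) (φ : H →* G), A G ∧ φ x ≠ 1) : A H := by
  refine mem_of_residually hA fun x hx => ?_
  obtain ⟨G, _, φ, hG, h1⟩ := h x hx
  exact ⟨φ.range, inferInstance, φ.rangeRestrict, φ.rangeRestrict_surjective,
    sclosed hA hp hG _, fun h2 => h1 (congrArg Subtype.val h2)⟩

theorem Ep_sub {A : GroupClass} (hA : IsFormation A) {p : ℕ} [Fact p.Prime] (h : A (Cp p)) :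
    Sub (Ep p) A := by
  rintro G _ ⟨_, hc, he⟩
  refine mem_of_residually hA fun x hx => ?_
  obtain ⟨χ, h1, h2⟩ := exists_char hc he hx
  exact ⟨_, inferInstance, χ, h2, h, h1⟩

section push

open Classical in
/-- Summation over the fibres of `π`. -/
noncomputable def push (p : ℕ) {Y' Y : Type} [Group Y'] [Group Y] [Fintype Y'] (π : Y' →* Y) :
    Cp p ≀ᵣ Y' →* Cp p ≀ᵣ Y where
  toFun w := ⟨fun y => ∏ y' ∈ Finset.univ.filter (fun y' => π y' = y), w.left y', π w.right⟩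
  map_one' := by ext <;> simp
  map_mul' a b := by
    ext y
    · simp only [mul_left, Pi.mul_apply, Finset.prod_mul_distrib]
      congr 2
      refine Finset.prod_equiv (Equiv.mulLeft a.right⁻¹) (fun y' => ?_) (fun y' _ => rfl)
      simp
    · simp

theorem push_surj (p : ℕ) {Y' Y : Type} [Group Y'] [Group Y] [Fintype Y'] (π : Y' →* Y)
    (hπ : Surjective π) (v : Cp p ≀ᵣ Y) (z : Y') (hz : π z = v.right) :
    ∃ w : Cp p ≀ᵣ Y', w.right = z ∧ push p π w = v := by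
  classical
  choose σ hσ using hπ
  refine ⟨⟨fun y' => if y' = σ (π y') then v.left (π y') else 1, z⟩, rfl, ?_⟩
  refine RegularWreathProduct.ext (funext fun y => ?_) hz
  change ∏ y' ∈ Finset.univ.filter (fun y' => π y' = y), _ = _
  rw [Finset.prod_eq_single (σ y)]
  · simp [hσ]
  · intro y' h1 h2
    have h3 : π y' = y := by simpa using h1
    simp [h3, h2]
  · intro h
    exact absurd (by simp [hσ]) h

theorem wr_push {B : GroupClass} (hB : IsFormation B) {p : ℕ} {Y' Y : Type} [Group Y'] [Group Y]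
    [Finite Y'] (π : Y' →* Y) (hπ : Surjective π) (h : B (Cp p ≀ᵣ Y')) : B (Cp p ≀ᵣ Y) := by
  letI := Fintype.ofFinite Y'
  refine hB.surj h (push p π) fun v => ?_
  obtain ⟨z, hz⟩ := hπ v.right
  obtain ⟨w, -, hw⟩ := push_surj p π hπ v z hz
  exact ⟨w, hw⟩

end push

theorem exists_section {G Y : Type} [Group G] [Group Y] (φ : G →* Y) (hφ : Surjective φ) :
    ∃ s : Y → G, (∀ y, φ (s y) = y) ∧ s 1 = 1 := by
  classical
  choose s hs using hφ
  refine ⟨fun y => if y = 1 then 1 else s y, fun y => ?_, by simp⟩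
  by_cases h : y = 1 <;> simp [h, hs]

/-- The Kaloujnine-Krasner map. -/
def kk {G Y : Type} [Group G] [Group Y] (φ : G →* Y) (s : Y → G) (hs : ∀ y, φ (s y) = y) :
    G →* φ.ker ≀ᵣ Y where
  toFun := fun g => ⟨fun y => ⟨(s y)⁻¹ * g * s ((φ g)⁻¹ * y), by
    simp [MonoidHom.mem_ker, hs]⟩, φ g⟩
  map_one' := by ext <;> simp
  map_mul' := fun g h => by ext <;> simp [mul_assoc]

theorem pullback {G Y X X' : Type} [Group G] [Finite G] [Group Y] [Group X] [Group X'] [Finite X']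
    (φ : G →* Y) (hφ : Surjective φ) (χ : φ.ker →* X) (f : X' →* X) (hf : Surjective f) :
    ∃ (G' : Type) (_ : Group G') (_ : Finite G') (g : G' →* G) (ω : G' →* X' ≀ᵣ Y) (s : Y → G),
      s 1 = 1 ∧ Surjective g ∧ (∀ x, (ω x).right = φ (g x)) ∧
      (∀ x y (n : φ.ker), φ (g x) = 1 → n.1 = (s y)⁻¹ * g x * s y → f ((ω x).left y) = χ n) ∧
      (∀ b : Y → X', (∀ y, f (b y) = 1) → ∃ x, g x = 1 ∧ ω x = ⟨b, 1⟩) ∧
      (∀ x, g x = 1 → ω x = 1 → x = 1) := by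
  haveI : Finite Y := Finite.of_surjective φ hφ
  obtain ⟨s, hs, hs1⟩ := exists_section φ hφ
  let K : Subgroup ((X' ≀ᵣ Y) × G) :=
    ((wrMap f Y).comp (MonoidHom.fst _ _)).eqLocus
      (((wrMap χ Y).comp (kk φ s hs)).comp (MonoidHom.snd _ _))
  have hK : ∀ x : K, wrMap f Y x.1.1 = wrMap χ Y (kk φ s hs x.1.2) := fun x => x.2
  refine ⟨K, inferInstance, inferInstance, (MonoidHom.snd _ _).comp K.subtype,
    (MonoidHom.fst _ _).comp K.subtype, s, hs1, fun a => ?_, fun x => ?_, fun x y n h1 h2 => ?_,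
    fun b hb => ?_, fun x h1 h2 => Subtype.ext (Prod.ext h2 h1)⟩
  · obtain ⟨w, hw⟩ := wrMap_surj (Y := Y) f hf (wrMap χ Y (kk φ s hs a))
    exact ⟨⟨(w, a), hw⟩, rfl⟩
  · exact congrArg RegularWreathProduct.right (hK x)
  · have h3 := congrFun (congrArg RegularWreathProduct.left (hK x)) y
    refine h3.trans (congrArg χ (Subtype.ext ?_))
    change (s y)⁻¹ * x.1.2 * s ((φ x.1.2)⁻¹ * y) = n.1
    change φ x.1.2 = 1 at h1
    rw [h1, h2, inv_one, one_mul]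
    rfl
  · refine ⟨⟨(⟨b, 1⟩, 1), ?_⟩, rfl, rfl⟩
    change wrMap f Y ⟨b, 1⟩ = wrMap χ Y (kk φ s hs 1)
    rw [map_one, map_one]
    exact RegularWreathProduct.ext (funext hb) rfl

theorem LA_mod {K E W : Type} [Field K] [AddCommGroup E] [Module K E] [Module.Finite K E]
    [AddCommGroup W] [Module K W] [Module.Finite K W] (P₁ P₂ : Submodule K E) (h : ¬ P₂ ≤ P₁)
    (μ : W →ₗ[K] K) (hμ : Surjective μ) (hd : Module.finrank K W < Module.finrank K P₂) :
    ∃ l : E →ₗ[K] W, (∀ w, ∃ x ∈ P₂, l x = w) ∧ ∀ x ∈ P₁, μ (l x) = 0 := by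
  obtain ⟨x₀, hx₂, hx₁⟩ := SetLike.not_le_iff_exists.1 h
  obtain ⟨l₀, h1, h2⟩ := Submodule.exists_dual_map_eq_bot_of_notMem hx₁ inferInstance
  have h3 := LinearMap.finrank_range_add_finrank_ker (l₀.domRestrict P₂)
  have h4 : Module.finrank K (LinearMap.range (l₀.domRestrict P₂)) ≤ 1 := by
    simpa using Submodule.finrank_le (LinearMap.range (l₀.domRestrict P₂))
  have h5 := Submodule.finrank_le (LinearMap.ker μ)
  obtain ⟨j, hj⟩ := (finrank_le_iff_exists_linearMap (R := K) (M := LinearMap.ker μ)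
    (M' := LinearMap.ker (l₀.domRestrict P₂))).1 (by omega)
  let J : LinearMap.ker μ →ₗ[K] E := P₂.subtype ∘ₗ (Submodule.subtype _) ∘ₗ j
  have hJ : Injective J := Subtype.val_injective.comp (Subtype.val_injective.comp hj)
  obtain ⟨ν, hν⟩ := J.exists_leftInverse_of_injective (LinearMap.ker_eq_bot.2 hJ)
  obtain ⟨w₀, hw₀⟩ := hμ 1
  let l : E →ₗ[K] W := l₀.smulRight w₀ + (LinearMap.ker μ).subtype ∘ₗ ν
  have hl : ∀ x, μ (l x) = l₀ x := by
    intro x
    have : μ (ν x).1 = 0 := (ν x).2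
    simp [l, hw₀, this]
  refine ⟨l, fun w => ?_, fun x hx => ?_⟩
  · let x₁ := (μ w * (l₀ x₀)⁻¹) • x₀
    have h6 : w - l x₁ ∈ LinearMap.ker μ := by
      rw [LinearMap.mem_ker, map_sub, hl, map_smul, smul_eq_mul, mul_assoc, inv_mul_cancel₀ h1,
        mul_one, sub_self]
    refine ⟨x₁ + J ⟨_, h6⟩, P₂.add_mem (P₂.smul_mem _ hx₂) (j ⟨_, h6⟩).1.2, ?_⟩
    have h7 : l₀ (J ⟨_, h6⟩) = 0 := (j ⟨_, h6⟩).2
    have h8 : ν (J ⟨_, h6⟩) = ⟨_, h6⟩ := LinearMap.congr_fun hν _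
    have h9 : l (J ⟨_, h6⟩) = w - l x₁ := by
      change l₀ (J ⟨_, h6⟩) • w₀ + (ν (J ⟨_, h6⟩)).1 = _
      rw [h7, h8, zero_smul, zero_add]
    rw [map_add, h9, add_sub_cancel]
  · rw [hl]
    have : l₀ x ∈ P₁.map l₀ := ⟨x, hx, rfl⟩
    rwa [h2, Submodule.mem_bot] at this

theorem LA_card {K E W : Type} [Field K] [Finite K] [AddCommGroup E] [Module K E] [Finite E]
    [AddCommGroup W] [Module K W] [Finite W] (P₁ P₂ : Submodule K E) (h : ¬ P₂ ≤ P₁)
    (μ : W →ₗ[K] K) (hμ : Surjective μ) (hd : Nat.card W < Nat.card P₂) :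
    ∃ l : E →ₗ[K] W, (∀ w, ∃ x ∈ P₂, l x = w) ∧ ∀ x ∈ P₁, μ (l x) = 0 := by
  rw [Module.natCard_eq_pow_finrank (K := K) (V := W),
    Module.natCard_eq_pow_finrank (K := K) (V := P₂)] at hd
  exact LA_mod P₁ P₂ h μ hμ ((Nat.pow_lt_pow_iff_right Finite.one_lt_card).1 hd)

theorem LA_add {p : ℕ} [hp : Fact p.Prime] {E W : Type} [AddCommGroup E] [Finite E]
    [AddCommGroup W] [Finite W] (hE : ∀ a : E, p • a = 0) (hW : ∀ a : W, p • a = 0)
    (P₁ P₂ : AddSubgroup E) (h : ¬ P₂ ≤ P₁) (μ : W →+ ZMod p) (hμ : Surjective μ)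
    (hd : Nat.card W < Nat.card P₂) :
    ∃ l : E →+ W, (∀ w, ∃ x ∈ P₂, l x = w) ∧ ∀ x ∈ P₁, μ (l x) = 0 := by
  letI : Module (ZMod p) E := AddCommGroup.zmodModule hE
  letI : Module (ZMod p) W := AddCommGroup.zmodModule hW
  obtain ⟨l, h4, h5⟩ := LA_card (K := ZMod p) (AddSubgroup.toZModSubmodule p P₁)
    (AddSubgroup.toZModSubmodule p P₂) h (μ.toZModLinearMap p) hμ hd
  exact ⟨l.toAddMonoidHom, h4, h5⟩

theorem LA_mul {p : ℕ} [hp : Fact p.Prime] {E W : Type} [Group E] [Group W] (hE : Ep p E)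
    (hW : Ep p W) (P₁ P₂ : Subgroup E) (h : ¬ P₂ ≤ P₁) (μ : W →* Cp p) (hμ : Surjective μ)
    (hd : Nat.card W < Nat.card P₂) :
    ∃ l : E →* W, (∀ w, ∃ x ∈ P₂, l x = w) ∧ ∀ x ∈ P₁, μ (l x) = 1 := by
  haveI := hE.1
  haveI := hW.1
  letI : CommGroup E := { (inferInstance : Group E) with mul_comm := hE.2.1 }
  letI : CommGroup W := { (inferInstance : Group W) with mul_comm := hW.2.1 }
  obtain ⟨l, h1, h2⟩ := LA_add (p := p) (E := Additive E) (W := Additive W)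
    (fun x => by
      change Additive.ofMul ((Additive.toMul x) ^ p) = 0
      rw [hE.2.2]; rfl)
    (fun x => by
      change Additive.ofMul ((Additive.toMul x) ^ p) = 0
      rw [hW.2.2]; rfl)
    (Subgroup.toAddSubgroup P₁) (Subgroup.toAddSubgroup P₂) h
    { toFun := fun w => Multiplicative.toAdd (μ (Additive.toMul w))
      map_zero' := congrArg Multiplicative.toAdd μ.map_one
      map_add' := fun a b => congrArg Multiplicative.toAdd (μ.map_mul _ _) } hμ hd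
  refine ⟨⟨⟨fun x => Additive.toMul (l (Additive.ofMul x)), ?_⟩, ?_⟩, h1, h2⟩
  · exact congrArg Additive.toMul l.map_zero
  · intro x y
    exact congrArg Additive.toMul (l.map_add (Additive.ofMul x) (Additive.ofMul y))

end Pool.Agent.H601Z.Form
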