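import Mathlib
import Pool.Agent.H601Z.FormD

set_option autoImplicit false
set_option linter.style.haveILetI false

namespace Pool.Agent.H601Z.Form

open Pool.Agent.Helper75.UF RegularWreathProduct Function

/-- Families of subgroups. -/
abbrev FamT : Type 1 := ∀ (X : Type) [Group X], Subgroup X → Prop

/-- Families of normal subgroups that can be pushed forward and lifted along epimorphisms. -/
structure IsFam (Φ : FamT) : Prop where
  normal : ∀ (X : Type) [Group X] (P : Subgroup X), Φ X P → P.Normal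
  map : ∀ (X X' : Type) [Group X] [Finite X] [Group X'] (f : X →* X') (P : Subgroup X),
    Surjective f → Φ X P → Φ X' (P.map f)
  lift : ∀ (X X' : Type) [Group X] [Group X'] [Finite X'] (f : X' →* X) (P : Subgroup X),
    Surjective f → Φ X P → ∃ P' : Subgroup X', Φ X' P' ∧ P'.map f = P

/-- Extensions of `A₁`-groups by `C_p` that are `p`-groups lie in `A₂`. -/
def AbsP (p : ℕ) (A₁ A₂ : GroupClass) : Prop :=
  ∀ (U : Type) [Group U] [Finite U] (μ : U →* Cp p), IsPGroup p U → Surjective μ →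
    A₁ μ.ker → A₂ U

/-- A configuration with a large second member. -/
def Cfg (p : ℕ) (Φ₁ Φ₂ : FamT) (n : ℕ) : Prop :=
  ∃ (X : Type) (_ : Group X) (_ : Finite X) (Y : Type) (_ : Group Y) (φ : X →* Y)
    (P₁ P₂ : Subgroup X), Surjective φ ∧ Ep p φ.ker ∧ Φ₁ X P₁ ∧ Φ₂ X P₂ ∧ P₁ ≤ φ.ker ∧
      P₂ ≤ φ.ker ∧ ¬ P₂ ≤ P₁ ∧ n ≤ Nat.card P₂

theorem res_Ep_le {p : ℕ} [Fact p.Prime] {U S : Type} [Group U] [Finite U] [Group S]
    (hU : IsPGroup p U) (hS : IsSimpleGroup S) (φ : U →* S) (hφ : Surjective φ) :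
    residual (Ep p) U ≤ φ.ker := by
  haveI : Finite S := Finite.of_surjective φ hφ
  obtain ⟨e⟩ := simple_pgroup_equiv hS (hU.of_surjective φ hφ)
  exact (residual_le_ker (Ep_formation p) φ hφ).2 ((Ep_formation p).iso _ _ ⟨e.symm⟩ (Ep_Cp p))

theorem gen_of_Ep {p : ℕ} [Fact p.Prime] {U : Type} [Group U] [Finite U] (hU : IsPGroup p U)
    (H : Subgroup U) (h : ∀ u : U, ∃ x ∈ H, x⁻¹ * u ∈ residual (Ep p) U) : H = ⊤ := by
  rcases eq_top_or_exists_le_coatom H with h1 | ⟨M, hM, hHM⟩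
  · exact h1
  exfalso
  haveI := hU.isNilpotent
  haveI : M.Normal := Subgroup.NormalizerCondition.normal_of_coatom M
    Group.normalizerCondition_of_isNilpotent hM
  obtain ⟨S, _, _, φ, hS, hφ, hk⟩ := exists_simple_quot M hM.1
  obtain ⟨t, ht⟩ := exists_ne (1 : S)
  obtain ⟨u, rfl⟩ := hφ t
  obtain ⟨x, hx, hxu⟩ := h u
  have h2 : φ (x⁻¹ * u) = 1 := res_Ep_le hU hS φ hφ hxu
  have h3 : φ x = 1 := hk (hHM hx)
  rw [map_mul, map_inv, h3, inv_one, one_mul] at h2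
  exact ht h2

/-- Evaluation of a map into a wreath product on a subgroup that lands in the base group. -/
def evAt {G X Y : Type} [Group G] [Group X] [Group Y] (ω : G →* X ≀ᵣ Y) (P : Subgroup G)
    (h : ∀ x ∈ P, (ω x).right = 1) (y : Y) : P →* X where
  toFun x := (ω x).left y
  map_one' := by simp
  map_mul' a b := by simp [h a a.2]

theorem key {p : ℕ} [Fact p.Prime] {A₁ A₂ : GroupClass} {Φ₁ Φ₂ : FamT} (hA₁ : IsFormation A₁)
    (hp₁ : Sub A₁ (Np p)) (hc₁ : A₁ (Cp p)) (hA₂ : IsFormation A₂) (h₁ : IsFam Φ₁)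
    (h₂ : IsFam Φ₂) (hm : ∀ (X : Type) [Group X] [Finite X] (P₁ P₂ : Subgroup X),
      Φ₁ X P₁ → Φ₂ X P₂ → A₁ P₁ → A₂ P₂)
    {U : Type} [Group U] [Finite U] (μ : U →* Cp p) (hU : IsPGroup p U) (hμ : Surjective μ)
    (hV : A₁ μ.ker) (hcfg : Cfg p Φ₁ Φ₂ (Nat.card U + 1)) : A₂ U := by
  obtain ⟨X, _, _, Y, _, φ, P₁, P₂, hφ, hE, hP₁, hP₂, l₁, l₂, hne, hd⟩ := hcfg
  let f := QuotientGroup.mk' (residual (Ep p) U)
  have hf : Surjective f := QuotientGroup.mk'_surjective _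
  let μ' : U ⧸ residual (Ep p) U →* Cp p :=
    QuotientGroup.lift _ μ ((residual_le_ker (Ep_formation p) μ hμ).2 (Ep_Cp p))
  have hμ' : Surjective μ' := fun c => by
    obtain ⟨u, hu⟩ := hμ c
    exact ⟨f u, hu⟩
  obtain ⟨l, hl1, hl2⟩ := LA_mul hE (quot_residual (Ep_formation p) U) (P₁.subgroupOf φ.ker)
    (P₂.subgroupOf φ.ker) (fun h => hne fun x hx => h (x := ⟨x, l₂ hx⟩) hx) μ' hμ' (by
      rw [Nat.card_congr (Subgroup.subgroupOfEquivOfLe l₂).toEquiv]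
      have := Nat.card_le_card_of_surjective f hf
      omega)
  obtain ⟨G', _, _, g, ω, s, hs1, hg, hω, hev, -, hinj⟩ := pullback φ hφ l f hf
  obtain ⟨Q₁, hQ₁, e₁⟩ := h₁.lift X G' g P₁ hg hP₁
  obtain ⟨Q₂, hQ₂, e₂⟩ := h₂.lift X G' g P₂ hg hP₂
  have m₁ : ∀ x ∈ Q₁, g x ∈ P₁ := fun x hx => e₁ ▸ ⟨x, hx, rfl⟩
  have m₂ : ∀ x ∈ Q₂, g x ∈ P₂ := fun x hx => e₂ ▸ ⟨x, hx, rfl⟩
  have r₁ : ∀ x ∈ Q₁, (ω x).right = 1 := fun x hx => (hω x).trans (l₁ (m₁ x hx))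
  have r₂ : ∀ x ∈ Q₂, (ω x).right = 1 := fun x hx => (hω x).trans (l₂ (m₂ x hx))
  have hA : A₁ Q₁ := by
    refine mem_of_sep hA₁ hp₁ fun x hx => ?_
    by_cases h1 : g x = 1
    · have h2 : ∃ y, (ω x).left y ≠ 1 := by
        by_contra hcon
        push Not at hcon
        exact hx (Subtype.ext (hinj x h1 (RegularWreathProduct.ext (funext hcon) (r₁ x x.2))))
      obtain ⟨y, hy⟩ := h2
      refine ⟨μ.ker, inferInstance, (evAt ω Q₁ r₁ y).codRestrict μ.ker fun z => ?_, hV,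
        fun h => hy (congrArg Subtype.val h)⟩
      have h3 : (s y)⁻¹ * g z * s y ∈ P₁ := by
        simpa using (h₁.normal X P₁ hP₁).conj_mem _ (m₁ z z.2) (s y)⁻¹
      have h4 := hev z y ⟨_, l₁ h3⟩ (l₁ (m₁ z z.2)) rfl
      have h5 := hl2 ⟨_, l₁ h3⟩ h3
      rw [← h4] at h5
      exact h5
    · exact ⟨φ.ker, inferInstance, (g.comp Q₁.subtype).codRestrict φ.ker fun z => l₁ (m₁ z z.2),
        Ep_sub hA₁ hc₁ _ hE, fun h => h1 (congrArg Subtype.val h)⟩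
  refine hA₂.surj (hm G' Q₁ Q₂ hQ₁ hQ₂ hA) (evAt ω Q₂ r₂ 1) ?_
  rw [← MonoidHom.range_eq_top]
  refine gen_of_Ep hU _ fun u => ?_
  obtain ⟨n, hn, hnu⟩ := hl1 (f u)
  have hn' : n.1 ∈ Q₂.map g := e₂ ▸ hn
  obtain ⟨z, hz, hzn⟩ := hn'
  refine ⟨_, ⟨⟨z, hz⟩, rfl⟩, ?_⟩
  rw [← QuotientGroup.eq]
  have := hev z 1 n (l₂ (m₂ z hz)) (by rw [hs1, hzn]; simp)
  exact this.trans hnu

theorem sum_zero_of_shift {p : ℕ} [Fact p.Prime] {Z : Type} [Group Z] [Fintype Z] (hZ : Ep p Z)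
    (w : Z → Cp p) {ζ : Z} (hζ : ζ ≠ 1) (hw : ∀ y, w (ζ * y) = w y) : ∏ y, w y = 1 := by
  obtain ⟨χ, h1, -⟩ := exists_char hZ.2.1 hZ.2.2 hζ
  let h : Z → ZMod p := fun y => Multiplicative.toAdd (χ y)
  let v : Z → ZMod p := fun y => Multiplicative.toAdd (w y)
  have e1 : ∑ y, h (ζ * y) * v (ζ * y) = ∑ y, h y * v y :=
    Equiv.sum_comp (Equiv.mulLeft ζ) fun y => h y * v y
  have e2 : ∀ y, h (ζ * y) * v (ζ * y) = h ζ * v y + h y * v y := by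
    intro y
    simp only [h, v, map_mul, toAdd_mul, hw]
    ring
  simp only [e2, Finset.sum_add_distrib, ← Finset.mul_sum, add_eq_right, mul_eq_zero] at e1
  have e3 : ∑ y, v y = 0 := e1.resolve_left h1
  apply Multiplicative.toAdd.injective
  rw [toAdd_prod]
  exact e3

theorem big {p : ℕ} [Fact p.Prime] {Φ₁ Φ₂ : FamT} (h₁ : IsFam Φ₁) (h₂ : IsFam Φ₂)
    {X Y : Type} [Group X] [Finite X] [Group Y] (φ : X →* Y) (hφ : Surjective φ)
    (hE : Ep p φ.ker) {P₁ P₂ : Subgroup X} (hP₁ : Φ₁ X P₁) (hP₂ : Φ₂ X P₂) (l₁ : P₁ ≤ φ.ker)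
    (l₂ : P₂ ≤ φ.ker) (hne : ¬ P₂ ≤ P₁) :
    ∃ n, Cfg p Φ₁ Φ₂ n ∧ Nat.card φ.ker ≤ Nat.card P₁ * Nat.card P₂ * n := by
  classical
  haveI := h₁.normal X P₁ hP₁
  haveI := h₂.normal X P₂ hP₂
  let N := P₁ ⊔ P₂
  have hN : N ≤ φ.ker := sup_le l₁ l₂
  let q := QuotientGroup.mk' N
  have hq : Surjective q := QuotientGroup.mk'_surjective N
  let π : X ⧸ N →* Y := QuotientGroup.lift N φ hN
  have hπq : ∀ x, π (q x) = φ x := fun x => rfl
  have hπ : Surjective π := fun y => by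
    obtain ⟨x, rfl⟩ := hφ y
    exact ⟨q x, rfl⟩
  letI : Fintype (X ⧸ N) := Fintype.ofFinite _
  obtain ⟨x₀, hx₂, hx₁⟩ := SetLike.not_le_iff_exists.1 hne
  -- a character of `ker φ` that kills `P₁` but not `x₀`
  obtain ⟨l₀, hl₁, hl₂⟩ : ∃ l₀ : φ.ker →* Cp p, (∀ x : φ.ker, x.1 ∈ P₁ → l₀ x = 1) ∧
      l₀ ⟨x₀, l₂ hx₂⟩ ≠ 1 := by
    have hq' := (Ep_formation p).quotient _ (P₁.subgroupOf φ.ker) hE
    obtain ⟨χ, h1, -⟩ := exists_char hq'.2.1 hq'.2.2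
      (n := QuotientGroup.mk' (P₁.subgroupOf φ.ker) ⟨x₀, l₂ hx₂⟩)
      (fun h => hx₁ ((QuotientGroup.eq_one_iff (N := P₁.subgroupOf φ.ker)
        (⟨x₀, l₂ hx₂⟩ : φ.ker)).1 h))
    refine ⟨χ.comp (QuotientGroup.mk' _), fun x hx => ?_, h1⟩
    have : QuotientGroup.mk' (P₁.subgroupOf φ.ker) x = 1 := (QuotientGroup.eq_one_iff _).2 hx
    rw [MonoidHom.comp_apply, this, map_one]
  obtain ⟨s, hs, hs1⟩ := exists_section φ hφ
  let K : Subgroup ((Cp p ≀ᵣ (X ⧸ N)) × X) :=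
    (rightHom.comp (MonoidHom.fst _ _)).eqLocus (q.comp (MonoidHom.snd _ _)) ⊓
    ((push p π).comp (MonoidHom.fst _ _)).eqLocus
      (((wrMap l₀ Y).comp (kk φ s hs)).comp (MonoidHom.snd _ _))
  have hK1 : ∀ t : K, t.1.1.right = q t.1.2 := fun t => t.2.1
  have hK2 : ∀ t : K, push p π t.1.1 = wrMap l₀ Y (kk φ s hs t.1.2) := fun t => t.2.2
  let f : K →* X := (MonoidHom.snd _ _).comp K.subtype
  have hf : Surjective f := fun x => by
    obtain ⟨w, h1, h2⟩ := push_surj p π hπ (wrMap l₀ Y (kk φ s hs x)) (q x) rfl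
    exact ⟨⟨(w, x), h1, h2⟩, rfl⟩
  obtain ⟨Q₁, hQ₁, e₁⟩ := h₁.lift X K f P₁ hf hP₁
  obtain ⟨Q₂, hQ₂, e₂⟩ := h₂.lift X K f P₂ hf hP₂
  have hk : ∀ t : (q.comp f).ker, t.1.1.1.right = 1 ∧ t.1.1.2 ∈ φ.ker := fun t =>
    ⟨(hK1 t.1).trans t.2, hN ((QuotientGroup.eq_one_iff _).1 t.2)⟩
  have hEK : Ep p (q.comp f).ker := by
    refine ⟨inferInstance, fun a b => ?_, fun a => ?_⟩
    · refine Subtype.ext (Subtype.ext (Prod.ext ?_ ?_))
      · refine RegularWreathProduct.ext (funext fun y => ?_) ?_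
        · simp [(hk a).1, (hk b).1, mul_comm]
        · simp [(hk a).1, (hk b).1]
      · exact congrArg Subtype.val (hE.2.1 ⟨_, (hk a).2⟩ ⟨_, (hk b).2⟩)
    · refine Subtype.ext (Subtype.ext (Prod.ext ?_ ?_))
      · obtain ⟨i1, i2⟩ := base_pow _ (hk a).1 p
        refine RegularWreathProduct.ext (funext fun y => ?_) i1
        exact (i2 y).trans ((Ep_Cp p).2.2 _)
      · exact congrArg Subtype.val (hE.2.2 ⟨_, (hk a).2⟩)
  have hZ : Ep p π.ker := by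
    refine (Ep_formation p).surj hE ((q.comp φ.ker.subtype).codRestrict π.ker fun x => x.2) ?_
    rintro ⟨z, hz⟩
    obtain ⟨x, rfl⟩ := hq z
    exact ⟨⟨x, hz⟩, rfl⟩
  refine ⟨Nat.card π.ker, ⟨K, inferInstance, inferInstance, X ⧸ N, inferInstance, q.comp f, Q₁, Q₂,
    hq.comp hf, hEK, hQ₁, hQ₂, fun t ht => ?_, fun t ht => ?_, fun h => hne ?_, ?_⟩, ?_⟩
  · have : f t ∈ P₁ := e₁.le ⟨t, ht, rfl⟩
    exact (QuotientGroup.eq_one_iff _).2 (Subgroup.mem_sup_left this)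
  · have : f t ∈ P₂ := e₂.le ⟨t, ht, rfl⟩
    exact (QuotientGroup.eq_one_iff _).2 (Subgroup.mem_sup_right this)
  · exact e₂.ge.trans ((Subgroup.map_mono h).trans e₁.le)
  · obtain ⟨t, ht, htx⟩ : x₀ ∈ Q₂.map f := e₂.ge hx₂
    have htx' : t.1.2 = x₀ := htx
    have ht1 : t.1.1.right = 1 := by
      rw [hK1, htx']
      exact (QuotientGroup.eq_one_iff _).2 (Subgroup.mem_sup_right hx₂)
    have hsum : ∏ z : π.ker, t.1.1.left z ≠ 1 := by
      have h1 := congrFun (congrArg RegularWreathProduct.left (hK2 t)) 1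
      have h2 : (push p π t.1.1).left 1 = ∏ z : π.ker, t.1.1.left z := by
        change ∏ y' ∈ Finset.univ.filter (fun y' => π y' = 1), t.1.1.left y' = _
        exact Finset.prod_subtype _ (fun x => by simp [MonoidHom.mem_ker]) _
      rw [← h2, h1]
      have h3 : (kk φ s hs t.1.2).left 1 = ⟨x₀, l₂ hx₂⟩ := by
        apply Subtype.ext
        change (s 1)⁻¹ * t.1.2 * s ((φ t.1.2)⁻¹ * 1) = x₀
        rw [htx', l₂ hx₂]
        simp [hs1]
      change l₀ ((kk φ s hs t.1.2).left 1) ≠ 1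
      rwa [h3]
    choose k hkz using hq.comp hf
    have hkr : ∀ z, (k z).1.1.right = z := fun z => (hK1 _).trans (hkz z)
    have hconj : ∀ z y, (k z * t * (k z)⁻¹).1.1.left y = t.1.1.left (z⁻¹ * y) := by
      intro z y
      simp [hkr, ht1, mul_comm]
    refine Nat.card_le_card_of_injective
      (fun z : π.ker => (⟨k z * t * (k z)⁻¹, (h₂.normal K Q₂ hQ₂).conj_mem t ht _⟩ : Q₂)) ?_
    intro z z' hzz
    by_contra hcon
    have h1 : k z * t * (k z)⁻¹ = k z' * t * (k z')⁻¹ := congrArg Subtype.val hzz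
    refine hsum (sum_zero_of_shift hZ (fun y => t.1.1.left y) (ζ := z⁻¹ * z')
      (fun h => hcon (inv_mul_eq_one.1 h)) fun y => ?_)
    have h2 := hconj z (z' * y)
    rw [h1, hconj] at h2
    simpa [mul_assoc] using h2.symm
  · let ρ : φ.ker →* π.ker := (q.comp φ.ker.subtype).codRestrict π.ker fun x => x.2
    have h1 := Subgroup.card_mul_index ρ.ker
    have h2 : ρ.ker.index ≤ Nat.card π.ker := by
      rw [Subgroup.index_ker]
      exact Subgroup.card_le_card_group _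
    have h3 : Nat.card ρ.ker ≤ Nat.card N := by
      refine Nat.card_le_card_of_injective (fun x => (⟨x.1.1, (QuotientGroup.eq_one_iff _).1
        (congrArg Subtype.val x.2)⟩ : N)) fun a b hab => ?_
      exact Subtype.ext (Subtype.ext (congrArg (fun x : N => x.1) hab))
    have h4 : Nat.card N ≤ Nat.card P₁ * Nat.card P₂ := by
      rw [← Nat.card_prod]
      refine Nat.card_le_card_of_surjective
        (fun x : P₁ × P₂ => (⟨x.1 * x.2, Subgroup.mul_mem_sup x.1.2 x.2.2⟩ : N)) ?_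
      rintro ⟨x, hx⟩
      obtain ⟨a, ha, b, hb, rfl⟩ := (Subgroup.mem_sup_of_normal_right).1 hx
      exact ⟨(⟨a, ha⟩, ⟨b, hb⟩), rfl⟩
    rw [← h1]
    exact Nat.mul_le_mul (h3.trans h4) h2

theorem Cfg.mono {p : ℕ} {Φ₁ Φ₂ : FamT} {n m : ℕ} (h : Cfg p Φ₁ Φ₂ n) (hm : m ≤ n) :
    Cfg p Φ₁ Φ₂ m := by
  obtain ⟨X, _, _, Y, _, φ, P₁, P₂, h1, h2, h3, h4, h5, h6, h7, h8⟩ := h
  exact ⟨X, _, inferInstance, Y, _, φ, P₁, P₂, h1, h2, h3, h4, h5, h6, h7, hm.trans h8⟩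

theorem two {p : ℕ} [Fact p.Prime] {Φ₁ Φ₂ : FamT} (h₁ : IsFam Φ₁) (h₂ : IsFam Φ₂)
    {X Y : Type} [Group X] [Finite X] [Group Y] (φ : X →* Y) (hφ : Surjective φ)
    (hE : Ep p φ.ker) {P₁ P₂ : Subgroup X} (hP₁ : Φ₁ X P₁) (hP₂ : Φ₂ X P₂) (l₁ : P₁ ≤ φ.ker)
    (l₂ : P₂ ≤ φ.ker) (hne : ¬ P₂ ≤ P₁) (n : ℕ) (hn : n * n * n ≤ Nat.card φ.ker) :
    Cfg p Φ₁ Φ₂ n ∨ (n ≤ Nat.card P₁ ∧ ¬ P₁ ≤ P₂) := by
  by_cases c₂ : n ≤ Nat.card P₂
  · exact Or.inl ⟨X, _, inferInstance, Y, _, φ, P₁, P₂, hφ, hE, hP₁, hP₂, l₁, l₂, hne, c₂⟩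
  by_cases c₁ : n ≤ Nat.card P₁
  · exact Or.inr ⟨c₁, fun h => c₂ (c₁.trans (Subgroup.card_le_of_le h))⟩
  obtain ⟨m, hm, hle⟩ := big h₁ h₂ φ hφ hE hP₁ hP₂ l₁ l₂ hne
  refine Or.inl (hm.mono ?_)
  by_contra hcon
  push Not at c₁ c₂ hcon
  have : Nat.card P₁ * Nat.card P₂ * m < n * n * n :=
    Nat.mul_lt_mul'' (Nat.mul_lt_mul'' c₁ c₂) hcon
  omega

theorem all_of_abs {p : ℕ} [Fact p.Prime] {A C : GroupClass} (hA : IsFormation A)
    (hC : IsFormation C) (h1 : AbsP p A C) (h2 : AbsP p C A) (n : ℕ) :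
    ∀ (U : Type) [Group U] [Finite U], Nat.card U = n → IsPGroup p U → A U ∧ C U := by
  induction n using Nat.strong_induction_on with
  | _ n ih =>
    intro U _ _ hn hU
    rcases subsingleton_or_nontrivial U with h | h
    · exact ⟨hA.trivial_mem h, hC.trivial_mem h⟩
    obtain ⟨S, _, _, φ, hS, hφ, -⟩ := exists_simple_quot (⊥ : Subgroup U) bot_ne_top
    obtain ⟨e⟩ := simple_pgroup_equiv hS (hU.of_surjective φ hφ)
    let μ := e.toMonoidHom.comp φ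
    have hμ : Surjective μ := e.surjective.comp hφ
    have hk : μ.ker ≠ ⊤ := by
      intro ht
      obtain ⟨t, ht1⟩ := exists_ne (1 : Cp p)
      obtain ⟨x, rfl⟩ := hμ t
      have : x ∈ μ.ker := ht ▸ Subgroup.mem_top x
      exact ht1 this
    have hlt : Nat.card μ.ker < n := hn ▸
      lt_of_le_of_ne (Subgroup.card_le_card_group _) fun h' => hk (Subgroup.eq_top_of_card_eq _ h')
    obtain ⟨i1, i2⟩ := ih _ hlt μ.ker rfl (hU.to_subgroup _)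
    exact ⟨h2 U μ hU hμ i2, h1 U μ hU hμ i1⟩

end Pool.Agent.H601Z.Form
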