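import Mathlib
import Pool.Agent.Helper75.UF.P_pow_mem
import Pool.Agent.Helper75.UF.P_fam_mem
import Pool.Agent.Helper75.UF.P_fam_map
import Pool.Agent.Helper75.UF.P_fam_normal
import Pool.Agent.Helper75.UF.P_qc_prod
import Pool.Agent.Helper75.UF.P_qc_formation
import Pool.Agent.H601Z.FormE

set_option autoImplicit false
set_option linter.style.haveILetI false

namespace Pool.Agent.H601Z.Form

open Pool.Agent.Helper75.UF RegularWreathProduct Function

/-- There are enough top groups in `B` whose wreath products with simple groups leave `B`. -/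
def Rich (B : GroupClass) : Prop :=
  ∀ (X : Type) [Group X] [Finite X], ∃ (Y₁ : Type) (_ : Group Y₁), B Y₁ ∧
    ∀ (S : Type) [Group S] (ψ : X →* S), IsSimpleGroup S → Surjective ψ →
      ∀ (Y' : Type) [Group Y'] [Finite Y'] (π : Y' →* Y₁), Surjective π → ¬ B (S ≀ᵣ Y')

theorem rich_of {B : GroupClass} (hB : IsFormation B)
    (h : ∀ (S : Type) [Group S] [Finite S], IsSimpleGroup S → ∃ (Y₁ : Type) (_ : Group Y₁), B Y₁ ∧
      ∀ (Y' : Type) [Group Y'] [Finite Y'] (π : Y' →* Y₁), Surjective π → ¬ B (S ≀ᵣ Y')) :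
    Rich B := by
  intro X _ _
  have h1 : ∀ M : Subgroup X, ∃ (Y₁ : Type) (_ : Group Y₁), B Y₁ ∧ ∀ _ : M.Normal,
      IsSimpleGroup (X ⧸ M) → ∀ (Y' : Type) [Group Y'] [Finite Y'] (π : Y' →* Y₁),
        Surjective π → ¬ B ((X ⧸ M) ≀ᵣ Y') := by
    intro M
    by_cases hM : ∃ _ : M.Normal, IsSimpleGroup (X ⧸ M)
    · obtain ⟨_, hS⟩ := hM
      obtain ⟨Y₁, _, h1, h2⟩ := h (X ⧸ M) hS
      exact ⟨Y₁, inferInstance, h1, fun _ _ => h2⟩
    · exact ⟨Unit, inferInstance, hB.trivial_mem inferInstance, fun a b => absurd ⟨a, b⟩ hM⟩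
  choose Yf inst hY hY' using h1
  haveI : ∀ M, Finite (Yf M) := fun M => hB.finite _ (hY M)
  refine ⟨∀ M, Yf M, inferInstance, mem_of_residually hB fun y hy => ?_, ?_⟩
  · obtain ⟨M, hM⟩ := Function.ne_iff.1 hy
    exact ⟨Yf M, inferInstance, Pi.evalMonoidHom Yf M, Function.surjective_eval M, hY M, hM⟩
  · intro S _ ψ hS hψ Y' _ _ π hπ hW
    let e := QuotientGroup.quotientKerEquivOfSurjective ψ hψ
    exact hY' ψ.ker inferInstance e.isSimpleGroup Y' ((Pi.evalMonoidHom Yf ψ.ker).comp π)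
      ((Function.surjective_eval _).comp hπ)
      (hB.surj hW _ (wrMap_surj e.symm.toMonoidHom e.symm.surjective))

theorem rich_of_bounded {B : GroupClass} (hB : IsFormation B) {e : ℕ} (he : 0 < e)
    (hM : Sub B (Product Nil (Exp e)))
    (hna : ∀ p : ℕ, p.Prime → ¬ Sub (Product (Ep p) B) B) : Rich B := by
  refine rich_of hB fun S _ _ hS => ?_
  by_cases hp : ∃ p : ℕ, p.Prime ∧ IsPGroup p S
  · obtain ⟨p, hp, hpS⟩ := hp
    haveI := Fact.mk hp
    have hU : B Unit := hB.trivial_mem inferInstance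
    have : ¬ ∀ (Y : Type) [Group Y], B Y → B (Cp p ≀ᵣ (Y × Unit)) :=
      fun h => hna p hp (closed_of_wr hB hU h)
    push Not at this
    obtain ⟨Y, _, hY, hW⟩ := this
    exact ⟨Y × Unit, inferInstance, times_mem hB hY hU, fun Y' _ _ π hπ h =>
      hW (wr_push hB π hπ (wr_Cp_of_simple hB hS hpS h))⟩
  by_contra hcon
  push Not at hcon
  have h1 : ∀ n : ℕ, ∃ (Y₁ : Type) (_ : Group Y₁), B Y₁ ∧ n < Monoid.exponent Y₁ := by
    intro n
    induction n with
    | zero => exact ⟨Unit, inferInstance, hB.trivial_mem inferInstance,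
        Nat.pos_of_ne_zero Monoid.exponent_ne_zero_of_finite⟩
    | succ n ih =>
      obtain ⟨Y₁, _, hY₁, hn⟩ := ih
      obtain ⟨Y', _, _, π, hπ, hW⟩ := hcon Y₁ _ hY₁
      refine ⟨_, _, hW, ?_⟩
      have h2 := exponent_lt (X := S) (Y := Y')
      have h3 := Nat.le_of_dvd (Nat.pos_of_ne_zero Monoid.exponent_ne_zero_of_finite)
        (MonoidHom.exponent_dvd (f := π) hπ)
      omega
  obtain ⟨Y₁, _, hY₁, hn⟩ := h1 e
  obtain ⟨Y', _, _, π, hπ, hW⟩ := hcon Y₁ _ hY₁
  have h2 : ¬ Exp e Y' := fun h => by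
    have := Nat.le_of_dvd he
      (Monoid.exponent_dvd_of_forall_pow_eq_one ((Exp_formation e).surj h π hπ).2)
    omega
  obtain ⟨q, hq, hqS, -⟩ := wr_key (Exp_formation e) h2 (hM _ hW)
  exact hp ⟨q, hq, hqS⟩

theorem lift_res' {B : GroupClass} (hB : IsFormation B) (hR : Rich B) {G X X' : Type} [Group G]
    [Finite G] [Group X] [Group X'] [Finite X'] (χ : residual B G →* X) (hχ : Surjective χ)
    (f : X' →* X) (hf : Surjective f) :
    ∃ (G' : Type) (_ : Group G') (_ : Finite G') (g : G' →* G) (χ' : residual B G' →* X'),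
      Surjective g ∧ Surjective χ' ∧
      (∀ x : residual B G', ∃ hx : g x ∈ residual B G, f (χ' x) = χ ⟨g x, hx⟩) ∧
      (∀ u : residual B G', u ≠ 1 →
        (∃ ev : residual B G' →* X', Surjective ev ∧ ev u ≠ 1) ∨ g u ≠ 1) ∧
      (∀ (p : ℕ) (K : Subgroup G'), K.Normal → IsPGroup p K → IsPGroup p f.ker ∨
        ∀ k ∈ K, ∃ hk : g k ∈ residual B G, ∃ K' : Subgroup X', K'.Normal ∧ IsPGroup p K' ∧
          ∃ a ∈ K', f a = χ ⟨g k, hk⟩) := by
  classical
  obtain ⟨Y₁, _, hY₁, hrich⟩ := hR X'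
  haveI := hB.finite Y₁ hY₁
  let φ := (QuotientGroup.mk' (residual B G)).prodMap (MonoidHom.id Y₁)
  have hφ : Surjective φ := (QuotientGroup.mk'_surjective _).prodMap surjective_id
  have hk : ∀ a : G × Y₁, φ a = 1 → a.1 ∈ residual B G ∧ a.2 = 1 := fun a ha =>
    ⟨(QuotientGroup.eq_one_iff _).1 (congrArg Prod.fst ha), congrArg Prod.snd ha⟩
  let χ₁ : φ.ker →* X := χ.comp (((MonoidHom.fst _ _).comp φ.ker.subtype).codRestrict _
    fun a => (hk a a.2).1)
  obtain ⟨G', _, _, g₁, ω, s, hs1, hg₁, hω, hev, hbase, hinj⟩ := pullback φ hφ χ₁ f hf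
  have hY : B ((G ⧸ residual B G) × Y₁) := times_mem hB (quot_residual hB G) hY₁
  let g : G' →* G := (MonoidHom.fst _ _).comp g₁
  have hg : Surjective g := Prod.fst_surjective.comp hg₁
  have hle : ∀ x ∈ residual B G', φ (g₁ x) = 1 := fun x hx =>
    (residual_le_ker hB (φ.comp g₁) (hφ.comp hg₁)).2 hY hx
  have hr : ∀ x ∈ residual B G', (ω x).right = 1 := fun x hx => (hω x).trans (hle x hx)
  have hev1 : ∀ x (hx : φ (g₁ x) = 1), f ((ω x).left 1) = χ ⟨g x, (hk _ hx).1⟩ := fun x hx =>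
    hev x 1 ⟨g₁ x, hx⟩ hx (by simp [hs1])
  have hright : ∀ y, ∃ x, (ω x).right = y := fun y => by
    obtain ⟨x, hx⟩ := hφ.comp hg₁ y
    exact ⟨x, (hω x).trans hx⟩
  have hRn : (residual B G').Normal := inferInstance
  let ev := evAt ω (residual B G') hr
  have hlift : ∀ a : X', ∃ u : residual B G', f (ev 1 u) = f a := by
    intro a
    obtain ⟨⟨n, hn⟩, hna⟩ := hχ (f a)
    have hn' := hn
    rw [← map_residual hB g hg] at hn'
    obtain ⟨u, hu, rfl⟩ := hn'
    exact ⟨⟨u, hu⟩, (hev1 u (hle u hu)).trans hna⟩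
  have hbig : ∀ a : X', ∃ x, (ω x).right = 1 ∧ (ω x).left 1 = a := by
    intro a
    obtain ⟨u, hu⟩ := hlift a
    obtain ⟨x, -, hx⟩ := hbase (fun _ => a * (ev 1 u)⁻¹) (fun _ => by simp [hu])
    refine ⟨x * u, by simp [hx, hr u u.2], ?_⟩
    simp [hx, ev, evAt]
  haveI hn : (ev 1).range.Normal := by
    refine ⟨?_⟩
    rintro _ ⟨u, rfl⟩ a
    obtain ⟨x, h1, h2⟩ := hbig a
    refine ⟨⟨_, hRn.conj_mem u u.2 x⟩, ?_⟩
    simp [ev, evAt, h1, h2, hr u u.2]
  have hmove : ∀ y z (u : residual B G'), ∃ (v : residual B G') (c : X'),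
      (∀ u' : residual B G', ∃ v' : residual B G', ev y v' = c * ev z u' * c⁻¹) ∧
      ev y v = c * ev z u * c⁻¹ := by
    intro y z u
    obtain ⟨x, hx⟩ := hright (y * z⁻¹)
    have : ∀ u' : residual B G', ev y ⟨_, hRn.conj_mem u' u'.2 x⟩ =
        (ω x).left y * ev z u' * ((ω x).left y)⁻¹ := fun u' => by
      simp [ev, evAt, hx, hr u' u'.2]
    exact ⟨_, _, fun u' => ⟨_, this u'⟩, this u⟩
  have htop : (ev 1).range = ⊤ := by
    by_contra ht
    obtain ⟨S, _, _, ψ, hS, hψ, hkψ⟩ := exists_simple_quot _ ht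
    have hsurj : Surjective ((wrMap ψ _).comp ω) := by
      intro v
      obtain ⟨x₀, hx₀⟩ := hright v.right
      have h1 : ∀ t : S, ∃ b, f b = 1 ∧ ψ b = t := by
        intro t
        obtain ⟨a, rfl⟩ := hψ t
        obtain ⟨u, hu⟩ := hlift a
        have : ψ (ev 1 u) = 1 := hkψ ⟨u, rfl⟩
        exact ⟨a * (ev 1 u)⁻¹, by simp [hu], by simp [this]⟩
      choose b hb1 hb2 using h1
      obtain ⟨x, -, hx⟩ := hbase (fun y => b (v.left y * (ψ ((ω x₀).left y))⁻¹)) (fun _ => hb1 _)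
      refine ⟨x * x₀, ?_⟩
      ext y
      · simp [hx, wrMap, hb2]
      · simp [hx, wrMap, hx₀]
      · simp [hx, wrMap, hx₀]
    refine hrich S ψ hS hψ _ (MonoidHom.snd _ _) Prod.snd_surjective
      ((residual_le_ker hB _ hsurj).1 fun u hu => ?_)
    rw [MonoidHom.mem_ker]
    refine RegularWreathProduct.ext (funext fun y => ?_) (hr u hu)
    obtain ⟨v, c, -, hv⟩ := hmove 1 y ⟨u, hu⟩
    have h2 : ψ (ev 1 v) = 1 := hkψ ⟨v, rfl⟩
    rw [hv, map_mul, map_mul, map_inv, mul_inv_eq_one, mul_eq_left] at h2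
    exact h2
  have hs : Surjective (ev 1) := MonoidHom.range_eq_top.1 htop
  refine ⟨G', inferInstance, inferInstance, g, ev 1, hg, hs,
    fun x => ⟨(hk _ (hle x x.2)).1, hev1 x (hle x x.2)⟩, fun u hu => ?_, fun p K hK hpK => ?_⟩
  · by_cases h1 : g u = 1
    · left
      have h2 : ∃ y, (ω u).left y ≠ 1 := by
        by_contra hcon
        push Not at hcon
        exact hu (Subtype.ext (hinj u (Prod.ext h1 (hk _ (hle u u.2)).2)
          (RegularWreathProduct.ext (funext hcon) (hr u u.2))))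
      obtain ⟨y, hy⟩ := h2
      refine ⟨ev y, fun a => ?_, hy⟩
      obtain ⟨-, c, hc, -⟩ := hmove y 1 1
      obtain ⟨u', hu'⟩ := hs (c⁻¹ * a * c)
      obtain ⟨v', hv'⟩ := hc u'
      exact ⟨v', by rw [hv', hu']; group⟩
    · exact Or.inr h1
  · by_cases h1 : ∀ k ∈ K, (ω k).right = 1
    · right
      intro k hk'
      have h2 : φ (g₁ k) = 1 := (hω k).symm.trans (h1 k hk')
      refine ⟨(hk _ h2).1, (evAt ω K h1 1).range, ⟨?_⟩,
        hpK.of_surjective _ (MonoidHom.rangeRestrict_surjective _), _, ⟨⟨k, hk'⟩, rfl⟩, hev1 k h2⟩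
      rintro _ ⟨u, rfl⟩ a
      obtain ⟨x, h3, h4⟩ := hbig a
      refine ⟨⟨_, hK.conj_mem u u.2 x⟩, ?_⟩
      simp [evAt, h3, h4, h1 u u.2]
    · left
      push Not at h1
      obtain ⟨k, hk', h1⟩ := h1
      intro a
      obtain ⟨x, -, hx⟩ := hbase (fun y => if y = 1 then a.1 else 1) (fun y => by
        by_cases hy : y = 1
        · rw [if_pos hy]; exact a.2
        · simp [hy])
      have hu : x * k * x⁻¹ * k⁻¹ ∈ K := K.mul_mem (hK.conj_mem k hk' x) (K.inv_mem hk')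
      obtain ⟨j, hj⟩ := hpK ⟨_, hu⟩
      have h2 : ω (x * k * x⁻¹ * k⁻¹) ^ p ^ j = 1 := by
        rw [← map_pow]
        have : (x * k * x⁻¹ * k⁻¹) ^ p ^ j = 1 := congrArg Subtype.val hj
        rw [this, map_one]
      have h3 : (ω (x * k * x⁻¹ * k⁻¹)).right = 1 := by simp [hx]
      have h4 : (ω (x * k * x⁻¹ * k⁻¹)).left 1 = a.1 := by simp [hx, h1]
      refine ⟨j, Subtype.ext ?_⟩
      change a.1 ^ p ^ j = 1
      rw [← h4, ← (base_pow _ h3 _).2, h2]
      rfl

theorem fam_isFam {F H : GroupClass} (hF : IsFormation F) (hH : IsFormation H) (hR : Rich H)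
    (hHF : Sub H F) : IsFam (fun _ _ P => Fam F H P) where
  normal := fun _ _ _ h => fam_normal h
  map := fun _ _ _ _ _ f _ hf h => fam_map h f hf
  lift := by
    intro P P' _ _ _ f P₁ hf h
    obtain ⟨G, iG, fG, χ, hχ, hP⟩ := h
    obtain ⟨G', iG', fG', g, χ', hg, hχ', hc, -⟩ := lift_res' hH hR χ hχ f hf
    refine ⟨((residual F G').subgroupOf (residual H G')).map χ', ⟨G', iG', fG', χ', hχ', rfl⟩, ?_⟩
    have hle : residual F G' ≤ residual H G' := residual_anti hH hHF G'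
    have hmap : (residual F G').map g = residual F G := map_residual hF g hg
    rw [hP]
    ext y
    constructor
    · rintro ⟨p, ⟨x, hx, rfl⟩, rfl⟩
      obtain ⟨hgx, he⟩ := hc x
      exact ⟨⟨g x, hgx⟩, hmap.le ⟨x, hx, rfl⟩, he.symm⟩
    · rintro ⟨z, hz, rfl⟩
      obtain ⟨w, hw, hwz⟩ := hmap.ge hz
      obtain ⟨hgx, he⟩ := hc ⟨w, hle hw⟩
      refine ⟨χ' ⟨w, hle hw⟩, ⟨⟨w, hle hw⟩, hw, rfl⟩, ?_⟩
      rw [he]
      congr 1
      exact Subtype.ext hwz

theorem res_isFam {F : GroupClass} (hF : IsFormation F) :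
    IsFam (fun X _ P => P = residual F X) where
  normal := fun _ _ _ h => h ▸ inferInstance
  map := fun _ _ _ _ _ f _ hf h => h ▸ map_residual hF f hf
  lift := fun _ _ _ _ _ f _ hf h => ⟨_, rfl, h ▸ map_residual hF f hf⟩

theorem residual_char {F : GroupClass} (hF : IsFormation F) (G : Type) [Group G] [Finite G] :
    (residual F G).Characteristic :=
  Subgroup.characteristic_iff_map_eq.2 fun e => map_residual hF e.toMonoidHom e.surjective

theorem reduce {p : ℕ} [Fact p.Prime] {Φ₁ Φ₂ : FamT} (h₁ : IsFam Φ₁) (h₂ : IsFam Φ₂) {X : Type}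
    [Group X] [Finite X] {P : Subgroup X} (hP₁ : Φ₁ X ⊥) (hP₂ : Φ₂ X P) (hne : P ≠ ⊥)
    (hp : IsPGroup p P) : ∃ (X' : Type) (_ : Group X') (_ : Finite X') (P' : Subgroup X'),
      Φ₁ X' ⊥ ∧ Φ₂ X' P' ∧ P' ≠ ⊥ ∧ Ep p P' := by
  haveI := h₂.normal X P hP₂
  haveI := residual_char (Ep_formation p) P
  let T := (residual (Ep p) P).map P.subtype
  let q := QuotientGroup.mk' T
  have hq : Surjective q := QuotientGroup.mk'_surjective T
  refine ⟨X ⧸ T, inferInstance, inferInstance, P.map q, ?_, h₂.map _ _ q P hq hP₂, fun h => ?_, ?_⟩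
  · have := h₁.map _ _ q ⊥ hq hP₁
    rwa [Subgroup.map_bot] at this
  · rw [← le_iff_map_mk] at h
    refine hne ?_
    have h1 := gen_of_Ep hp ⊥ fun u => by
      obtain ⟨z, hz, hzu⟩ := h u.2
      have : z = u := Subtype.ext hzu
      exact ⟨1, Subgroup.one_mem _, by simpa [← this] using hz⟩
    rw [eq_bot_iff]
    intro x hx
    have : (⟨x, hx⟩ : P) ∈ (⊥ : Subgroup P) := h1 ▸ Subgroup.mem_top _
    exact congrArg Subtype.val (Subgroup.mem_bot.1 this)
  · refine (residual_le_ker (Ep_formation p) (q.subgroupMap P)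
      (MonoidHom.subgroupMap_surjective q P)).1 fun x hx => ?_
    exact Subtype.ext ((QuotientGroup.eq_one_iff _).2 ⟨x, hx, rfl⟩)

theorem Ep_Np (p : ℕ) : Sub (Ep p) (Np p) :=
  fun _ _ h => ⟨h.1, fun g => ⟨1, by rw [pow_one]; exact h.2.2 g⟩⟩

theorem fam_le {p : ℕ} [hpp : Fact p.Prime] {A C D B : GroupClass} (hA : IsFormation A)
    (hp : Sub A (Np p)) (hc : A (Cp p)) (hna : ¬ AbsP p A A) (hC : IsFormation C)
    (hD : IsFormation D) (hB : IsFormation B) (hR : Rich B) (hBD : Sub B D)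
    (h : Product A D = Product C B) {X : Type} [Group X] [Finite X] {P₁ P₂ : Subgroup X}
    (h₁ : Fam D B P₁) (h₂ : Fam D B P₂) : P₂ ≤ P₁ := by
  by_contra hcon
  have hΦ := fam_isFam hD hB hR hBD
  have hm : ∀ (X : Type) [Group X] [Finite X] (P₁ P₂ : Subgroup X),
      Fam D B P₁ → Fam D B P₂ → A P₁ → A P₂ := fun X _ _ P₁ P₂ h₁ h₂ h₃ =>
    (fam_mem hA hC hD hB hBD h h₂).2 ((fam_mem hA hC hD hB hBD h h₁).1 h₃)
  haveI := fam_normal h₁
  have hq : Surjective (QuotientGroup.mk' P₁) := QuotientGroup.mk'_surjective P₁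
  have k₁ := fam_map h₁ _ hq
  rw [(le_iff_map_mk _ _).1 le_rfl] at k₁
  have k₂ := fam_map h₂ _ hq
  obtain ⟨X', _, _, P, m₁, m₂, hne, hE⟩ := reduce (p := p) hΦ hΦ k₁ k₂
    (fun h' => hcon ((le_iff_map_mk _ _).2 h'))
    (hp _ (hm _ _ _ k₁ k₂ (hA.trivial_mem inferInstance))).2
  apply hna
  intro U _ _ μ hU hμ hV
  refine key hA hp hc hA hΦ hΦ hm μ hU hμ hV ?_
  generalize Nat.card U + 1 = n
  haveI := fam_normal m₂
  let φ := QuotientGroup.mk' P
  have hφ : Surjective φ := QuotientGroup.mk'_surjective P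
  obtain ⟨G', _, _, g, ω, s, -, hg, hω, -, hbase, hinj⟩ := pullback φ hφ (1 : φ.ker →* Unit)
    (1 : (Fin (n * n * n) → Cp p) →* Unit) (fun _ => ⟨1, rfl⟩)
  obtain ⟨Q₁, hQ₁, e₁⟩ := hΦ.lift X' G' g ⊥ hg m₁
  obtain ⟨Q₂, hQ₂, e₂⟩ := hΦ.lift X' G' g P hg m₂
  have hr : ∀ x ∈ (φ.comp g).ker, (ω x).right = 1 := fun x hx => (hω x).trans hx
  have hEK : Ep p (φ.comp g).ker := by
    refine mem_of_sep (Ep_formation p) (Ep_Np p) fun x hx => ?_
    by_cases h1 : g x = 1
    · have h2 : ∃ y, (ω x).left y ≠ 1 := by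
        by_contra hcon
        push Not at hcon
        exact hx (Subtype.ext (hinj x h1 (RegularWreathProduct.ext (funext hcon) (hr x x.2))))
      obtain ⟨y, hy⟩ := h2
      exact ⟨_, inferInstance, evAt ω _ hr y, pow_mem (Ep_formation p) (Ep_Cp p), hy⟩
    · exact ⟨P, inferInstance, (g.comp (Subgroup.subtype _)).codRestrict P
        fun z => (QuotientGroup.eq_one_iff _).1 z.2, hE, fun h => h1 (congrArg Subtype.val h)⟩
  have l₁ : Q₁ ≤ (φ.comp g).ker := fun x hx => by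
    have : g x = 1 := Subgroup.mem_bot.1 (e₁.le ⟨x, hx, rfl⟩)
    rw [MonoidHom.mem_ker, MonoidHom.comp_apply, this, map_one]
  have l₂ : Q₂ ≤ (φ.comp g).ker := fun x hx =>
    (QuotientGroup.eq_one_iff _).2 (e₂.le ⟨x, hx, rfl⟩)
  have hcard : n * n * n ≤ Nat.card (φ.comp g).ker := by
    choose x hx1 hx2 using fun b : Fin (n * n * n) → Cp p => hbase (fun _ => b) (fun _ => rfl)
    have h1 := Nat.card_le_card_of_injective (fun b => (⟨x b, by
      rw [MonoidHom.mem_ker, MonoidHom.comp_apply, hx1, map_one]⟩ : (φ.comp g).ker))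
      (fun b b' hb => by
        have h2 : x b = x b' := congrArg Subtype.val hb
        have h3 := hx2 b
        rw [h2, hx2] at h3
        exact (congrFun (congrArg RegularWreathProduct.left h3) 1).symm)
    rw [Nat.card_fun, card_Cp, Nat.card_eq_fintype_card, Fintype.card_fin] at h1
    exact (Nat.lt_pow_self hpp.out.one_lt).le.trans h1
  rcases two hΦ hΦ (φ.comp g) (hφ.comp hg) hEK hQ₁ hQ₂ l₁ l₂
    (fun h' => hne (le_bot_iff.1 (e₂.ge.trans ((Subgroup.map_mono h').trans e₁.le)))) n hcard with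
    h3 | ⟨h3, h4⟩
  · exact h3
  · exact ⟨G', _, inferInstance, _, _, φ.comp g, Q₂, Q₁, hφ.comp hg, hEK, hQ₂, hQ₁, l₂, l₁, h4, h3⟩

theorem verbal {p : ℕ} [Fact p.Prime] {A C D B : GroupClass} (hA : IsFormation A)
    (hp : Sub A (Np p)) (hc : A (Cp p)) (hna : ¬ AbsP p A A) (hC : IsFormation C)
    (hD : IsFormation D) (hB : IsFormation B) (hR : Rich B) (hBD : Sub B D)
    (h : Product A D = Product C B) : ∃ Q, IsFormation Q ∧ D = Product Q B := by
  have hu : ∀ (P : Type) [Group P] [Finite P] (P₁ P₂ : Subgroup P), Fam D B P₁ → Fam D B P₂ →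
      P₁ = P₂ := fun P _ _ P₁ P₂ h₁ h₂ => le_antisymm
    (fam_le hA hp hc hna hC hD hB hR hBD h h₂ h₁) (fam_le hA hp hc hna hC hD hB hR hBD h h₁ h₂)
  refine ⟨QC D B, mkFormation (fun _ _ h => h.1) ⟨inferInstance, qc_formation_unit D B⟩
    (fun _ _ _ _ f hf h => qc_formation_map h f hf) ?_, qc_prod hD hB hBD hu⟩
  intro G X₁ X₂ _ _ _ _ f g hf hg hfg h₁ h₂
  obtain ⟨P, hP, -⟩ := (fam_isFam hD hB hR hBD).lift Unit G 1 ⊥ (fun _ => ⟨1, rfl⟩)
    (qc_formation_unit D B)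
  haveI := h₁.1
  haveI := h₂.1
  have e1 : P.map f = ⊥ := hu _ _ _ (fam_map hP f hf) h₁.2
  have e2 : P.map g = ⊥ := hu _ _ _ (fam_map hP g hg) h₂.2
  have e3 : P = ⊥ := by
    rw [eq_bot_iff]
    intro x hx
    exact hfg x (e1.le ⟨x, hx, rfl⟩) (e2.le ⟨x, hx, rfl⟩)
  exact ⟨inferInstance, e3 ▸ hP⟩

theorem abs_of_not_sub {p : ℕ} [hpp : Fact p.Prime] {A C D B : GroupClass} (hA : IsFormation A)
    (hp : Sub A (Np p)) (hc : A (Cp p)) (hC : IsFormation C) (hp' : Sub C (Np p))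
    (hD : IsFormation D) (hB : IsFormation B) (h : Product A D = Product C B)
    (hn : ¬ Sub D B) : AbsP p A C := by
  have : ∃ (X : Type) (_ : Group X), D X ∧ ¬ B X := by
    by_contra hcon
    push Not at hcon
    exact hn fun X _ hX => hcon X _ hX
  obtain ⟨X, _, hX, hX'⟩ := this
  haveI := hD.finite X hX
  have hm : ∀ (X : Type) [Group X] [Finite X] (P₁ P₂ : Subgroup X),
      P₁ = residual D X → P₂ = residual B X → A P₁ → C P₂ := by
    rintro X _ _ _ _ rfl rfl h1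
    have h2 : Product A D X := ⟨inferInstance, h1⟩
    rw [h] at h2
    exact h2.2
  have k₁ : ⊥ = residual D X := ((residual_eq_bot hD).2 hX).symm
  obtain ⟨X', _, _, P, m₁, m₂, hne, hE⟩ := reduce (p := p) (res_isFam hD) (res_isFam hB) k₁ rfl
    (fun h' => hX' ((residual_eq_bot hB).1 h'))
    (hp' _ (hm _ _ _ k₁ rfl (hA.trivial_mem inferInstance))).2
  intro U _ _ μ hU hμ hV
  refine key hA hp hc hC (res_isFam hD) (res_isFam hB) hm μ hU hμ hV ?_
  have hn2 : 2 ≤ Nat.card U + 1 := by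
    have : 0 < Nat.card U := Nat.card_pos
    omega
  generalize Nat.card U + 1 = n at hn2
  subst m₂
  let k := n * n * n
  have hk : 0 < k := by positivity
  let φ := (QuotientGroup.mk' (residual B X')).compLeft (Fin k)
  have hφ : Surjective φ := (QuotientGroup.mk'_surjective _).comp_left
  have hker : ∀ (x : φ.ker) (i : Fin k), x.1 i ∈ residual B X' := fun x i =>
    (QuotientGroup.eq_one_iff _).1 (congrFun x.2 i)
  have hEK : Ep p φ.ker := by
    refine mem_of_sep (Ep_formation p) (Ep_Np p) fun x hx => ?_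
    have h1 : x.1 ≠ 1 := fun h => hx (Subtype.ext h)
    obtain ⟨i, hi⟩ := Function.ne_iff.1 h1
    exact ⟨residual B X', inferInstance,
      ((Pi.evalMonoidHom _ i).comp (Subgroup.subtype _)).codRestrict _ fun z => hker z i, hE,
      fun h => hi (congrArg Subtype.val h)⟩
  have hDk : residual D (Fin k → X') = ⊥ :=
    (residual_eq_bot hD).2 (pow_mem hD ((residual_eq_bot hD).1 m₁.symm))
  have hcard : n * n * n ≤ Nat.card φ.ker := by
    have h1 := Nat.card_le_card_of_injective (fun b : Fin k → residual B X' => (⟨fun i => b i,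
      funext fun i => (QuotientGroup.eq_one_iff _).2 (b i).2⟩ : φ.ker))
      (fun b b' hb => funext fun i => Subtype.ext (congrFun (congrArg Subtype.val hb) i))
    rw [Nat.card_fun, Nat.card_eq_fintype_card (α := Fin k), Fintype.card_fin] at h1
    haveI : Nontrivial (residual B X') := (Subgroup.nontrivial_iff_ne_bot _).2 hne
    exact (Nat.lt_pow_self Finite.one_lt_card).le.trans h1
  rcases two (res_isFam hD) (res_isFam hB) φ hφ hEK hDk.symm rfl bot_le
    ((residual_le_ker hB φ hφ).2 (pow_mem hB (quot_residual hB X')))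
    (fun h' => hne ((residual_eq_bot hB).2 (hB.surj ((residual_eq_bot hB).1 (le_bot_iff.1 h'))
      (Pi.evalMonoidHom (fun _ : Fin k => X') ⟨0, hk⟩) (Function.surjective_eval _)))) n hcard with
    h3 | ⟨h3, -⟩
  · exact h3
  · rw [Subgroup.card_bot] at h3
    omega

end Pool.Agent.H601Z.Form
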