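import Mathlib
import Pool.Agent.H601Z.FormF

set_option autoImplicit false
set_option linter.style.haveILetI false

namespace Pool.Agent.H601Z.Form

open Pool.Agent.Helper75.UF RegularWreathProduct Function

/-- The map kills every normal subgroup of prime power order. -/
def Kills {X Y : Type} [Group X] [Group Y] (φ : X →* Y) : Prop :=
  ∀ p : ℕ, p.Prime → ∀ N : Subgroup X, N.Normal → IsPGroup p N → N ≤ φ.ker

/-- Quotients of the groups `X / F(X)` with `X` in `A`. -/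
def Star (A : GroupClass) : GroupClass :=
  fun Y _ => ∃ (X : Type) (_ : Group X) (φ : X →* Y), A X ∧ Surjective φ ∧ Kills φ

theorem star_formation {A : GroupClass} (hA : IsFormation A) : IsFormation (Star A) := by
  refine mkFormation ?_ ⟨Unit, inferInstance, MonoidHom.id _, hA.trivial_mem inferInstance,
    surjective_id, fun _ _ _ _ _ _ _ => rfl⟩ ?_ ?_
  · rintro G _ ⟨X, _, φ, hX, hφ, -⟩
    haveI := hA.finite X hX
    exact Finite.of_surjective φ hφ
  · rintro G H _ _ f hf ⟨X, _, φ, hX, hφ, hk⟩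
    refine ⟨X, _, f.comp φ, hX, hf.comp hφ, fun p hp N hN hpN x hx => ?_⟩
    have : φ x = 1 := hk p hp N hN hpN hx
    rw [MonoidHom.mem_ker, MonoidHom.comp_apply, this, map_one]
  · rintro G Y₁ Y₂ _ _ _ _ f g hf hg hfg ⟨X₁, _, φ₁, h₁, s₁, k₁⟩ ⟨X₂, _, φ₂, h₂, s₂, k₂⟩
    haveI := hA.finite X₁ h₁
    haveI := hA.finite X₂ h₂
    let K : Subgroup (G × X₁ × X₂) :=
      (f.comp (MonoidHom.fst _ _)).eqLocus (φ₁.comp ((MonoidHom.fst _ _).comp (MonoidHom.snd _ _))) ⊓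
      (g.comp (MonoidHom.fst _ _)).eqLocus (φ₂.comp ((MonoidHom.snd _ _).comp (MonoidHom.snd _ _)))
    have e₁ : ∀ t : K, f t.1.1 = φ₁ t.1.2.1 := fun t => t.2.1
    have e₂ : ∀ t : K, g t.1.1 = φ₂ t.1.2.2 := fun t => t.2.2
    let a₁ : K →* X₁ := ((MonoidHom.fst _ _).comp (MonoidHom.snd _ _)).comp K.subtype
    let a₂ : K →* X₂ := ((MonoidHom.snd _ _).comp (MonoidHom.snd _ _)).comp K.subtype
    have b₁ : Surjective a₁ := fun x₁ => by
      obtain ⟨x, hx⟩ := hf (φ₁ x₁)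
      obtain ⟨x₂, hx₂⟩ := s₂ (g x)
      exact ⟨⟨(x, x₁, x₂), hx, hx₂.symm⟩, rfl⟩
    have b₂ : Surjective a₂ := fun x₂ => by
      obtain ⟨x, hx⟩ := hg (φ₂ x₂)
      obtain ⟨x₁, hx₁⟩ := s₁ (f x)
      exact ⟨⟨(x, x₁, x₂), hx₁.symm, hx⟩, rfl⟩
    refine ⟨K, inferInstance, (MonoidHom.fst _ _).comp K.subtype,
      hA.subdirect_hom a₁ a₂ b₁ b₂ h₁ h₂ fun t t₁ t₂ => ?_, fun x => ?_,
      fun p hp N hN hpN t ht => ?_⟩
    · change t.1.2.1 = 1 at t₁
      change t.1.2.2 = 1 at t₂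
      refine Subtype.ext (Prod.ext (hfg _ ?_ ?_) (Prod.ext t₁ t₂))
      · rw [e₁, t₁, map_one]
      · rw [e₂, t₂, map_one]
    · obtain ⟨x₁, hx₁⟩ := s₁ (f x)
      obtain ⟨x₂, hx₂⟩ := s₂ (g x)
      exact ⟨⟨(x, x₁, x₂), hx₁.symm, hx₂.symm⟩, rfl⟩
    · exact hfg _ ((e₁ t).trans (k₁ p hp _ (hN.map a₁ b₁) (hpN.map a₁) ⟨t, ht, rfl⟩))
        ((e₂ t).trans (k₂ p hp _ (hN.map a₂ b₂) (hpN.map a₂) ⟨t, ht, rfl⟩))

theorem exists_Op (p : ℕ) (X : Type) [Group X] [Finite X] : ∃ O : Subgroup X,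
    O.Characteristic ∧ IsPGroup p O ∧ ∀ N : Subgroup X, N.Normal → IsPGroup p N → N ≤ O := by
  have hfin : {N : Subgroup X | N.Normal ∧ IsPGroup p N}.Finite := Set.toFinite _
  obtain ⟨O, ⟨hOn, hOp⟩, hmax⟩ := hfin.exists_maximal ⟨⊥, inferInstance, IsPGroup.of_bot⟩
  have h : ∀ N : Subgroup X, N.Normal → IsPGroup p N → N ≤ O := fun N hN hp =>
    le_sup_left.trans (hmax (y := N ⊔ O) ⟨inferInstance, hp.to_sup_of_normal_right hOp⟩
      le_sup_right)
  exact ⟨O, Subgroup.characteristic_iff_map_le.2 fun e =>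
    h _ (hOn.map _ e.surjective) (hOp.map _), hOp, h⟩

theorem star_prod {A D : GroupClass} (hA : IsFormation A) (hD : IsFormation D) (hR : Rich D)
    (hnp : ∃ (X₂ : Type) (_ : Group X₂), A X₂ ∧ ∀ p : ℕ, p.Prime → ¬ IsPGroup p X₂) :
    Star (Product A D) = Product (Star A) D := by
  refine class_ext fun Y _ => ⟨?_, ?_⟩
  · rintro ⟨G, _, φ, ⟨_, hG⟩, hφ, hk⟩
    obtain ⟨ρ, hρ, hρ'⟩ := prod_formation_res hD φ hφ
    refine ⟨Finite.of_surjective φ hφ, _, _, ρ, hG, hρ, fun p hp N hN hpN x hx => ?_⟩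
    obtain ⟨O, _, hO, hO'⟩ := exists_Op p (residual D G)
    exact Subtype.ext ((hρ' x).trans
      (hk p hp (O.map (residual D G).subtype) inferInstance (hO.map _) ⟨x, hO' N hN hpN hx, rfl⟩))
  · rintro ⟨_, X, _, φ, hX, hφ, hk⟩
    obtain ⟨X₂, _, hX₂, hnp⟩ := hnp
    have hX' := times_mem hA hX hX₂
    haveI := hA.finite _ hX'
    obtain ⟨G, _, _, g, χ', hg, -, -, h1, h2⟩ := lift_res' hD hR (MonoidHom.id (residual D Y))
      surjective_id (φ.comp (MonoidHom.fst X X₂)) (hφ.comp Prod.fst_surjective)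
    obtain ⟨ρ, hρ, hρ'⟩ := prod_formation_res hD g hg
    refine ⟨G, _, g, ⟨inferInstance, mem_of_residually hA fun u hu => ?_⟩, hg,
      fun p hp K hK hpK k hkK => ?_⟩
    · rcases h1 u hu with ⟨ev, h3, h4⟩ | h3
      · exact ⟨_, _, ev, h3, hX', h4⟩
      · exact ⟨_, _, ρ, hρ, hA.surj hX φ hφ, fun h => h3 ((hρ' u).symm.trans
          (congrArg Subtype.val h))⟩
    · rcases h2 p K hK hpK with h3 | h3
      · refine absurd (fun x => ?_) (hnp p hp)
        obtain ⟨j, hj⟩ := h3 ⟨(1, x), by simp [MonoidHom.mem_ker]⟩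
        exact ⟨j, congrArg (fun z => z.1.2) hj⟩
      · obtain ⟨hk', K', hK', hpK', a, ha, hfa⟩ := h3 k hkK
        have h4 : φ a.1 = 1 := hk p hp (K'.map (MonoidHom.fst X X₂))
          (hK'.map _ Prod.fst_surjective) (hpK'.map _) ⟨a, ha, rfl⟩
        exact congrArg Subtype.val (hfa.symm.trans h4)

theorem star_sub_of_p {A D : GroupClass} (hD : IsFormation D) {p : ℕ} (hp : p.Prime)
    (hA : Sub A (Np p)) : Sub (Star (Product A D)) D := by
  rintro Y _ ⟨G, _, φ, ⟨_, hG⟩, hφ, hk⟩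
  exact (residual_le_ker hD φ hφ).1 (hk p hp _ inferInstance (hA _ hG).2)

theorem nil_le_ker {G Y : Type} [Group G] [Finite G] [Group Y] {φ : G →* Y} (hk : Kills φ)
    (R : Subgroup G) [R.Normal] (hn : Group.IsNilpotent R) : R ≤ φ.ker := by
  rw [← Subgroup.map_eq_bot_iff]
  by_contra hne
  have hsurj := MonoidHom.subgroupMap_surjective φ R
  haveI : Finite (R.map φ) := Finite.of_surjective _ hsurj
  have hc : Nat.card (R.map φ) ≠ 1 := by rwa [Ne, Subgroup.card_eq_one]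
  obtain ⟨q, hq, hd⟩ := Nat.exists_prime_and_dvd hc
  haveI := Fact.mk hq
  obtain ⟨P⟩ : Nonempty (Sylow q R) := inferInstance
  have hPn : (P : Subgroup R).Normal := inferInstance
  haveI : (P : Subgroup R).Characteristic := Sylow.characteristic_of_normal P hPn
  have hQ := (P.mapSurjective hsurj).ne_bot_of_dvd_card hd
  rw [Sylow.coe_mapSurjective] at hQ
  obtain ⟨⟨z, hz⟩, hz1⟩ := Subgroup.ne_bot_iff_exists_ne_one.1 hQ
  obtain ⟨r, hr, rfl⟩ := hz
  apply hz1
  ext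
  exact hk q hq ((P : Subgroup R).map R.subtype) inferInstance (P.isPGroup'.map _) ⟨r, hr, rfl⟩

theorem star_sub {F V : GroupClass} (hV : IsFormation V) (h : Sub F (Product Nil V)) :
    Sub (Star F) V := by
  rintro Y _ ⟨G, _, φ, hG, hφ, hk⟩
  haveI := (h G hG).1
  exact (residual_le_ker hV φ hφ).1 (nil_le_ker hk _ (h G hG).2.2)

/-- Finite groups whose subgroups of prime power order have class at most `c`. -/
def Cl (c : ℕ) : GroupClass := fun H _ => Finite H ∧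
  ∀ p : ℕ, p.Prime → ∀ P : Subgroup H, IsPGroup p P → P.lowerCentralSeries c = ⊥

theorem lcs_mono {G : Type} [Group G] {P Q : Subgroup G} (h : P ≤ Q) (c : ℕ) :
    P.lowerCentralSeries c ≤ Q.lowerCentralSeries c := by
  induction c with
  | zero => exact h
  | succ c ih => exact Subgroup.commutator_mono ih h

theorem Cl_formation (c : ℕ) : IsFormation (Cl c) := by
  refine mkFormation (fun _ _ h => h.1)
    ⟨inferInstance, fun _ _ _ _ => Subgroup.eq_bot_of_subsingleton _⟩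
    (fun G H _ _ f hf h => ⟨haveI := h.1; Finite.of_surjective f hf, fun p hp P hP => ?_⟩) ?_
  · haveI := h.1
    haveI := Fact.mk hp
    obtain ⟨Q, hQ⟩ := hP.exists_le_sylow
    obtain ⟨Q', rfl⟩ := Sylow.mapSurjective_surjective hf p Q
    rw [eq_bot_iff]
    refine (lcs_mono hQ c).trans ?_
    rw [Sylow.coe_mapSurjective, ← Subgroup.map_lowerCentralSeries, h.2 p hp _ Q'.isPGroup',
      Subgroup.map_bot]
  · intro G A B _ _ _ _ f g _ _ hfg hA hB
    refine ⟨inferInstance, fun p hp P hP => ?_⟩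
    have h1 := hA.2 p hp _ (hP.map f)
    have h2 := hB.2 p hp _ (hP.map g)
    rw [← Subgroup.map_lowerCentralSeries] at h1 h2
    rw [eq_bot_iff]
    exact fun x hx => hfg x (h1.le ⟨x, hx, rfl⟩) (h2.le ⟨x, hx, rfl⟩)

theorem exists_Cl (G : Type) [Group G] [Finite G] : ∃ c, Cl c G := by
  have h : ∀ P : Subgroup G, ∃ c, Group.IsNilpotent P → P.lowerCentralSeries c = ⊥ := by
    intro P
    by_cases hP : Group.IsNilpotent P
    · obtain ⟨c, hc⟩ := (Subgroup.isNilpotent_iff_lowerCentralSeries P).1 hP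
      exact ⟨c, fun _ => hc⟩
    · exact ⟨0, fun h => absurd h hP⟩
  choose c hc using h
  obtain ⟨M, hM⟩ := Finite.exists_le c
  refine ⟨M, inferInstance, fun p hp P hP => ?_⟩
  haveI := Fact.mk hp
  rw [eq_bot_iff, ← hc P hP.isNilpotent]
  exact Subgroup.lowerCentralSeries_antitone P (hM P)

theorem wr_not_Cl {c p : ℕ} (hp : p.Prime) {X Y Y₁ : Type} [Group X] [Group Y] [Group Y₁]
    {a : X} (ha : orderOf a = p) {b : Y} (hb : orderOf b = p) :
    ¬ Cl c (X ≀ᵣ ((Fin c → Y) × Y₁)) := by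
  classical
  rintro ⟨-, h⟩
  have ha1 : a ≠ 1 := by
    rintro rfl
    exact hp.one_lt.ne (by simpa using ha)
  have hb1 : b ≠ 1 := by
    rintro rfl
    exact hp.one_lt.ne (by simpa using hb)
  have hza : ∀ x ∈ Subgroup.zpowers a, x ^ p = 1 := fun x hx =>
    orderOf_dvd_iff_pow_eq_one.1 (ha ▸ orderOf_dvd_of_mem_zpowers hx)
  have hzb : ∀ x ∈ Subgroup.zpowers b, x ^ p = 1 := fun x hx =>
    orderOf_dvd_iff_pow_eq_one.1 (hb ▸ orderOf_dvd_of_mem_zpowers hx)
  let P : Subgroup (X ≀ᵣ ((Fin c → Y) × Y₁)) :=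
    { carrier := {w | (∀ x, w.left x ∈ Subgroup.zpowers a) ∧
        (∀ i, w.right.1 i ∈ Subgroup.zpowers b) ∧ w.right.2 = 1}
      one_mem' := ⟨fun _ => Subgroup.one_mem _, fun _ => Subgroup.one_mem _, rfl⟩
      mul_mem' := fun {u v} hu hv => ⟨fun x => Subgroup.mul_mem _ (hu.1 x) (hv.1 _),
        fun i => Subgroup.mul_mem _ (hu.2.1 i) (hv.2.1 i), by simp [hu.2.2, hv.2.2]⟩
      inv_mem' := fun {u} hu => ⟨fun x => Subgroup.inv_mem _ (hu.1 _),
        fun i => Subgroup.inv_mem _ (hu.2.1 i), by simp [hu.2.2]⟩ }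
  have hP : IsPGroup p P := by
    rintro ⟨w, hw⟩
    refine ⟨2, Subtype.ext ?_⟩
    change w ^ p ^ 2 = 1
    have h1 : (w ^ p).right = 1 := by
      have : (w ^ p).right = w.right ^ p := map_pow rightHom w p
      rw [this]
      exact Prod.ext (funext fun i => hzb _ (hw.2.1 i)) (by simp [hw.2.2])
    obtain ⟨i1, i2⟩ := base_pow _ h1 p
    rw [sq, pow_mul]
    exact RegularWreathProduct.ext (funext fun y => (i2 y).trans (hza _ ((P.pow_mem hw p).1 y))) i1
  have key : ∀ j, j ≤ c → ∃ u ∈ P.lowerCentralSeries j, u.right = 1 ∧ u.left 1 = a ∧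
      ∀ x, (∃ i : Fin c, j ≤ i.1 ∧ x.1 i ≠ 1) ∨ x.2 ≠ 1 → u.left x = 1 := by
    intro j
    induction j with
    | zero =>
      refine fun _ => ⟨dl a 1, ⟨fun x => ?_, fun _ => Subgroup.one_mem _, rfl⟩, rfl, by simp [dl],
        fun x hx => ?_⟩
      · by_cases hx : x = 1 <;> simp [dl, hx]
      · have : x ≠ 1 := by
          rintro rfl
          simp at hx
        simp [dl, this]
    | succ j ih =>
      intro hj
      obtain ⟨u, hu, u1, u2, u3⟩ := ih (by omega)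
      let y : (Fin c → Y) × Y₁ := (Pi.mulSingle ⟨j, hj⟩ b, 1)
      have hy : (inl y : X ≀ᵣ ((Fin c → Y) × Y₁)) ∈ P := by
        refine ⟨fun _ => Subgroup.one_mem _, fun i => ?_, rfl⟩
        change (Pi.mulSingle (⟨j, hj⟩ : Fin c) b : Fin c → Y) i ∈ _
        by_cases hi : i = ⟨j, hj⟩ <;> simp [hi]
      have hl : ∀ x, (u * inl y * u⁻¹ * (inl y)⁻¹).left x = u.left x * (u.left (y⁻¹ * x))⁻¹ := by
        intro x
        simp [u1]
      refine ⟨u * inl y * u⁻¹ * (inl y)⁻¹, Subgroup.commutator_mem_commutator hu hy,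
        by simp [u1], ?_, fun x hx => ?_⟩
      · rw [hl, u2, u3 _ (Or.inl ⟨⟨j, hj⟩, le_rfl, by simpa [y] using hb1⟩)]
        simp
      · rw [hl, u3 x, u3 (y⁻¹ * x)]
        · simp
        · rcases hx with ⟨i, h1, h2⟩ | hx
          · have : i ≠ ⟨j, hj⟩ := by
              rintro rfl
              simp at h1
            exact Or.inl ⟨i, by omega, by simpa [y, this] using h2⟩
          · exact Or.inr (by simpa [y] using hx)
        · rcases hx with ⟨i, h1, h2⟩ | hx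
          · exact Or.inl ⟨i, by omega, h2⟩
          · exact Or.inr hx
  obtain ⟨u, hu, -, u2, -⟩ := key c le_rfl
  rw [h p hp P hP, Subgroup.mem_bot] at hu
  rw [hu] at u2
  exact ha1 u2.symm

theorem coprime_of_Cl {c : ℕ} {A D : GroupClass} (hA : IsFormation A) (hD : IsFormation D)
    (hR : Rich D) (h : Sub (Product A D) (Cl c)) {X Y : Type} [Group X] [Group Y] (hX : A X)
    (hY : D Y) {p : ℕ} (hp : p.Prime) (h1 : p ∣ Nat.card X) : ¬ p ∣ Nat.card Y := by
  intro h2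
  haveI := hA.finite X hX
  haveI := hD.finite Y hY
  haveI := Fact.mk hp
  obtain ⟨a, ha⟩ := exists_prime_orderOf_dvd_card' p h1
  obtain ⟨b, hb⟩ := exists_prime_orderOf_dvd_card' p h2
  obtain ⟨Y₁, _, hY₁, hr⟩ := hR X
  haveI := hD.finite Y₁ hY₁
  rcases wr_mem hA hD hX (times_mem hD (pow_mem (ι := Fin c) hD hY) hY₁) with
    h3 | ⟨S, _, _, φ, hS, hφ, h3⟩
  · exact wr_not_Cl hp ha hb (h _ h3)
  · exact hr S φ hS hφ _ (MonoidHom.snd _ _) Prod.snd_surjective h3

/-- Finite groups whose order is not divisible by a prime with the property `π`. -/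
def PiP (π : ℕ → Prop) : GroupClass :=
  fun G _ => Finite G ∧ ∀ p : ℕ, p.Prime → π p → ¬ p ∣ Nat.card G

theorem PiP_formation (π : ℕ → Prop) : IsFormation (PiP π) := by
  refine mkFormation (fun _ _ h => h.1)
    ⟨inferInstance, fun p hp _ h => hp.one_lt.ne' (by simpa using h)⟩
    (fun G H _ _ f hf h => ⟨haveI := h.1; Finite.of_surjective f hf, fun p hp h1 h2 =>
      h.2 p hp h1 (h2.trans (Subgroup.card_dvd_of_surjective f hf))⟩) ?_
  intro G A B _ _ _ _ f g _ _ hfg hA hB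
  refine ⟨inferInstance, fun p hp h1 h2 => ?_⟩
  have hinj : Injective (f.prod g) := by
    rw [injective_iff_map_eq_one]
    exact fun x hx => hfg x (congrArg Prod.fst hx) (congrArg Prod.snd hx)
  have h3 := h2.trans (Subgroup.card_dvd_of_injective _ hinj)
  rw [Nat.card_prod] at h3
  exact (hp.dvd_mul.1 h3).elim (hA.2 p hp h1) (hB.2 p hp h1)

theorem caseD {c : ℕ} {A C D B : GroupClass} (hA : IsFormation A) (hC : IsFormation C)
    (hD : IsFormation D) (hB : IsFormation B) (hRD : Rich D) (hRB : Rich B)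
    (h : Product A D = Product C B) (hc : Sub (Product A D) (Cl c)) (hn : ¬ Sub D B) :
    ∃ Q, IsFormation Q ∧ D = Product Q B := by
  let π : ℕ → Prop := fun p => ∃ (X : Type) (_ : Group X), A X ∧ p ∣ Nat.card X
  have hDπ : Sub D (PiP π) := fun Y _ hY => ⟨hD.finite Y hY, fun p hp ⟨X, _, hX, h1⟩ =>
    coprime_of_Cl hA hD hRD hc hX hY hp h1⟩
  have hBπ : Sub B (PiP π) := by
    intro Y' _ hY'
    refine ⟨hB.finite Y' hY', fun p hp ⟨X, _, hX, h1⟩ => ?_⟩
    have : ∃ (Y : Type) (_ : Group Y), D Y ∧ ¬ B Y := by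
      by_contra hcon
      push Not at hcon
      exact hn fun X _ hX => hcon X _ hX
    obtain ⟨Y, _, hY, hYB⟩ := this
    haveI := hA.finite X hX
    haveI := hD.finite Y hY
    haveI := Fact.mk hp
    obtain ⟨a, ha⟩ := exists_prime_orderOf_dvd_card' p h1
    obtain ⟨Y₁, _, hY₁, hr⟩ := hRD X
    haveI := hD.finite Y₁ hY₁
    rcases wr_mem hA hD hX (times_mem hD hY hY₁) with h3 | ⟨S, _, _, φ, hS, hφ, h3⟩
    · rw [h] at h3
      refine coprime_of_Cl hC hB hRB (h ▸ hc) h3.2 hY' hp ?_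
      have h4 : residual B (Y × Y₁) ≠ ⊥ := fun h5 =>
        hYB (hB.surj ((residual_eq_bot hB).1 h5) (MonoidHom.fst _ _) Prod.fst_surjective)
      rw [← map_residual hB (rightHom : X ≀ᵣ (Y × Y₁) →* Y × Y₁) rightHom_surj] at h4
      obtain ⟨⟨_, r, hr, rfl⟩, hr1⟩ := Subgroup.ne_bot_iff_exists_ne_one.1 h4
      obtain ⟨u, hu, u1, u2⟩ := wr_base_surj _ hr (fun h5 => hr1 (Subtype.ext h5)) a
      have h5 : u ^ Nat.card (residual B (X ≀ᵣ (Y × Y₁))) = 1 :=
        congrArg Subtype.val (pow_card_eq_one' (x := (⟨u, hu⟩ : residual B (X ≀ᵣ (Y × Y₁)))))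
      rw [← ha, orderOf_dvd_iff_pow_eq_one, ← u2, ← (base_pow u u1 _).2, h5]
      rfl
    · exact absurd h3 (hr S φ hS hφ _ (MonoidHom.snd _ _) Prod.snd_surjective)
  refine ⟨fun G _ => C G ∧ PiP π G, inter_formation hC (PiP_formation π),
    class_ext fun G _ => ⟨fun hG => ?_, ?_⟩⟩
  · haveI := hD.finite G hG
    have h1 := sub_prod hA hD G hG
    rw [h] at h1
    exact ⟨inferInstance, h1.2, inferInstance, fun p hp h2 h3 =>
      (hDπ G hG).2 p hp h2 (h3.trans (Subgroup.card_subgroup_dvd_card _))⟩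
  · rintro ⟨_, h1, h2⟩
    have h3 : Product C B G := ⟨inferInstance, h1⟩
    rw [← h] at h3
    rw [← residual_eq_bot hD]
    by_contra hne
    have hc' : Nat.card (residual D G) ≠ 1 := by rwa [Ne, Subgroup.card_eq_one]
    obtain ⟨q, hq, hd⟩ := Nat.exists_prime_and_dvd hc'
    have hπ : π q := ⟨_, _, h3.2, hd⟩
    have h4 := hd.trans (Subgroup.card_subgroup_dvd_card _)
    rw [Subgroup.card_eq_card_quotient_mul_card_subgroup (residual B G)] at h4
    exact (hq.dvd_mul.1 h4).elim ((hBπ _ (quot_residual hB G)).2 q hq hπ) (h2.2 q hq hπ)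

end Pool.Agent.H601Z.Form
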