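import Mathlib
import Pool.Agent.H601Z.FormG

set_option autoImplicit false
set_option linter.style.haveILetI false

namespace Pool.Agent.H601Z.Form

open Pool.Agent.Helper75.UF RegularWreathProduct Function

theorem right_cancel_sub' {A C H : GroupClass} (hA : IsFormation A) (hC : IsFormation C)
    (hH : IsFormation H) (hR : Rich H) (h : Product A H = Product C H) : Sub A C := by
  intro X _ hX
  haveI := hA.finite X hX
  obtain ⟨Y, _, hY, hr⟩ := hR X
  haveI := hH.finite Y hY
  rcases wr_dichotomy hH X hY with ⟨ev, h1, -⟩ | ⟨S, _, _, φ, hS, hφ, h'⟩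
  · rcases wr_mem hA hH hX hY with h2 | ⟨S, _, _, φ, hS, hφ, h'⟩
    · rw [h] at h2
      exact hC.surj h2.2 (ev 1) (h1 1)
    · exact absurd h' (hr S φ hS hφ Y (MonoidHom.id Y) surjective_id)
  · exact absurd h' (hr S φ hS hφ Y (MonoidHom.id Y) surjective_id)

theorem right_cancel' {A C H : GroupClass} (hA : IsFormation A) (hC : IsFormation C)
    (hH : IsFormation H) (hR : Rich H) (h : Product A H = Product C H) : A = C :=
  class_ext fun G _ => ⟨right_cancel_sub' hA hC hH hR h G, right_cancel_sub' hC hA hH hR h.symm G⟩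

theorem not_triv_of_mem {A : GroupClass} {X : Type} [Group X] [Nontrivial X] (h : A X) :
    A ≠ Triv := by
  rintro rfl
  exact not_subsingleton X h

theorem primary_facts {A : GroupClass} (hA : Indecomposable A) {p : ℕ} [Fact p.Prime]
    (hp : Sub A (Np p)) : A (Cp p) ∧ ¬ AbsP p A A := by
  obtain ⟨S, _, _, hS, hAS⟩ := exists_simple hA.formation hA.ne_one
  obtain ⟨e⟩ := simple_pgroup_equiv hS (hp S hAS).2
  refine ⟨hA.formation.iso _ _ ⟨e⟩ hAS, fun h => ?_⟩
  have h1 : A = Np p := class_ext fun G _ => ⟨hp G, fun hG =>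
    haveI := hG.1; (all_of_abs hA.formation hA.formation h h _ G rfl hG.2).1⟩
  have h2 : Np p = Product (Np p) (Np p) := by
    refine class_ext fun G _ => ⟨sub_prod (Np_formation p) (Np_formation p) G, fun hG => ?_⟩
    have := prodNp_mono (Np_formation p) triv_formation.1 (p := p) (fun _ _ h => h)
      (by rw [prod_triv (Np_formation p)]; exact fun _ _ h => h) G hG
    rwa [prod_triv (Np_formation p)] at this
  rcases hA.not_prod _ _ (Np_formation p) (Np_formation p) (h1.trans h2) with h3 | h3 <;>
    exact hA.ne_one (h1.trans h3)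

theorem not_primary {A : GroupClass} (hA : Indecomposable A)
    (h : ¬ ∃ p : ℕ, p.Prime ∧ Sub A (Np p)) :
    ∃ (X₂ : Type) (_ : Group X₂), A X₂ ∧ ∀ p : ℕ, p.Prime → ¬ IsPGroup p X₂ := by
  by_contra hcon
  push Not at hcon
  obtain ⟨S, _, _, hS, hAS⟩ := exists_simple hA.formation hA.ne_one
  obtain ⟨p, hp, hpS⟩ := hcon S _ hAS
  refine h ⟨p, hp, fun X _ hX => ⟨hA.formation.finite X hX, ?_⟩⟩
  obtain ⟨q, hq, hqS⟩ := hcon _ _ (times_mem hA.formation hX hAS)
  haveI := Fact.mk hp
  haveI := Fact.mk hq
  rw [pgroup_unique hpS (hqS.of_surjective (MonoidHom.snd X S) Prod.snd_surjective)]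
  exact hqS.of_surjective (MonoidHom.fst X S) Prod.fst_surjective

theorem sub_of_ne {p q : ℕ} [Fact p.Prime] [Fact q.Prime] (hpq : p ≠ q) {A C D B : GroupClass}
    (hA : IsFormation A) (hc : A (Cp p)) (hq : Sub C (Np q)) (hD : IsFormation D)
    (hB : IsFormation B) (h : Product A D = Product C B) : Sub D B := by
  intro Y _ hY
  haveI := hD.finite Y hY
  have h1 := wr_simple_mem hA hD (isSimpleGroup_of_prime_card (card_Cp p)) hc hY
  rw [h] at h1
  rw [← residual_eq_bot hB, ← map_residual hB (rightHom : Cp p ≀ᵣ Y →* Y) rightHom_surj]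
  by_contra h4
  obtain ⟨⟨_, r, hr, rfl⟩, hr1⟩ := Subgroup.ne_bot_iff_exists_ne_one.1 h4
  exact hpq (pgroup_unique (pgroup_Cp p)
    (wr_pgroup _ (hq _ h1.2).2 hr (fun h5 => hr1 (Subtype.ext h5))))

theorem claimV_mixed {A C D B : GroupClass} (hA : Indecomposable A) (hC : Indecomposable C)
    (hD : IsFormation D) (hB : IsFormation B) (hRB : Rich B) (h : Product A D = Product C B)
    {p : ℕ} (hp : p.Prime) (hAp : Sub A (Np p)) (hCp : ¬ ∃ p : ℕ, p.Prime ∧ Sub C (Np p)) :
    ∃ Q, IsFormation Q ∧ D = Product Q B := by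
  haveI := Fact.mk hp
  obtain ⟨h1, h2⟩ := primary_facts hA hAp
  refine verbal hA.formation hAp h1 h2 hC.formation hD hB hRB (fun Y _ hY => ?_) h
  have h3 := sub_prod (star_formation hC.formation) hB Y hY
  rw [← star_prod hC.formation hB hRB (not_primary hC hCp), ← h] at h3
  exact star_sub_of_p hD hp hAp Y h3

theorem claimV {c : ℕ} {V A C D B : GroupClass} (hV : IsFormation V) (hVc : Sub V (Cl c))
    (hA : Indecomposable A) (hC : Indecomposable C) (hD : IsFormation D) (hB : IsFormation B)
    (hRD : Rich D) (hRB : Rich B) (h : Product A D = Product C B)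
    (hM : Sub (Product A D) (Product Nil V)) :
    ∃ Q, IsFormation Q ∧ (D = Product Q B ∨ B = Product Q D) := by
  have heq : Sub D B → Sub B D → ∃ Q, IsFormation Q ∧ (D = Product Q B ∨ B = Product Q D) :=
    fun h1 h2 => ⟨Triv, triv_formation.1, Or.inl (by
      rw [triv_prod hB]; exact class_ext fun G _ => ⟨h1 G, h2 G⟩)⟩
  by_cases hAp : ∃ p : ℕ, p.Prime ∧ Sub A (Np p)
  · obtain ⟨p, hp, hAp⟩ := hAp
    by_cases hCp : ∃ p : ℕ, p.Prime ∧ Sub C (Np p)
    · obtain ⟨q, hq, hCq⟩ := hCp
      haveI := Fact.mk hp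
      haveI := Fact.mk hq
      obtain ⟨a1, a2⟩ := primary_facts hA hAp
      obtain ⟨c1, c2⟩ := primary_facts hC hCq
      by_cases hpq : p = q
      · subst hpq
        by_cases h1 : Sub B D
        · obtain ⟨Q, hQ, h2⟩ := verbal hA.formation hAp a1 a2 hC.formation hD hB hRB h1 h
          exact ⟨Q, hQ, Or.inl h2⟩
        by_cases h2 : Sub D B
        · obtain ⟨Q, hQ, h3⟩ := verbal hC.formation hCq c1 c2 hA.formation hB hD hRD h2 h.symm
          exact ⟨Q, hQ, Or.inr h3⟩
        refine absurd ?_ a2
        intro U _ _ _ hU _ _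
        exact (all_of_abs hA.formation hC.formation
          (abs_of_not_sub hA.formation hAp a1 hC.formation hCq hD hB h h2)
          (abs_of_not_sub hC.formation hCq c1 hA.formation hAp hB hD h.symm h1) _ U rfl hU).1
      · exact heq (sub_of_ne hpq hA.formation a1 hCq hD hB h)
          (sub_of_ne (Ne.symm hpq) hC.formation c1 hAp hB hD h.symm)
    · obtain ⟨Q, hQ, h2⟩ := claimV_mixed hA hC hD hB hRB h hp hAp hCp
      exact ⟨Q, hQ, Or.inl h2⟩
  · by_cases hCp : ∃ p : ℕ, p.Prime ∧ Sub C (Np p)
    · obtain ⟨q, hq, hCq⟩ := hCp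
      obtain ⟨Q, hQ, h2⟩ := claimV_mixed hC hA hB hD hRD h.symm hq hCq hAp
      exact ⟨Q, hQ, Or.inr h2⟩
    · have e1 := star_prod hA.formation hD hRD (not_primary hA hAp)
      have e2 := star_prod hC.formation hB hRB (not_primary hC hCp)
      have e3 : Product (Star A) D = Product (Star C) B := by rw [← e1, ← e2, h]
      have e4 : Sub (Product (Star A) D) (Cl c) := fun G _ hG =>
        hVc G (star_sub hV hM G (e1 ▸ hG))
      by_cases h1 : Sub D B
      · by_cases h2 : Sub B D
        · exact heq h1 h2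
        · obtain ⟨Q, hQ, h3⟩ := caseD (star_formation hC.formation) (star_formation hA.formation)
            hB hD hRB hRD e3.symm (e3 ▸ e4) h2
          exact ⟨Q, hQ, Or.inr h3⟩
      · obtain ⟨Q, hQ, h3⟩ := caseD (star_formation hA.formation) (star_formation hC.formation)
          hD hB hRD hRB e3 e4 h1
        exact ⟨Q, hQ, Or.inl h3⟩

theorem good_of_indec {l : List GroupClass} (h : ∀ X ∈ l, Indecomposable X) : Good l :=
  fun X hX => ⟨(h X hX).formation, (h X hX).ne_one⟩

theorem rich_foldr {e : ℕ} (he : 0 < e) : ∀ l : List GroupClass, (∀ X ∈ l, Indecomposable X) →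
    Sub (l.foldr Product Triv) (Product Nil (Exp e)) → Rich (l.foldr Product Triv)
  | [], _, hM => rich_of_bounded triv_formation.1 he hM fun p hp h => by
      haveI := Fact.mk hp
      change Sub (Product (Ep p) Triv) Triv at h
      rw [prod_triv (Ep_formation p)] at h
      exact not_subsingleton (Cp p) (h _ (Ep_Cp p))
  | A :: l, hl, hM => by
    have hl' : ∀ X ∈ l, Indecomposable X := fun X hX => hl X (List.mem_cons_of_mem _ hX)
    have hA := hl A List.mem_cons_self
    have hD := (foldr_formation triv_formation.1 l (good_of_indec hl')).1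
    have hR := rich_foldr he l hl' fun G _ hG => hM G (sub_prod hA.formation hD G hG)
    have hF := prod_formation hA.formation hD
    refine rich_of_bounded hF he hM fun p hp h => ?_
    haveI := Fact.mk hp
    have h1 : Product A (l.foldr Product Triv) =
        Product (Product (Ep p) A) (l.foldr Product Triv) := by
      rw [prod_assoc (Ep_formation p) hA.formation hD]
      exact class_ext fun G _ => ⟨sub_prod (Ep_formation p) hF G, h G⟩
    rcases hA.not_prod _ _ (Ep_formation p) hA.formation
      (right_cancel' hA.formation (prod_formation (Ep_formation p) hA.formation) hD hR h1) with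
      h2 | h2
    · exact not_triv_of_mem (Ep_Cp p) h2
    · exact hA.ne_one h2

theorem cons_ne_triv {C : GroupClass} {m : List GroupClass}
    (hm : ∀ X ∈ C :: m, Indecomposable X) : (C :: m).foldr Product Triv ≠ Triv := by
  intro h
  have hC := hm C List.mem_cons_self
  have hB := (foldr_formation triv_formation.1 m
    (good_of_indec fun X hX => hm X (List.mem_cons_of_mem _ hX))).1
  change Product C (m.foldr Product Triv) = Triv at h
  have h1 : m.foldr Product Triv = Triv := class_ext fun G _ =>
    ⟨fun hG => h ▸ sub_prod hC.formation hB G hG, fun hG => hB.trivial_mem hG⟩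
  rw [h1, prod_triv hC.formation] at h
  exact hC.ne_one h

theorem cancel_step {A C D B Q : GroupClass} (hA : Indecomposable A) (hC : Indecomposable C)
    (hB : IsFormation B) (hRB : Rich B) (hQ : IsFormation Q) (h : Product A D = Product C B)
    (hD : D = Product Q B) : A = C ∧ D = B := by
  rw [hD, ← prod_assoc hA.formation hQ hB] at h
  have h1 := right_cancel' (prod_formation hA.formation hQ) hC.formation hB hRB h
  rcases hC.not_prod _ _ hA.formation hQ h1.symm with h2 | h2
  · exact absurd h2 hA.ne_one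
  · rw [h2, prod_triv hA.formation] at h1
    rw [h2, triv_prod hB] at hD
    exact ⟨h1, hD⟩

theorem unique_foldr {c e : ℕ} (he : 0 < e) {V : GroupClass} (hV : IsFormation V)
    (hVc : Sub V (Cl c)) (hVe : Sub (Product Nil V) (Product Nil (Exp e))) :
    ∀ l m : List GroupClass, (∀ X ∈ l, Indecomposable X) → (∀ X ∈ m, Indecomposable X) →
      l.foldr Product Triv = m.foldr Product Triv → Sub (l.foldr Product Triv) (Product Nil V) →
      l = m
  | [], [], _, _, _, _ => rfl
  | [], _ :: _, _, hm, h, _ => absurd h.symm (cons_ne_triv hm)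
  | _ :: _, [], hl, _, h, _ => absurd h (cons_ne_triv hl)
  | A :: l, C :: m, hl, hm, h, hM => by
    have hl' : ∀ X ∈ l, Indecomposable X := fun X hX => hl X (List.mem_cons_of_mem _ hX)
    have hm' : ∀ X ∈ m, Indecomposable X := fun X hX => hm X (List.mem_cons_of_mem _ hX)
    have hA := hl A List.mem_cons_self
    have hC := hm C List.mem_cons_self
    have hD := (foldr_formation triv_formation.1 l (good_of_indec hl')).1
    have hB := (foldr_formation triv_formation.1 m (good_of_indec hm')).1
    have hDM : Sub (l.foldr Product Triv) (Product Nil V) :=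
      fun G _ hG => hM G (sub_prod hA.formation hD G hG)
    have hBM : Sub (m.foldr Product Triv) (Product Nil V) :=
      fun G _ hG => hM G (h ▸ sub_prod hC.formation hB G hG)
    have hRD := rich_foldr he l hl' fun G _ hG => hVe G (hDM G hG)
    have hRB := rich_foldr he m hm' fun G _ hG => hVe G (hBM G hG)
    obtain ⟨Q, hQ, h1 | h1⟩ := claimV hV hVc hA hC hD hB hRD hRB h hM
    · obtain ⟨h2, h3⟩ := cancel_step hA hC hB hRB hQ h h1
      rw [h2, unique_foldr he hV hVc hVe l m hl' hm' h3 hDM]
    · obtain ⟨h2, h3⟩ := cancel_step hC hA hD hRD hQ h.symm h1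
      rw [h2, unique_foldr he hV hVc hVe l m hl' hm' h3.symm hDM]

theorem prodList_eq_foldr : ∀ (l : List GroupClass) (A : GroupClass),
    (∀ X ∈ A :: l, IsFormation X) → prodList A l = (A :: l).foldr Product Triv
  | [], A, h => (prod_triv (h A List.mem_cons_self)).symm
  | B :: l, A, h => by
    change Product A (prodList B l) = Product A ((B :: l).foldr Product Triv)
    rw [prodList_eq_foldr l B fun X hX => h X (List.mem_cons_of_mem _ hX)]

theorem main_unique (G₀ : Type) [Group G₀] [Finite G₀] (F : GroupClass)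
    (hsub : ∀ (H : Type) [Group H], F H → SatGen G₀ H) (F₁ H₁ : GroupClass)
    (l m : List GroupClass) (hl : ∀ X ∈ F₁ :: l, Indecomposable X)
    (hm : ∀ X ∈ H₁ :: m, Indecomposable X) (h₁ : F = prodList F₁ l) (h₂ : F = prodList H₁ m) :
    F₁ :: l = H₁ :: m := by
  obtain ⟨c, hc⟩ := exists_Cl G₀
  have hE := Exp_formation (Nat.card G₀)
  have hV := inter_formation hE (Cl_formation c)
  rw [prodList_eq_foldr l F₁ fun X hX => (hl X hX).formation] at h₁
  rw [prodList_eq_foldr m H₁ fun X hX => (hm X hX).formation] at h₂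
  refine unique_foldr (c := c) (Nat.card_pos (α := G₀)) hV (fun _ _ h => h.2) ?_ _ _ hl hm
    (h₁.symm.trans h₂) ?_
  · rintro G _ ⟨_, -, hG⟩
    have hle := residual_anti hV (D := Exp (Nat.card G₀)) (fun _ _ h => h.1) G
    exact ⟨inferInstance, inferInstance, Group.nilpotent_of_mulEquiv
      (MonoidHom.ofInjective (Subgroup.inclusion_injective hle)).symm⟩
  · rw [← h₁]
    exact fun H _ hH => hsub H hH _ (prod_formation Nil_formation hV) (saturated_nil hV)
      (sub_prod Nil_formation hV _ ⟨⟨inferInstance, fun a => pow_card_eq_one'⟩, hc⟩)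

end Pool.Agent.H601Z.Form
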