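import Mathlib

set_option autoImplicit false

namespace Pool.Agent.H601Z.Net

/-- The edges of `H` with exactly one endpoint in `A`. -/
def edgeBoundary {V : Type} (H : SimpleGraph V) (A : Set V) : Set (Sym2 V) :=
  {e | ∃ u v, u ∈ A ∧ v ∉ A ∧ H.Adj u v ∧ e = s(u, v)}

/-- The Cheeger (edge-isoperimetric) constant of `H`: the infimum of `|∂_E A| / |A|` over the
finite nonempty sets `A` of vertices. -/
noncomputable def cheeger {V : Type} (H : SimpleGraph V) : ENNReal :=
  ⨅ (A : Finset V) (_ : A.Nonempty),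
    (((edgeBoundary H (A : Set V)).encard : ℕ∞) : ENNReal) / (A.card : ENNReal)

/-- `S` is a `k`-net of `G`: it is maximal under inclusion among the sets whose points are
pairwise at distance at least `k`. -/
def IsNet {V : Type} (G : SimpleGraph V) (k : ℕ) (S : Set V) : Prop :=
  Maximal (fun T : Set V => ∀ x ∈ T, ∀ y ∈ T, x ≠ y → k ≤ G.dist x y) S

/-- The `k`-net graph: the vertex set is `S`, and `u ≠ v` are adjacent iff `d_G(u,v) ≤ 2k`. -/
def netGraph {V : Type} (G : SimpleGraph V) (k : ℕ) (S : Set V) : SimpleGraph S where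
  Adj u v := u ≠ v ∧ G.dist (u : V) (v : V) ≤ 2 * k
  symm := ⟨fun u v h => ⟨h.1.symm, by rw [SimpleGraph.dist_comm]; exact h.2⟩⟩
  loopless := ⟨fun u h => h.1 rfl⟩

end Pool.Agent.H601Z.Net
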