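import Mathlib
import Pool.Agent.H601Z.NetDefs

set_option autoImplicit false

namespace Pool.Agent.H601Z.Net

open Finset

/-- cumulative exponent -/
def ee (i h : ℕ) : ℕ := 2 * h + min h (2 * i)

/-- one step exponent -/
def ww (i h : ℕ) : ℕ := if h < 2 * i then 3 else 2

theorem ee_succ (i h : ℕ) : ee i (h + 1) = ee i h + ww i h := by
  unfold ee ww
  split_ifs <;> omega

theorem ww_le (i h : ℕ) : 2 ^ ww i h ≤ 8 := by
  unfold ww
  split_ifs <;> norm_num

theorem ww_ge (i h : ℕ) : 4 ≤ 2 ^ ww i h := by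
  unfold ww
  split_ifs <;> norm_num

/-- exponent of the size of the layer `(i,h)` -/
def aa (K i h : ℕ) : ℕ := 2 * K + 2 * i - ee i h

theorem aa_succ {K i h : ℕ} (hh : h < K) : aa K i h = aa K i (h + 1) + ww i h := by
  unfold aa ee ww
  split_ifs <;> omega

theorem aa_zero (K i : ℕ) : aa K (i + 1) 0 = aa K i 0 + 2 := by
  unfold aa ee
  omega

/-- vertices -/
@[ext] structure Vx (K : ℕ) where
  i : ℕ
  h : ℕ
  y : ℕ
  hh : h ≤ K
  hy : y < 2 ^ aa K i h

variable {K : ℕ}

/-- `v` is a parent of `u` -/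
def Par (u v : Vx K) : Prop :=
  (v.i = u.i ∧ v.h = u.h + 1 ∧ v.y = u.y / 2 ^ ww u.i u.h) ∨
  (u.i = v.i + 1 ∧ u.h = 0 ∧ v.h = 0 ∧ v.y = u.y / 4)

theorem Par.ne {u v : Vx K} (h : Par u v) : u ≠ v := by
  rintro rfl
  rcases h with h | h <;> omega

/-- the graph -/
def GG (K : ℕ) : SimpleGraph (Vx K) := SimpleGraph.fromRel Par

theorem adj_iff {u v : Vx K} : (GG K).Adj u v ↔ Par u v ∨ Par v u := by
  unfold GG
  rw [SimpleGraph.fromRel_adj]
  constructor
  · exact fun h => h.2
  · intro h
    refine ⟨?_, h⟩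
    rcases h with h | h
    · exact h.ne
    · exact h.ne.symm

/-- vertical parent -/
def up (v : Vx K) (hv : v.h < K) : Vx K :=
  ⟨v.i, v.h + 1, v.y / 2 ^ ww v.i v.h, hv, by
    have h1 := v.hy
    rw [aa_succ hv, pow_add] at h1
    exact Nat.div_lt_of_lt_mul (by rw [mul_comm]; exact h1)⟩

theorem par_up (v : Vx K) (hv : v.h < K) : Par v (up v hv) := Or.inl ⟨rfl, rfl, rfl⟩

/-- children -/
def child (v : Vx K) (r : Fin 4) : Vx K :=
  if h0 : v.h = 0 then
    ⟨v.i + 1, 0, 4 * v.y + r, Nat.zero_le _, by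
      have h1 := v.hy
      rw [h0] at h1
      rw [aa_zero, pow_add]
      have := r.2
      omega⟩
  else
    ⟨v.i, v.h - 1, 2 ^ ww v.i (v.h - 1) * v.y + r, by have := v.hh; omega, by
      have h1 := v.hy
      have h2 : v.h - 1 < K := by have := v.hh; omega
      rw [aa_succ h2, pow_add, show v.h - 1 + 1 = v.h by omega]
      have h3 := ww_ge v.i (v.h - 1)
      have := r.2
      nlinarith⟩

theorem par_child (v : Vx K) (r : Fin 4) : Par (child v r) v := by
  unfold child
  split_ifs with h0
  · right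
    refine ⟨rfl, rfl, h0, ?_⟩
    have := r.2
    simp only
    omega
  · left
    refine ⟨rfl, by simp only; omega, ?_⟩
    simp only
    have h3 := ww_ge v.i (v.h - 1)
    have h4 := r.2
    rw [Nat.mul_add_div (by omega), Nat.div_eq_of_lt (by omega), add_zero]

theorem child_inj (v : Vx K) : Function.Injective (child v) := by
  intro r s h
  have h1 := congrArg Vx.y h
  unfold child at h1
  split_ifs at h1 with h0
  · simp only at h1
    exact Fin.ext (by omega)
  · simp only at h1
    exact Fin.ext (by omega)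

theorem par_unique {u v v' : Vx K} (h : Par u v) (h' : Par u v') (h0 : v.h = 0 ↔ v'.h = 0) :
    v = v' := by
  rcases h with h | h <;> rcases h' with h' | h'
  · ext <;> omega
  · omega
  · omega
  · ext <;> omega

theorem boundary_ge (A : Finset (Vx K)) :
    ((2 * A.card : ℕ) : ℕ∞) ≤ (edgeBoundary (GG K) (A : Set (Vx K))).encard := by
  classical
  let P : Finset (Vx K × Fin 4) := A ×ˢ univ
  let good := P.filter (fun p => child p.1 p.2 ∉ A)
  let bad := P.filter (fun p => child p.1 p.2 ∈ A)
  have hP : P.card = 4 * A.card := by simp [P, mul_comm]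
  have hsum : bad.card + good.card = P.card := card_filter_add_card_filter_not _
  have hbad : bad.card ≤ (A ×ˢ (univ : Finset Bool)).card := by
    apply card_le_card_of_injOn (fun p => (child p.1 p.2, decide (p.1.h = 0)))
    · intro p hp
      simp only [bad, coe_filter, Set.mem_ofPred_eq] at hp
      exact mem_coe.2 (mem_product.2 ⟨hp.2, mem_univ _⟩)
    · intro p _ q _ hpq
      simp only [Prod.mk.injEq, decide_eq_decide] at hpq
      have h1 : p.1 = q.1 := par_unique (par_child p.1 p.2) (hpq.1 ▸ par_child q.1 q.2) hpq.2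
      have h2 : p.2 = q.2 := child_inj p.1 (by rw [hpq.1, h1])
      exact Prod.ext h1 h2
  have hbad' : bad.card ≤ 2 * A.card := by
    rw [card_product, card_univ, Fintype.card_bool] at hbad
    omega
  have hgood : 2 * A.card ≤ good.card := by omega
  have himg : (good.image (fun p => s(p.1, child p.1 p.2))).card = good.card := by
    apply card_image_of_injOn
    intro p hp q hq hpq
    simp only [good, P, coe_filter, mem_product, mem_univ, and_true, Set.mem_ofPred_eq] at hp hq
    simp only [Sym2.eq_iff] at hpq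
    rcases hpq with ⟨h1, h2⟩ | ⟨h1, h2⟩
    · exact Prod.ext h1 (child_inj p.1 (by rw [h2, h1]))
    · exact absurd (h1 ▸ hp.1) hq.2
  have hsub : ((good.image (fun p => s(p.1, child p.1 p.2)) : Finset (Sym2 (Vx K))) :
      Set (Sym2 (Vx K))) ⊆ edgeBoundary (GG K) (A : Set (Vx K)) := by
    intro e he
    rw [coe_image] at he
    obtain ⟨p, hp, rfl⟩ := he
    simp only [good, P, coe_filter, mem_product, mem_univ, and_true, Set.mem_ofPred_eq] at hp
    exact ⟨p.1, child p.1 p.2, hp.1, hp.2, adj_iff.2 (Or.inr (par_child _ _)), rfl⟩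
  have h3 := Set.encard_le_encard hsub
  rw [Set.encard_coe_eq_coe_finsetCard, himg] at h3
  exact le_trans (by exact_mod_cast hgood) h3

theorem cheeger_ge : 2 ≤ cheeger (GG K) := by
  unfold cheeger
  refine le_iInf₂ fun A hA => ?_
  have h1 : (A.card : ENNReal) ≠ 0 := by
    have := hA.card_pos
    exact_mod_cast this.ne'
  rw [ENNReal.le_div_iff_mul_le (Or.inl h1) (Or.inl (by simp))]
  have h2 := boundary_ge A
  have h3 : (((2 * A.card : ℕ) : ℕ∞) : ENNReal) ≤
      ((edgeBoundary (GG K) (A : Set (Vx K))).encard : ENNReal) := by exact_mod_cast h2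
  simpa using h3

theorem degree_le (v : Vx K) : ((GG K).neighborSet v).encard ≤ 9 := by
  classical
  let f : Vx K → ℕ × ℕ × ℕ := fun u => (u.i, u.h, u.y)
  have hf : Function.Injective f := by
    intro u w h
    simp only [f, Prod.mk.injEq] at h
    ext
    · exact h.1
    · exact h.2.1
    · exact h.2.2
  have key : ∃ T : Finset (ℕ × ℕ × ℕ), T.card ≤ 9 ∧ ∀ u, (GG K).Adj v u → f u ∈ T := by
    by_cases h0 : v.h = 0
    · refine ⟨insert (v.i, v.h + 1, v.y / 2 ^ ww v.i v.h) (insert (v.i - 1, 0, v.y / 4)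
        ((range 4).image (fun r => (v.i + 1, 0, 4 * v.y + r)))), ?_, ?_⟩
      · refine (card_insert_le _ _).trans (Nat.succ_le_succ ((card_insert_le _ _).trans
          (Nat.succ_le_succ (card_image_le.trans (by simp)))))
      · intro u hu
        simp only [mem_insert, mem_image, mem_range, f, Prod.mk.injEq]
        rcases adj_iff.1 hu with (h | h) | (h | h)
        · exact Or.inl h
        · exact Or.inr (Or.inl ⟨by omega, by omega, by omega⟩)
        · omega
        · exact Or.inr (Or.inr ⟨u.y % 4, by omega, by omega, by omega, by omega⟩)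
    · refine ⟨insert (v.i, v.h + 1, v.y / 2 ^ ww v.i v.h)
        ((range 8).image (fun r => (v.i, v.h - 1, 2 ^ ww v.i (v.h - 1) * v.y + r))), ?_, ?_⟩
      · refine (card_insert_le _ _).trans (Nat.succ_le_succ (card_image_le.trans (by simp)))
      · intro u hu
        simp only [mem_insert, mem_image, mem_range, f, Prod.mk.injEq]
        rcases adj_iff.1 hu with (h | h) | (h | h)
        · exact Or.inl h
        · omega
        · right
          have h1 : v.h - 1 = u.h := by omega
          rw [h1, h.1, h.2.2]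
          refine ⟨u.y % 2 ^ ww u.i u.h, ?_, rfl, rfl, Nat.div_add_mod _ _⟩
          exact lt_of_lt_of_le (Nat.mod_lt _ (by positivity)) (ww_le _ _)
        · omega
  obtain ⟨T, hT, hmem⟩ := key
  have h1 : ((GG K).neighborSet v).encard ≤ (T : Set (ℕ × ℕ × ℕ)).encard :=
    Set.encard_le_encard_of_injOn (f := f) (fun u hu => hmem u hu) hf.injOn
  rw [Set.encard_coe_eq_coe_finsetCard] at h1
  exact h1.trans (by exact_mod_cast hT)

theorem walk_up : ∀ (d : ℕ) (v : Vx K), v.h + d = K →
    ∃ s : Vx K, s.h = K ∧ s.i = v.i ∧ ∃ p : (GG K).Walk v s, p.length = d := by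
  intro d
  induction d with
  | zero => intro v hv; exact ⟨v, hv, rfl, SimpleGraph.Walk.nil, rfl⟩
  | succ d ih =>
    intro v hv
    have h1 : v.h < K := by omega
    obtain ⟨s, hs1, hs2, p, hp⟩ := ih (up v h1) (by simp only [up]; omega)
    exact ⟨s, hs1, hs2, SimpleGraph.Walk.cons (adj_iff.2 (Or.inl (par_up v h1))) p, by simp [hp]⟩

theorem reach_down : ∀ (d : ℕ) (v : Vx K), v.h = d →
    ∃ u : Vx K, u.h = 0 ∧ (GG K).Reachable v u := by
  intro d
  induction d with
  | zero => intro v hv; exact ⟨v, hv, SimpleGraph.Reachable.refl _⟩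
  | succ d ih =>
    intro v hv
    have h1 : (child v 0).h = d := by
      unfold child
      rw [dif_neg (by omega)]
      simp only
      omega
    obtain ⟨u, hu, hr⟩ := ih _ h1
    exact ⟨u, hu, (adj_iff.2 (Or.inr (par_child v 0))).reachable.trans hr⟩

theorem reach_back : ∀ (d : ℕ) (v : Vx K), v.h = 0 → v.i = d →
    ∃ u : Vx K, u.i = 0 ∧ (GG K).Reachable v u := by
  intro d
  induction d with
  | zero => intro v _ hv; exact ⟨v, hv, SimpleGraph.Reachable.refl _⟩
  | succ d ih =>
    intro v h0 hv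
    let w : Vx K := ⟨d, 0, v.y / 4, Nat.zero_le _, by
      have h1 := v.hy
      rw [h0, hv, aa_zero, pow_add] at h1
      omega⟩
    obtain ⟨u, hu, hr⟩ := ih w rfl rfl
    have h2 : Par v w := Or.inr ⟨hv, h0, rfl, rfl⟩
    exact ⟨u, hu, (adj_iff.2 (Or.inl h2)).reachable.trans hr⟩

/-- first root of each level -/
def rt (K i : ℕ) : Vx K := ⟨i, K, 0, le_rfl, by positivity⟩

theorem eq_rt (s : Vx K) (hs : s.h = K) (hi : 2 * s.i ≤ K) : s = rt K s.i := by
  have h1 := s.hy
  have h2 : aa K s.i s.h = 0 := by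
    rw [hs]
    unfold aa ee
    omega
  rw [h2] at h1
  ext
  · rfl
  · exact hs
  · simp only [rt]
    omega

theorem connected : (GG K).Connected := by
  have key : ∀ v : Vx K, (GG K).Reachable v (rt K 0) := by
    intro v
    obtain ⟨u, hu, h1⟩ := reach_down _ v rfl
    obtain ⟨w, hw, h2⟩ := reach_back _ u hu rfl
    obtain ⟨s, hs1, hs2, p, -⟩ := walk_up (K - w.h) w (by have := w.hh; omega)
    have h3 : s = rt K 0 := by
      have := eq_rt s hs1 (by omega)
      rw [hs2, hw] at this
      exact this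
    exact h1.trans (h2.trans ⟨h3 ▸ p⟩)
  haveI : Nonempty (Vx K) := ⟨rt K 0⟩
  exact ⟨fun u v => (key u).trans (key v).symm⟩

instance : Infinite (Vx K) :=
  Infinite.of_injective (rt K) (fun i j h => congrArg Vx.i h)

theorem lip_le {V : Type} (G : SimpleGraph V) (f : V → ℕ)
    (hf : ∀ u v, G.Adj u v → f v ≤ f u + 1) {u v : V} (p : G.Walk u v) :
    f v ≤ f u + p.length := by
  induction p with
  | nil => simp
  | cons h q ih =>
    have := hf _ _ h
    rw [SimpleGraph.Walk.length_cons]
    omega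

/-- index of the root above `v` -/
def ry (v : Vx K) : ℕ := v.y / 2 ^ (ee v.i K - ee v.i v.h)

theorem dist_roots (s t : Vx K) (hs : s.h = K) (ht : t.h = K) (hst : s ≠ t) :
    2 * K + (s.i - t.i) + (t.i - s.i) ≤ (GG K).dist s t := by
  classical
  let f : Vx K → ℕ := fun v =>
    if v.i = s.i ∧ ry v = s.y then K - v.h else K + (s.i - v.i) + (v.i - s.i) + v.h
  have hpar : ∀ u v : Vx K, Par u v → f v ≤ f u + 1 ∧ f u ≤ f v + 1 := by
    intro u v h
    have hu := u.hh
    have hv := v.hh
    rcases h with ⟨h1, h2, h3⟩ | ⟨h1, h2, h3, h4⟩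
    · have h4 : ry v = ry u := by
        unfold ry
        rw [h3, h1, h2, Nat.div_div_eq_div_mul, ← pow_add]
        congr 2
        have h5 := ee_succ u.i u.h
        have h6 : ee u.i (u.h + 1) ≤ ee u.i K := by
          unfold ee
          omega
        omega
      simp only [f, h4, h1]
      split_ifs <;> omega
    · simp only [f]
      split_ifs <;> omega
  have hf : ∀ u v, (GG K).Adj u v → f v ≤ f u + 1 := by
    intro u v h
    rcases adj_iff.1 h with h | h
    · exact (hpar _ _ h).1
    · exact (hpar _ _ h).2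
  obtain ⟨p, hp⟩ := connected.exists_walk_length_eq_dist s t
  have h1 := lip_le (GG K) f hf p
  have hry : ∀ v : Vx K, v.h = K → ry v = v.y := by
    intro v hv
    unfold ry
    rw [hv]
    simp
  have h2 : f s = 0 := by
    simp only [f, hry s hs, and_self, if_true]
    omega
  have h3 : f t = K + (s.i - t.i) + (t.i - s.i) + K := by
    simp only [f, hry t ht]
    rw [if_neg, ht]
    rintro ⟨h4, h5⟩
    apply hst
    ext <;> omega
  omega

/-- the set of roots -/
def SS (K : ℕ) : Set (Vx K) := {v | v.h = K}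

theorem isNet (hK : 1 ≤ K) : IsNet (GG K) (K + 1) (SS K) := by
  constructor
  · intro x hx y hy hxy
    have := dist_roots x y hx hy hxy
    omega
  · intro T hT hST v hv
    obtain ⟨s, hs1, -, p, hp⟩ := walk_up (K - v.h) v (by have := v.hh; omega)
    by_cases h : v = s
    · rw [h]; exact hs1
    · have h1 := hT v hv s (hST hs1) h
      have h2 := SimpleGraph.dist_le p
      omega

theorem net_cheeger (L : ℕ) :
    cheeger (netGraph (GG (2 * (L + 2))) (2 * (L + 2) + 1) (SS (2 * (L + 2)))) ≤
      4 / ((L + 1 : ℕ) : ENNReal) := by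
  classical
  set K := 2 * (L + 2) with hK
  let ρ : ℕ → SS K := fun i => ⟨rt K i, rfl⟩
  have hρ : Function.Injective ρ := fun i j h => congrArg (fun x : SS K => x.1.i) h
  let A : Finset (SS K) := (range (L + 1)).image ρ
  have hA : A.card = L + 1 := by rw [card_image_of_injective _ hρ, card_range]
  have hne : A.Nonempty := card_pos.1 (by omega)
  let T : Finset (Sym2 (SS K)) :=
    (range 2 ×ˢ range 2).image (fun ab => s(ρ (L - ab.1), ρ (L + 1 + ab.2)))
  have hT : T.card ≤ 4 := card_image_le.trans (by simp)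
  have hsub : edgeBoundary (netGraph (GG K) (K + 1) (SS K)) (A : Set (SS K)) ⊆
      (T : Set (Sym2 (SS K))) := by
    rintro e ⟨u, v, hu, hv, huv, rfl⟩
    simp only [A, coe_image, coe_range, Set.mem_image, Set.mem_Iio, not_exists, not_and] at hu hv
    obtain ⟨a, ha, rfl⟩ := hu
    have h1 := dist_roots (ρ a).1 v.1 (ρ a).2 v.2 (fun h => huv.1 (Subtype.ext h))
    have h2 := huv.2
    have h3 : (ρ a).1.i = a := rfl
    rw [h3] at h1
    have h4 : v = ρ v.1.i := Subtype.ext (eq_rt v.1 v.2 (by omega))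
    have h5 : ¬ v.1.i < L + 1 := fun h => hv _ h h4.symm
    simp only [T, coe_image, Set.mem_image, mem_coe, mem_product, mem_range]
    refine ⟨(L - a, v.1.i - (L + 1)), ⟨by simp only; omega, by simp only; omega⟩, ?_⟩
    simp only
    rw [show L - (L - a) = a by omega, show L + 1 + (v.1.i - (L + 1)) = v.1.i by omega, ← h4]
  have h1 := Set.encard_le_encard hsub
  rw [Set.encard_coe_eq_coe_finsetCard] at h1
  have h2 : (edgeBoundary (netGraph (GG K) (K + 1) (SS K)) (A : Set (SS K))).encard ≤ 4 :=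
    h1.trans (by exact_mod_cast hT)
  unfold cheeger
  refine (iInf₂_le A hne).trans ?_
  rw [hA]
  apply ENNReal.div_le_div_right
  exact_mod_cast h2

theorem main (ε : ℝ) (hε : 0 < ε) :
    ∃ k : ℕ, 1 ≤ k ∧ ∃ (V : Type) (G : SimpleGraph V) (S : Set V),
      Infinite V ∧ G.Connected ∧ (∀ v, (G.neighborSet v).encard ≤ 9) ∧ 1 < cheeger G ∧
      IsNet G k S ∧ cheeger (netGraph G k S) < ENNReal.ofReal ε := by
  obtain ⟨L, hL⟩ := exists_nat_gt (4 / ε)
  refine ⟨2 * (L + 2) + 1, by omega, Vx (2 * (L + 2)), GG _, SS _, inferInstance, connected,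
    degree_le, lt_of_lt_of_le (by norm_num) cheeger_ge, isNet (by omega),
    lt_of_le_of_lt (net_cheeger L) ?_⟩
  have h1 : (4 : ENNReal) / ((L + 1 : ℕ) : ENNReal) = ENNReal.ofReal (4 / ((L + 1 : ℕ) : ℝ)) := by
    rw [ENNReal.ofReal_div_of_pos (by positivity), ENNReal.ofReal_natCast]
    simp
  rw [h1, ENNReal.ofReal_lt_ofReal_iff hε, div_lt_iff₀ (by positivity)]
  rw [div_lt_iff₀ hε] at hL
  push_cast
  nlinarith

end Pool.Agent.H601Z.Net
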