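import Mathlib

set_option autoImplicit false

namespace Pool.Agent.H601Z.Pat

open Finset

/-- first endpoints of the twelve edges -/
def e1 : Fin 12 → Fin 16 := ![15, 15, 15, 15, 15, 14, 14, 14, 14, 5, 3, 1]
/-- second endpoints of the twelve edges -/
def e2 : Fin 12 → Fin 16 := ![14, 13, 12, 11, 10, 9, 8, 7, 6, 4, 2, 0]
/-- classes of the twelve edges -/
def cls : Fin 12 → Fin 3 := ![0, 0, 0, 1, 1, 0, 0, 1, 1, 2, 2, 2]

/-- the edge number `i` -/
def edge (i : Fin 12) : Finset (Fin 16) := {e1 i, e2 i}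

/-- the forest -/
def F : Finset (Finset (Fin 16)) := univ.image edge

/-- the pattern -/
def pat (e : Finset (Fin 16)) : Fin 3 :=
  if (15 ∈ e ∧ (11 ∈ e ∨ 10 ∈ e)) ∨ (14 ∈ e ∧ (7 ∈ e ∨ 6 ∈ e)) then 1
  else if 15 ∈ e ∨ 14 ∈ e then 0 else 2

theorem pat_edge : ∀ i, pat (edge i) = cls i := by decide

theorem edge_card : ∀ i, (edge i).card = 2 := by decide

theorem edge_inter : ∀ i j, edge i ≠ edge j → (edge i ∩ edge j).card ≤ 1 := by decide

theorem cover_two : ∀ (α β : Fin 16) (t : Fin 3),
    (∀ i, cls i = t → e1 i = α ∨ e1 i = β ∨ e2 i = α ∨ e2 i = β) →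
    (α = 15 ∧ β = 14) ∨ (α = 14 ∧ β = 15) := by decide

theorem mem_F {e : Finset (Fin 16)} : e ∈ F ↔ ∃ i, edge i = e := by
  simp [F]

theorem image_edge {V : Type} [DecidableEq V] (φ : Fin 16 → V) (i : Fin 12) :
    (edge i).image φ = {φ (e1 i), φ (e2 i)} := by
  simp [edge]

theorem pick {V : Type} [DecidableEq V] (N : Finset V) (l : List V) (h : l.length < N.card) :
    ∃ x ∈ N, x ∉ l := by
  by_contra hc
  push Not at hc
  have h1 : N ⊆ l.toFinset := fun x hx => List.mem_toFinset.2 (hc x hx)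
  have h2 := card_le_card h1
  have h3 := List.toFinset_card_le l
  omega

theorem embed {V : Type} [DecidableEq V] [Fintype V] (R : Fin 3 → V → V → Prop)
    (N : Fin 3 → V → Finset V) (hN : ∀ t u w, w ∈ N t u → R t u w)
    (u v : V) (huv : u ≠ v) (h0 : R 0 u v)
    (hu0 : 10 ≤ (N 0 u).card) (hu1 : 10 ≤ (N 1 u).card)
    (hv0 : 10 ≤ (N 0 v).card) (hv1 : 10 ≤ (N 1 v).card)
    (hC : ∀ l : List V, l.length ≤ 14 → ∃ p q, p ≠ q ∧ p ∉ l ∧ q ∉ l ∧ R 2 p q) :
    ∃ φ : Fin 16 → V, Function.Injective φ ∧ ∀ i, R (cls i) (φ (e1 i)) (φ (e2 i)) := by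
  obtain ⟨x13, m13, n13⟩ := pick (N 0 u) [v, u] (by simp only [List.length]; omega)
  obtain ⟨x12, m12, n12⟩ := pick (N 0 u) [x13, v, u] (by simp only [List.length]; omega)
  obtain ⟨x11, m11, n11⟩ := pick (N 1 u) [x12, x13, v, u] (by simp only [List.length]; omega)
  obtain ⟨x10, m10, n10⟩ := pick (N 1 u) [x11, x12, x13, v, u]
    (by simp only [List.length]; omega)
  obtain ⟨x9, m9, n9⟩ := pick (N 0 v) [x10, x11, x12, x13, v, u]
    (by simp only [List.length]; omega)
  obtain ⟨x8, m8, n8⟩ := pick (N 0 v) [x9, x10, x11, x12, x13, v, u]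
    (by simp only [List.length]; omega)
  obtain ⟨x7, m7, n7⟩ := pick (N 1 v) [x8, x9, x10, x11, x12, x13, v, u]
    (by simp only [List.length]; omega)
  obtain ⟨x6, m6, n6⟩ := pick (N 1 v) [x7, x8, x9, x10, x11, x12, x13, v, u]
    (by simp only [List.length]; omega)
  obtain ⟨x5, x4, d5, n5, n4, r5⟩ := hC [x6, x7, x8, x9, x10, x11, x12, x13, v, u]
    (by simp only [List.length]; omega)
  obtain ⟨x3, x2, d3, n3, n2, r3⟩ := hC [x4, x5, x6, x7, x8, x9, x10, x11, x12, x13, v, u]
    (by simp only [List.length]; omega)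
  obtain ⟨x1, x0, d1, n1, n0, r1⟩ :=
    hC [x2, x3, x4, x5, x6, x7, x8, x9, x10, x11, x12, x13, v, u]
    (by simp only [List.length]; omega)
  have hnd : [x0, x1, x2, x3, x4, x5, x6, x7, x8, x9, x10, x11, x12, x13, v, u].Nodup := by
    refine List.nodup_cons.2 ⟨?_, List.nodup_cons.2 ⟨n1, List.nodup_cons.2 ⟨?_,
      List.nodup_cons.2 ⟨n3, List.nodup_cons.2 ⟨?_, List.nodup_cons.2 ⟨n5,
      List.nodup_cons.2 ⟨n6, List.nodup_cons.2 ⟨n7, List.nodup_cons.2 ⟨n8,
      List.nodup_cons.2 ⟨n9, List.nodup_cons.2 ⟨n10, List.nodup_cons.2 ⟨n11,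
      List.nodup_cons.2 ⟨n12, List.nodup_cons.2 ⟨n13, ?_⟩⟩⟩⟩⟩⟩⟩⟩⟩⟩⟩⟩⟩⟩
    · rw [List.mem_cons, not_or]; exact ⟨d1.symm, n0⟩
    · rw [List.mem_cons, not_or]; exact ⟨d3.symm, n2⟩
    · rw [List.mem_cons, not_or]; exact ⟨d5.symm, n4⟩
    · simp [huv.symm]
  refine ⟨fun i => [x0, x1, x2, x3, x4, x5, x6, x7, x8, x9, x10, x11, x12, x13, v, u].get i,
    List.nodup_iff_injective_get.1 hnd, ?_⟩
  intro i
  fin_cases i
  · exact h0
  · exact hN _ _ _ m13
  · exact hN _ _ _ m12
  · exact hN _ _ _ m11
  · exact hN _ _ _ m10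
  · exact hN _ _ _ m9
  · exact hN _ _ _ m8
  · exact hN _ _ _ m7
  · exact hN _ _ _ m6
  · exact r5
  · exact r3
  · exact r1

/-- a small finset is covered by a function on `Fin k` -/
theorem cover_fun {V : Type} [DecidableEq V] (d : V) (k : ℕ) (l : List V) (h : l.length ≤ k) :
    ∃ f : Fin k → V, ∀ x ∈ l, ∃ i, f i = x := by
  refine ⟨fun i => l.getD i d, ?_⟩
  intro x hx
  obtain ⟨j, hj, rfl⟩ := List.getElem_of_mem hx
  refine ⟨⟨j, by omega⟩, ?_⟩
  simp [List.getD_eq_getElem?_getD, hj]

theorem cover_fun' {V : Type} [DecidableEq V] (d : V) (k : ℕ) (T : Finset V) (h : T.card ≤ k) :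
    ∃ f : Fin k → V, ∀ x ∈ T, ∃ i, f i = x := by
  obtain ⟨f, hf⟩ := cover_fun d k T.toList (by rw [Finset.length_toList]; exact h)
  exact ⟨f, fun x hx => hf x (Finset.mem_toList.2 hx)⟩

open Classical in
/-- upper counting lemma -/
theorem count_le {ι : Type} [Fintype ι] [DecidableEq ι] (E Y : Finset ι) (b : ℝ) (hb1 : 1 ≤ b)
    (hb3 : b ≤ 3) (A : ι → Finset (Option (Fin 3))) (hA : ∀ e ∈ E, e ∉ Y → ((A e).card : ℝ) ≤ b) :
    (((univ : Finset (ι → Option (Fin 3))).filter
      (fun c => (∀ e, c e = none ↔ e ∉ E) ∧ ∀ e ∈ E, e ∉ Y → c e ∈ A e)).card : ℝ)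
      ≤ b ^ E.card * (3 / b) ^ Y.card := by
  let B : ι → Finset (Option (Fin 3)) := fun e =>
    if e ∈ E then (if e ∈ Y then univ.erase none else A e) else {none}
  have hsub : ((univ : Finset (ι → Option (Fin 3))).filter
      (fun c => (∀ e, c e = none ↔ e ∉ E) ∧ ∀ e ∈ E, e ∉ Y → c e ∈ A e)) ⊆
      Fintype.piFinset B := by
    intro c hc
    rw [mem_filter] at hc
    obtain ⟨-, h1, h2⟩ := hc
    rw [Fintype.mem_piFinset]
    intro e
    by_cases hE : e ∈ E
    · by_cases hY : e ∈ Y
      · simp only [B, hE, hY, if_true, mem_erase, mem_univ, and_true]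
        intro h
        exact (h1 e).1 h hE
      · simp only [B, hE, hY, if_true, if_false]
        exact h2 e hE hY
    · simp only [B, hE, if_false, mem_singleton]
      exact (h1 e).2 hE
  have hb0 : 0 < b := by linarith
  have h3b : 1 ≤ 3 / b := by rw [le_div_iff₀ hb0]; linarith
  calc _ ≤ ((Fintype.piFinset B).card : ℝ) := by exact_mod_cast card_le_card hsub
    _ = ∏ e, ((B e).card : ℝ) := by rw [Fintype.card_piFinset]; push_cast; rfl
    _ ≤ ∏ e, ((if e ∈ E then b else 1) * (if e ∈ Y then 3 / b else 1)) := by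
        apply prod_le_prod
        · intro e _; positivity
        · intro e _
          by_cases hE : e ∈ E
          · by_cases hY : e ∈ Y
            · simp only [B, hE, hY, if_true]
              have : ((univ : Finset (Option (Fin 3))).erase none).card = 3 := by decide
              rw [this]
              field_simp
              norm_num
            · simp only [B, hE, hY, if_true, if_false, mul_one]
              exact hA e hE hY
          · simp only [B, hE, if_false, card_singleton, one_mul]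
            split_ifs
            · simpa using h3b
            · simp
    _ = b ^ E.card * (3 / b) ^ Y.card := by
        rw [prod_mul_distrib, prod_ite_mem, prod_ite_mem]
        simp only [univ_inter, prod_const]

open Classical in
/-- lower counting lemma -/
theorem count_ge {ι : Type} [Fintype ι] [DecidableEq ι] (E Y : Finset ι) (hY : Y ⊆ E) :
    (2 : ℝ) ^ E.card * (3 / 2) ^ Y.card ≤
    (((univ : Finset (ι → Option (Fin 3))).filter
      (fun c => (∀ e, c e = none ↔ e ∉ E) ∧ ∀ e ∈ E, e ∉ Y → c e ≠ some 2)).card : ℝ) := by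
  let B : ι → Finset (Option (Fin 3)) := fun e =>
    if e ∈ E then (if e ∈ Y then univ.erase none else {some 0, some 1}) else {none}
  have hsub : Fintype.piFinset B ⊆ ((univ : Finset (ι → Option (Fin 3))).filter
      (fun c => (∀ e, c e = none ↔ e ∉ E) ∧ ∀ e ∈ E, e ∉ Y → c e ≠ some 2)) := by
    intro c hc
    rw [Fintype.mem_piFinset] at hc
    rw [mem_filter]
    refine ⟨mem_univ _, ?_, ?_⟩
    · intro e
      have h := hc e
      by_cases hE : e ∈ E
      · by_cases hY : e ∈ Y
        · simp only [B, hE, hY, if_true, mem_erase, mem_univ, and_true] at h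
          simp [h, hE]
        · simp only [B, hE, hY, if_true, if_false, mem_insert, mem_singleton] at h
          rcases h with h | h <;> simp [h, hE]
      · simp only [B, hE, if_false, mem_singleton] at h
        simp [h, hE]
    · intro e hE hY
      have h := hc e
      simp only [B, hE, hY, if_true, if_false, mem_insert, mem_singleton] at h
      rcases h with h | h <;> simp [h]
  calc (2 : ℝ) ^ E.card * (3 / 2) ^ Y.card
      = ∏ e, ((if e ∈ E then (2 : ℝ) else 1) * (if e ∈ Y then 3 / 2 else 1)) := by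
        rw [prod_mul_distrib, prod_ite_mem, prod_ite_mem]
        simp only [univ_inter, prod_const]
    _ = ∏ e, ((B e).card : ℝ) := by
        apply prod_congr rfl
        intro e _
        by_cases hE : e ∈ E
        · by_cases hY : e ∈ Y
          · simp only [B, hE, hY, if_true]
            have : ((univ : Finset (Option (Fin 3))).erase none).card = 3 := by decide
            rw [this]
            norm_num
          · simp only [B, hE, hY, if_true, if_false, mul_one]
            have : ({some 0, some 1} : Finset (Option (Fin 3))).card = 2 := by decide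
            rw [this]
            norm_num
        · have hY' : e ∉ Y := fun h => hE (hY h)
          simp [B, hE, hY']
    _ = ((Fintype.piFinset B).card : ℝ) := by rw [Fintype.card_piFinset]; push_cast; rfl
    _ ≤ _ := by exact_mod_cast card_le_card hsub

end Pool.Agent.H601Z.Pat
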