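import Mathlib
import Pool.Agent.H601Z.PatA

set_option autoImplicit false

namespace Pool.Agent.H601Z.Pat

open Finset

variable {V : Type} [Fintype V] [DecidableEq V]

/-- all two-element sets -/
def KK (V : Type) [Fintype V] [DecidableEq V] : Finset (Finset V) := powersetCard 2 univ

theorem mem_KK {e : Finset V} : e ∈ KK V ↔ ∃ u v, u ≠ v ∧ e = {u, v} := by
  simp [KK, Finset.card_eq_two]

/-- pattern-free colourings of `H` -/
def Good (H : Finset (Finset V)) (c : Finset V → Option (Fin 3)) : Prop :=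
  (∀ e : Finset V, c e = none ↔ e ∉ H) ∧
    ¬ ∃ φ : Fin 16 → V, Function.Injective φ ∧ (∀ e ∈ F, e.image φ ∈ H) ∧
      (∀ e ∈ F, ∀ e' ∈ F, (c (e.image φ) = c (e'.image φ) ↔ pat e = pat e'))

/-- neighbourhood in a colour -/
def Nb (c : Finset V → Option (Fin 3)) (x : Fin 3) (u : V) : Finset V :=
  univ.filter (fun w => c {u, w} = some x)

theorem mem_Nb {c : Finset V → Option (Fin 3)} {x : Fin 3} {u w : V} :
    w ∈ Nb c x u ↔ c {u, w} = some x := by simp [Nb]

/-- large degree in a colour -/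
def Big (c : Finset V → Option (Fin 3)) (x : Fin 3) (u : V) : Prop := 10 ≤ (Nb c x u).card

/-- a colour class is covered by a list of vertices -/
def Covers (c : Finset V → Option (Fin 3)) (z : Fin 3) (l : List V) : Prop :=
  ∀ p q, c {p, q} = some z → p ∈ l ∨ q ∈ l

theorem ne_of_col {c : Finset V → Option (Fin 3)} (hc : Good (KK V) c) {u v : V} {x : Fin 3}
    (h : c {u, v} = some x) : u ≠ v := by
  rintro rfl
  have h1 : ({u, u} : Finset V) ∉ KK V := by
    simp [KK]
  rw [(hc.1 _).2 h1] at h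
  cases h

theorem col_of_ne {c : Finset V → Option (Fin 3)} (hc : Good (KK V) c) {u v : V}
    (h : u ≠ v) : ∃ x, c {u, v} = some x := by
  have h1 : ({u, v} : Finset V) ∈ KK V := mem_KK.2 ⟨u, v, h, rfl⟩
  have h2 : c {u, v} ≠ none := fun h3 => (hc.1 _).1 h3 h1
  exact Option.ne_none_iff_exists'.1 h2

theorem key {c : Finset V → Option (Fin 3)} (hc : Good (KK V) c) {u v : V} {x y z : Fin 3}
    (hxy : x ≠ y) (hxz : x ≠ z) (hyz : y ≠ z) (huv : c {u, v} = some x)
    (h1 : Big c x u) (h2 : Big c y u) (h3 : Big c x v) (h4 : Big c y v) :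
    ∃ l : List V, l.length ≤ 14 ∧ Covers c z l := by
  by_contra hcon
  push Not at hcon
  let κ : Fin 3 → Fin 3 := ![x, y, z]
  have hκ : Function.Injective κ := by
    intro i j hij
    fin_cases i <;> fin_cases j <;> simp_all [κ]
  obtain ⟨φ, hφ, hR⟩ := embed (fun t p q => c {p, q} = some (κ t)) (fun t p => Nb c (κ t) p)
    (fun t p w hw => mem_Nb.1 hw) u v (ne_of_col hc huv) huv h1 h2 h3 h4 (by
      intro l hl
      have h5 := hcon l hl
      unfold Covers at h5
      push Not at h5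
      obtain ⟨p, q, h6, h7, h8⟩ := h5
      exact ⟨p, q, ne_of_col hc h6, h7, h8, h6⟩)
  apply hc.2
  refine ⟨φ, hφ, ?_, ?_⟩
  · intro e he
    obtain ⟨i, rfl⟩ := mem_F.1 he
    rw [image_edge]
    exact mem_KK.2 ⟨_, _, ne_of_col hc (hR i), rfl⟩
  · intro e he e' he'
    obtain ⟨i, rfl⟩ := mem_F.1 he
    obtain ⟨j, rfl⟩ := mem_F.1 he'
    rw [image_edge, image_edge, hR i, hR j, pat_edge, pat_edge]
    constructor
    · intro h
      exact hκ (Option.some.inj h)
    · intro h
      rw [h]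

/-- parameters of the main case -/
abbrev PM (V : Type) := V × (Fin 14 → V) × (Fin 14 → Fin 3) × Fin 3 × (Fin 14 → Fin 9 → V)

/-- free edges in the main case -/
def YM (π : PM V) : Finset (Finset V) :=
  univ.image (fun w : V => ({π.1, w} : Finset V)) ∪
    univ.image (fun ij : Fin 14 × Fin 9 => ({π.2.1 ij.1, π.2.2.2.2 ij.1 ij.2} : Finset V))

/-- allowed colours in the main case -/
def AM (π : PM V) (e : Finset V) : Finset (Option (Fin 3)) :=
  univ.filter (fun o => o ≠ none ∧ (∀ i, π.2.1 i ∈ e → o ≠ some (π.2.2.1 i)) ∧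
    ((∀ i, π.2.1 i ∉ e) → o ≠ some π.2.2.2.1))

theorem YM_card (π : PM V) : (YM π).card ≤ Fintype.card V + 126 := by
  unfold YM
  refine (card_union_le _ _).trans (add_le_add ?_ ?_)
  · exact card_image_le.trans (by simp)
  · exact card_image_le.trans (by simp)

theorem AM_card (π : PM V) (e : Finset V) : (AM π e).card ≤ 2 := by
  have h : ∃ t : Fin 3, AM π e ⊆ (univ.erase none).erase (some t) := by
    by_cases h : ∃ i, π.2.1 i ∈ e
    · obtain ⟨i, hi⟩ := h
      refine ⟨π.2.2.1 i, ?_⟩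
      intro o ho
      simp only [AM, mem_filter, mem_univ, true_and] at ho
      simp only [mem_erase, mem_univ, and_true]
      exact ⟨ho.2.1 i hi, ho.1⟩
    · push Not at h
      refine ⟨π.2.2.2.1, ?_⟩
      intro o ho
      simp only [AM, mem_filter, mem_univ, true_and] at ho
      simp only [mem_erase, mem_univ, and_true]
      exact ⟨ho.2.2 h, ho.1⟩
  obtain ⟨t, ht⟩ := h
  have h2 : ∀ t : Fin 3, (((univ : Finset (Option (Fin 3))).erase none).erase (some t)).card ≤ 2 := by
    decide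
  exact (card_le_card ht).trans (h2 t)

/-- parameters of the degenerate case -/
abbrev PD (V : Type) := (V → Fin 3) × (Fin 30 → V) × (V → Fin 18 → V)

/-- free edges in the degenerate case -/
def YD (π : PD V) : Finset (Finset V) :=
  univ.image (fun iw : Fin 30 × V => ({π.2.1 iw.1, iw.2} : Finset V)) ∪
    univ.image (fun vj : V × Fin 18 => ({vj.1, π.2.2 vj.1 vj.2} : Finset V))

/-- allowed colours in the degenerate case -/
def AD (π : PD V) (e : Finset V) : Finset (Option (Fin 3)) :=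
  univ.filter (fun o => ∀ v ∈ e, o = some (π.1 v))

theorem YD_card (π : PD V) : (YD π).card ≤ 48 * Fintype.card V := by
  unfold YD
  refine (card_union_le _ _).trans ?_
  have h1 : (univ.image (fun iw : Fin 30 × V => ({π.2.1 iw.1, iw.2} : Finset V))).card ≤
      30 * Fintype.card V := card_image_le.trans (by simp)
  have h2 : (univ.image (fun vj : V × Fin 18 => ({vj.1, π.2.2 vj.1 vj.2} : Finset V))).card ≤
      Fintype.card V * 18 := card_image_le.trans (by simp)
  omega

theorem AD_card (π : PD V) (e : Finset V) (he : e ∈ KK V) : (AD π e).card ≤ 1 := by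
  obtain ⟨u, v, -, rfl⟩ := mem_KK.1 he
  rw [card_le_one]
  intro a ha b hb
  simp only [AD, mem_filter, mem_univ, true_and] at ha hb
  rw [ha u (by simp), hb u (by simp)]

theorem third (x y : Fin 3) (h : x ≠ y) : ∃ z, x ≠ z ∧ y ≠ z ∧ ∀ t, t = x ∨ t = y ∨ t = z := by
  revert x y
  decide

theorem others (x : Fin 3) : ∃ y z, x ≠ y ∧ x ≠ z ∧ y ≠ z ∧ ∀ t, t = x ∨ t = y ∨ t = z := by
  revert x
  decide

theorem main_case {c : Finset V → Option (Fin 3)} (hc : Good (KK V) c) (d : V) (z : Fin 3)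
    (l : List V) (hl : l.length ≤ 14) (hz : Covers c z l)
    (hfull : ∀ u v, (∀ x, Big c x u) → (∀ x, Big c x v) → u = v) :
    ∃ π : PM V, ∀ e ∈ KK V, e ∉ YM π → c e ∈ AM π e := by
  obtain ⟨a, ha⟩ : ∃ a : V, ∀ u, (∀ x, Big c x u) → u = a := by
    by_cases h : ∃ a, ∀ x, Big c x a
    · obtain ⟨a, ha⟩ := h
      exact ⟨a, fun u hu => hfull u a hu ha⟩
    · exact ⟨d, fun u hu => absurd ⟨u, hu⟩ h⟩
  obtain ⟨σ, hσ⟩ := cover_fun d 14 l hl
  have hm : ∀ i : Fin 14, ∃ (m : Fin 3) (ξ : Fin 9 → V),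
      σ i ≠ a → ∀ w, c {σ i, w} = some m → ∃ j, ξ j = w := by
    intro i
    by_cases h : σ i = a
    · exact ⟨0, fun _ => d, fun h' => absurd h h'⟩
    · have h1 : ¬ ∀ x, Big c x (σ i) := fun h' => h (ha _ h')
      push Not at h1
      obtain ⟨m, hm⟩ := h1
      unfold Big at hm
      obtain ⟨ξ, hξ⟩ := cover_fun' d 9 (Nb c m (σ i)) (by omega)
      exact ⟨m, ξ, fun _ w hw => hξ w (mem_Nb.2 hw)⟩
  choose m ξ hmξ using hm
  refine ⟨(a, σ, m, z, ξ), ?_⟩
  intro e he hY
  obtain ⟨u, v, huv, rfl⟩ := mem_KK.1 he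
  simp only [YM, mem_union, mem_image, mem_univ, true_and, not_or, not_exists, Prod.forall] at hY
  obtain ⟨hY1, hY2⟩ := hY
  simp only [AM, mem_filter, mem_univ, true_and]
  refine ⟨fun h => (hc.1 _).1 h he, ?_, ?_⟩
  · intro i hi hcol
    rw [mem_insert, mem_singleton] at hi
    rcases hi with hi | hi
    · subst hi
      have h1 : σ i ≠ a := by
        intro h
        exact hY1 v (by rw [h])
      obtain ⟨j, hj⟩ := hmξ i h1 v hcol
      exact hY2 i j (by rw [hj])
    · subst hi
      have h1 : σ i ≠ a := by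
        intro h
        exact hY1 u (by rw [h, pair_comm])
      rw [pair_comm] at hcol
      obtain ⟨j, hj⟩ := hmξ i h1 u hcol
      exact hY2 i j (by rw [hj, pair_comm])
  · intro h hcol
    rcases hz u v hcol with h1 | h1
    · obtain ⟨i, hi⟩ := hσ u h1
      exact h i (by simp [hi])
    · obtain ⟨i, hi⟩ := hσ v h1
      exact h i (by simp [hi])

theorem deg_case1 {c : Finset V → Option (Fin 3)} (hc : Good (KK V) c) (u v : V) (huv : u ≠ v)
    (hu : ∀ x, Big c x u) (hv : ∀ x, Big c x v) :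
    ∃ π : PD V, ∀ e ∈ KK V, e ∉ YD π → c e ∈ AD π e := by
  obtain ⟨x, hx⟩ := col_of_ne hc huv
  obtain ⟨y, z, hxy, hxz, hyz, hall⟩ := others x
  obtain ⟨l1, hl1, hc1⟩ := key hc hxy hxz hyz hx (hu _) (hu _) (hv _) (hv _)
  obtain ⟨l2, hl2, hc2⟩ := key hc hxz hxy hyz.symm hx (hu _) (hu _) (hv _) (hv _)
  obtain ⟨σ, hσ⟩ := cover_fun u 30 (l1 ++ l2) (by rw [List.length_append]; omega)
  refine ⟨(fun _ => x, σ, fun _ _ => u), ?_⟩
  intro e he hY
  obtain ⟨p, q, hpq, rfl⟩ := mem_KK.1 he
  simp only [YD, mem_union, mem_image, mem_univ, true_and, not_or, not_exists, Prod.forall] at hY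
  obtain ⟨hY1, -⟩ := hY
  simp only [AD, mem_filter, mem_univ, true_and]
  intro _ _
  have hp : p ∉ l1 ++ l2 := by
    intro h
    obtain ⟨i, hi⟩ := hσ p h
    exact hY1 i q (by rw [hi])
  have hq : q ∉ l1 ++ l2 := by
    intro h
    obtain ⟨i, hi⟩ := hσ q h
    exact hY1 i p (by rw [hi, pair_comm])
  rw [List.mem_append, not_or] at hp hq
  obtain ⟨t, ht⟩ := col_of_ne hc hpq
  rcases hall t with rfl | rfl | rfl
  · exact ht
  · rcases hc2 p q ht with h | h
    · exact absurd h hp.2
    · exact absurd h hq.2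
  · rcases hc1 p q ht with h | h
    · exact absurd h hp.1
    · exact absurd h hq.1

theorem deg_case2 {c : Finset V → Option (Fin 3)} (hc : Good (KK V) c) (d : V)
    (hno : ∀ z (l : List V), l.length ≤ 14 → ¬ Covers c z l) :
    ∃ π : PD V, ∀ e ∈ KK V, e ∉ YD π → c e ∈ AD π e := by
  classical
  have hrich : ∀ {u v : V} {x y : Fin 3}, x ≠ y → c {u, v} = some x →
      Big c x u → Big c y u → Big c x v → Big c y v → False := by
    intro u v x y hxy huv h1 h2 h3 h4
    obtain ⟨z, hxz, hyz, -⟩ := third x y hxy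
    obtain ⟨l, hl, hcv⟩ := key hc hxy hxz hyz huv h1 h2 h3 h4
    exact hno z l hl hcv
  let W : Fin 3 → Finset V := fun z => univ.filter (fun u => ∀ x, x ≠ z → Big c x u)
  have hW : ∀ z, (W z).card ≤ 10 := by
    intro z
    by_contra hcon
    push Not at hcon
    obtain ⟨x, y, hzx, hzy, hxy, hall⟩ := others z
    have hmem : ∀ u ∈ W z, Big c x u ∧ Big c y u := by
      intro u hu
      simp only [W, mem_filter, mem_univ, true_and] at hu
      exact ⟨hu x hzx.symm, hu y hzy.symm⟩
    have hcl : ∀ u ∈ W z, ∀ v ∈ W z, u ≠ v → c {u, v} = some z := by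
      intro u hu v hv huv
      obtain ⟨t, ht⟩ := col_of_ne hc huv
      rcases hall t with rfl | rfl | rfl
      · exact ht
      · exact (hrich hxy ht (hmem u hu).1 (hmem u hu).2 (hmem v hv).1 (hmem v hv).2).elim
      · exact (hrich hxy.symm ht (hmem u hu).2 (hmem u hu).1 (hmem v hv).2 (hmem v hv).1).elim
    have hbig : ∀ u ∈ W z, Big c z u := by
      intro u hu
      have h1 : (W z).erase u ⊆ Nb c z u := by
        intro v hv
        rw [mem_erase] at hv
        exact mem_Nb.2 (hcl u hu v hv.2 hv.1.symm)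
      have h2 := card_le_card h1
      rw [card_erase_of_mem hu] at h2
      unfold Big
      omega
    obtain ⟨u, hu, v, hv, huv⟩ := one_lt_card.1 (by omega : 1 < (W z).card)
    exact hrich hzx (hcl u hu v hv huv) (hbig u hu) (hmem u hu).1 (hbig v hv) (hmem v hv).1
  have hWall : (W 0 ∪ W 1 ∪ W 2).card ≤ 30 := by
    have h1 := card_union_le (W 0 ∪ W 1) (W 2)
    have h2 := card_union_le (W 0) (W 1)
    have := hW 0
    have := hW 1
    have := hW 2
    omega
  obtain ⟨σ, hσ⟩ := cover_fun' d 30 _ hWall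
  have hg : ∀ v : V, ∃ (g : Fin 3) (ξ : Fin 18 → V), v ∉ W 0 ∪ W 1 ∪ W 2 →
      ∀ w t, t ≠ g → c {v, w} = some t → ∃ j, ξ j = w := by
    intro v
    by_cases hv : v ∈ W 0 ∪ W 1 ∪ W 2
    · exact ⟨0, fun _ => d, fun h => absurd hv h⟩
    · have h1 : ∀ z, ¬ ∀ x, x ≠ z → Big c x v := by
        intro z hz
        apply hv
        have : v ∈ W z := by
          simp only [W, mem_filter, mem_univ, true_and]
          exact hz
        fin_cases z
        · exact mem_union_left _ (mem_union_left _ this)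
        · exact mem_union_left _ (mem_union_right _ this)
        · exact mem_union_right _ this
      have h2 : ∃ g : Fin 3, ∀ t, t ≠ g → ¬ Big c t v := by
        by_cases h : ∃ g, Big c g v
        · obtain ⟨g, hg⟩ := h
          refine ⟨g, fun t htg ht => ?_⟩
          obtain ⟨z, hgz, htz, hall⟩ := third g t htg.symm
          apply h1 z
          intro x hx
          rcases hall x with rfl | rfl | rfl
          · exact hg
          · exact ht
          · exact absurd rfl hx
        · exact ⟨0, fun t _ ht => h ⟨t, ht⟩⟩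
      obtain ⟨g, hg⟩ := h2
      obtain ⟨y, z, hgy, hgz, hyz, hall⟩ := others g
      have h3 : (Nb c y v ∪ Nb c z v).card ≤ 18 := by
        have h4 := card_union_le (Nb c y v) (Nb c z v)
        have h5 := hg y hgy.symm
        have h6 := hg z hgz.symm
        unfold Big at h5 h6
        omega
      obtain ⟨ξ, hξ⟩ := cover_fun' d 18 _ h3
      refine ⟨g, ξ, fun _ w t htg ht => hξ w ?_⟩
      rcases hall t with rfl | rfl | rfl
      · exact absurd rfl htg
      · exact mem_union_left _ (mem_Nb.2 ht)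
      · exact mem_union_right _ (mem_Nb.2 ht)
  choose g ξ hgξ using hg
  refine ⟨(g, σ, ξ), ?_⟩
  intro e he hY
  simp only [YD, mem_union, mem_image, mem_univ, true_and, not_or, not_exists, Prod.forall] at hY
  obtain ⟨hY1, hY2⟩ := hY
  simp only [AD, mem_filter, mem_univ, true_and]
  intro v hv
  obtain ⟨w, hvw, rfl⟩ : ∃ w, v ≠ w ∧ e = {v, w} := by
    obtain ⟨p, q, hpq, rfl⟩ := mem_KK.1 he
    rw [mem_insert, mem_singleton] at hv
    rcases hv with rfl | rfl
    · exact ⟨q, hpq, rfl⟩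
    · exact ⟨p, hpq.symm, pair_comm _ _⟩
  have h1 : v ∉ W 0 ∪ W 1 ∪ W 2 := by
    intro h
    obtain ⟨i, hi⟩ := hσ v h
    exact hY1 i w (by rw [hi])
  obtain ⟨t, ht⟩ := col_of_ne hc hvw
  by_cases htg : t = g v
  · rw [ht, htg]
  · obtain ⟨j, hj⟩ := hgξ v h1 w t htg ht
    exact absurd (by rw [hj]) (hY2 v j)

theorem structure_thm {c : Finset V → Option (Fin 3)} (hc : Good (KK V) c) (d : V) :
    (∃ π : PM V, ∀ e ∈ KK V, e ∉ YM π → c e ∈ AM π e) ∨
    (∃ π : PD V, ∀ e ∈ KK V, e ∉ YD π → c e ∈ AD π e) := by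
  by_cases hfull : ∀ u v, (∀ x, Big c x u) → (∀ x, Big c x v) → u = v
  · by_cases hcov : ∃ (z : Fin 3) (l : List V), l.length ≤ 14 ∧ Covers c z l
    · obtain ⟨z, l, hl, hz⟩ := hcov
      exact Or.inl (main_case hc d z l hl hz hfull)
    · push Not at hcov
      exact Or.inr (deg_case2 hc d hcov)
  · push Not at hfull
    obtain ⟨u, v, hu, hv, huv⟩ := hfull
    exact Or.inr (deg_case1 hc u v huv hu hv)

end Pool.Agent.H601Z.Pat
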