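import Mathlib
import Pool.Agent.H601Z.PatB

set_option autoImplicit false

namespace Pool.Agent.H601Z.Pat

open Finset

variable {V : Type} [Fintype V] [DecidableEq V]

open Classical in
/-- number of pattern-free colourings -/
noncomputable def cnt (H : Finset (Finset V)) : ℕ :=
  ((univ : Finset (Finset V → Option (Fin 3))).filter (Good H)).card

open Classical in
theorem upper (d : V) : (cnt (KK V) : ℝ) ≤
    (Fintype.card (PM V) : ℝ) * (2 ^ (KK V).card * (3 / 2) ^ (Fintype.card V + 126)) +
    (Fintype.card (PD V) : ℝ) * 3 ^ (48 * Fintype.card V) := by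
  let SM : PM V → Finset (Finset V → Option (Fin 3)) := fun π => univ.filter
      (fun c => (∀ e, c e = none ↔ e ∉ KK V) ∧ ∀ e ∈ KK V, e ∉ YM π → c e ∈ AM π e)
  let SD : PD V → Finset (Finset V → Option (Fin 3)) := fun π => univ.filter
      (fun c => (∀ e, c e = none ↔ e ∉ KK V) ∧ ∀ e ∈ KK V, e ∉ YD π → c e ∈ AD π e)
  have hsub : (univ : Finset (Finset V → Option (Fin 3))).filter (Good (KK V)) ⊆
      univ.biUnion SM ∪ univ.biUnion SD := by
    intro c hc
    rw [mem_filter] at hc
    rcases structure_thm hc.2 d with ⟨π, hπ⟩ | ⟨π, hπ⟩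
    · refine mem_union_left _ (mem_biUnion.2 ⟨π, mem_univ _, ?_⟩)
      simp only [SM, mem_filter, mem_univ, true_and]
      exact ⟨hc.2.1, hπ⟩
    · refine mem_union_right _ (mem_biUnion.2 ⟨π, mem_univ _, ?_⟩)
      simp only [SD, mem_filter, mem_univ, true_and]
      exact ⟨hc.2.1, hπ⟩
  have hM : ∀ π, ((SM π).card : ℝ) ≤ 2 ^ (KK V).card * (3 / 2) ^ (Fintype.card V + 126) := by
    intro π
    have h1 := count_le (KK V) (YM π) 2 (by norm_num) (by norm_num) (AM π)
      (fun e _ _ => by exact_mod_cast AM_card π e)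
    refine le_trans (le_of_eq ?_) (h1.trans ?_)
    · simp only [SM]
    · apply mul_le_mul_of_nonneg_left _ (by positivity)
      exact pow_le_pow_right₀ (by norm_num) (YM_card π)
  have hD : ∀ π, ((SD π).card : ℝ) ≤ 3 ^ (48 * Fintype.card V) := by
    intro π
    have h1 := count_le (KK V) (YD π) 1 (by norm_num) (by norm_num) (AD π)
      (fun e he _ => by exact_mod_cast AD_card π e he)
    refine le_trans (le_of_eq ?_) (h1.trans ?_)
    · simp only [SD]
    · rw [one_pow, one_mul, div_one]
      exact pow_le_pow_right₀ (by norm_num) (YD_card π)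
  have h1 : cnt (KK V) ≤ ∑ π, (SM π).card + ∑ π, (SD π).card := by
    unfold cnt
    refine (card_le_card hsub).trans ((card_union_le _ _).trans ?_)
    exact add_le_add card_biUnion_le card_biUnion_le
  have h2 : (cnt (KK V) : ℝ) ≤ ∑ π, ((SM π).card : ℝ) + ∑ π, ((SD π).card : ℝ) := by
    exact_mod_cast h1
  refine h2.trans (add_le_add ?_ ?_)
  · refine (sum_le_sum (fun π _ => hM π)).trans ?_
    simp
  · refine (sum_le_sum (fun π _ => hD π)).trans ?_
    simp

/-- the edges at `a` or `b` other than `ab` -/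
def YL (a b : V) : Finset (Finset V) :=
  ((univ.erase a).erase b).image (fun w => ({a, w} : Finset V)) ∪
    ((univ.erase a).erase b).image (fun w => ({b, w} : Finset V))

theorem YL_card (a b : V) (hab : a ≠ b) : (YL a b).card = 2 * (Fintype.card V - 2) := by
  unfold YL
  have hc : ((univ.erase a).erase b).card = Fintype.card V - 2 := by
    rw [card_erase_of_mem (by simp [hab.symm]), card_erase_of_mem (by simp), card_univ]
    omega
  have hinj : ∀ s : V, s ∉ (univ.erase a).erase b →
      (((univ.erase a).erase b).image (fun w => ({s, w} : Finset V))).card =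
        Fintype.card V - 2 := by
    intro s hs
    rw [card_image_of_injOn, hc]
    intro w hw w' hw' h
    have h1 : w ∈ ({s, w'} : Finset V) := by
      simp only at h
      rw [← h]; simp
    rw [mem_insert, mem_singleton] at h1
    rcases h1 with h1 | h1
    · subst h1
      exact absurd hw hs
    · exact h1
  rw [card_union_of_disjoint, hinj a (by simp), hinj b (by simp)]
  · omega
  · rw [disjoint_left]
    intro e h1 h2
    rw [mem_image] at h1 h2
    obtain ⟨w, hw, rfl⟩ := h1
    obtain ⟨w', hw', h⟩ := h2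
    simp only [mem_erase, mem_univ, and_true] at hw hw'
    have h3 : b ∈ ({a, w} : Finset V) := by rw [← h]; simp
    rw [mem_insert, mem_singleton] at h3
    rcases h3 with h3 | h3
    · exact hab h3.symm
    · exact hw.1 h3.symm

theorem YL_sub (a b : V) (hab : a ≠ b) : YL a b ⊆ (KK V).erase {a, b} := by
  intro e he
  simp only [YL, mem_union, mem_image, mem_erase, mem_univ, and_true] at he
  rw [mem_erase]
  rcases he with ⟨w, hw, rfl⟩ | ⟨w, hw, rfl⟩
  · refine ⟨?_, mem_KK.2 ⟨a, w, hw.2.symm, rfl⟩⟩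
    intro h
    have h3 : w ∈ ({a, b} : Finset V) := by rw [← h]; simp
    rw [mem_insert, mem_singleton] at h3
    tauto
  · refine ⟨?_, mem_KK.2 ⟨b, w, hw.1.symm, rfl⟩⟩
    intro h
    have h3 : w ∈ ({a, b} : Finset V) := by rw [← h]; simp
    rw [mem_insert, mem_singleton] at h3
    tauto

theorem YL_mem {a b : V} {e : Finset V} (he : e ∈ YL a b) : a ∈ e ∨ b ∈ e := by
  simp only [YL, mem_union, mem_image] at he
  rcases he with ⟨w, -, rfl⟩ | ⟨w, -, rfl⟩ <;> simp

theorem good_of (a b : V) (c : Finset V → Option (Fin 3))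
    (h1 : ∀ e, c e = none ↔ e ∉ (KK V).erase {a, b})
    (h2 : ∀ e ∈ (KK V).erase {a, b}, e ∉ YL a b → c e ≠ some 2) :
    Good ((KK V).erase {a, b}) c := by
  refine ⟨h1, ?_⟩
  rintro ⟨φ, hφ, hH, hP⟩
  have hmem : ∀ i, ({φ (e1 i), φ (e2 i)} : Finset V) ∈ (KK V).erase {a, b} := by
    intro i
    rw [← image_edge]
    exact hH _ (mem_F.2 ⟨i, rfl⟩)
  have hcol : ∀ i, ∃ x, c {φ (e1 i), φ (e2 i)} = some x := by
    intro i
    exact Option.ne_none_iff_exists'.1 (fun h => (h1 _).1 h (hmem i))
  choose col hcol using hcol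
  have hiff : ∀ i j, col i = col j ↔ cls i = cls j := by
    intro i j
    have h := hP _ (mem_F.2 ⟨i, rfl⟩) _ (mem_F.2 ⟨j, rfl⟩)
    rw [image_edge, image_edge, hcol, hcol, pat_edge, pat_edge] at h
    rw [← h]
    exact ⟨fun h => by rw [h], fun h => Option.some.inj h⟩
  have h03 : col 0 ≠ col 3 := fun h => absurd ((hiff _ _).1 h) (by decide)
  have h09 : col 0 ≠ col 9 := fun h => absurd ((hiff _ _).1 h) (by decide)
  have h39 : col 3 ≠ col 9 := fun h => absurd ((hiff _ _).1 h) (by decide)
  obtain ⟨i0, hi0⟩ : ∃ i0, col i0 = 2 := by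
    have h : ∀ x y z : Fin 3, x ≠ y → x ≠ z → y ≠ z → x = 2 ∨ y = 2 ∨ z = 2 := by decide
    rcases h _ _ _ h03 h09 h39 with h | h | h
    · exact ⟨_, h⟩
    · exact ⟨_, h⟩
    · exact ⟨_, h⟩
  have hpre : ∀ s : V, ∃ α : Fin 16, (∀ j, φ j = s → j = α) ∧ (φ α = s ∨ α = 0) := by
    intro s
    by_cases h : ∃ j, φ j = s
    · obtain ⟨j, hj⟩ := h
      exact ⟨j, fun j' hj' => hφ (hj'.trans hj.symm), Or.inl hj⟩
    · exact ⟨0, fun j hj => absurd ⟨j, hj⟩ h, Or.inr rfl⟩
  obtain ⟨α, hα1, hα2⟩ := hpre a
  obtain ⟨β, hβ1, hβ2⟩ := hpre b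
  have hcov := cover_two α β (cls i0) (by
    intro i hi
    have h3 : col i = 2 := ((hiff i i0).2 hi).trans hi0
    have h4 : ({φ (e1 i), φ (e2 i)} : Finset V) ∈ YL a b := by
      by_contra h
      exact h2 _ (hmem i) h (by rw [hcol, h3])
    rcases YL_mem h4 with h | h
    · rw [mem_insert, mem_singleton] at h
      rcases h with h | h
      · exact Or.inl (hα1 _ h.symm)
      · exact Or.inr (Or.inr (Or.inl (hα1 _ h.symm)))
    · rw [mem_insert, mem_singleton] at h
      rcases h with h | h
      · exact Or.inr (Or.inl (hβ1 _ h.symm))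
      · exact Or.inr (Or.inr (Or.inr (hβ1 _ h.symm))))
  have h5 := hmem 0
  rw [mem_erase] at h5
  apply h5.1
  change ({φ 15, φ 14} : Finset V) = {a, b}
  rcases hcov with ⟨rfl, rfl⟩ | ⟨rfl, rfl⟩
  · rw [hα2.resolve_right (by decide), hβ2.resolve_right (by decide)]
  · rw [hα2.resolve_right (by decide), hβ2.resolve_right (by decide), pair_comm]

open Classical in
theorem lower (a b : V) (hab : a ≠ b) :
    (2 : ℝ) ^ ((KK V).card - 1) * (3 / 2) ^ (2 * (Fintype.card V - 2)) ≤
      (cnt ((KK V).erase {a, b}) : ℝ) := by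
  have h1 := count_ge ((KK V).erase {a, b}) (YL a b) (YL_sub a b hab)
  rw [YL_card a b hab, card_erase_of_mem (mem_KK.2 ⟨a, b, hab, rfl⟩)] at h1
  refine h1.trans ?_
  unfold cnt
  have : ((univ : Finset (Finset V → Option (Fin 3))).filter
      (fun c => (∀ e, c e = none ↔ e ∉ (KK V).erase {a, b}) ∧
        ∀ e ∈ (KK V).erase {a, b}, e ∉ YL a b → c e ≠ some 2)) ⊆
      (univ : Finset (Finset V → Option (Fin 3))).filter (Good ((KK V).erase {a, b})) := by
    intro c hc
    rw [mem_filter] at hc ⊢
    exact ⟨mem_univ _, good_of a b c hc.2.1 hc.2.2⟩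
  have h2 := card_le_card this
  convert (Nat.cast_le (α := ℝ)).2 h2

/-- the forest has linear extremal number -/
theorem ex_linear (H : Finset (Finset V)) (hH : ∀ e ∈ H, e.card = 2)
    (hF : ¬ ∃ φ : Fin 16 → V, Function.Injective φ ∧ ∀ e ∈ F, e.image φ ∈ H) :
    H.card ≤ 14 * Fintype.card V := by
  by_contra hcon
  push Not at hcon
  let N : V → Finset V := fun u => univ.filter (fun w => ({u, w} : Finset V) ∈ H)
  have hne : ∀ {u w : V}, ({u, w} : Finset V) ∈ H → u ≠ w := by
    rintro u w h rfl
    have := hH _ h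
    simp at this
  have h1 : ∃ u v, ({u, v} : Finset V) ∈ H ∧ 10 ≤ (N u).card ∧ 10 ≤ (N v).card := by
    by_contra h
    push Not at h
    have hsub : H ⊆ (univ.filter (fun u => (N u).card < 10)).biUnion
        (fun u => (N u).image (fun w => ({u, w} : Finset V))) := by
      intro e he
      obtain ⟨u, v, huv, rfl⟩ := card_eq_two.1 (hH e he)
      rw [mem_biUnion]
      by_cases hu : (N u).card < 10
      · refine ⟨u, by simpa using hu, mem_image.2 ⟨v, ?_, rfl⟩⟩
        simpa [N] using he
      · refine ⟨v, by simpa using h u v he (by omega), mem_image.2 ⟨u, ?_, pair_comm _ _⟩⟩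
        rw [pair_comm] at he
        simpa [N] using he
    have h2 := (card_le_card hsub).trans card_biUnion_le
    have h3 : ∑ u ∈ univ.filter (fun u => (N u).card < 10),
        ((N u).image (fun w => ({u, w} : Finset V))).card ≤
        (univ.filter (fun u => (N u).card < 10)).card • 10 := by
      apply sum_le_card_nsmul
      intro u hu
      rw [mem_filter] at hu
      exact card_image_le.trans hu.2.le
    have h4 : (univ.filter (fun u => (N u).card < 10)).card ≤ Fintype.card V :=
      card_le_univ _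
    rw [smul_eq_mul] at h3
    omega
  obtain ⟨u, v, huv, hu, hv⟩ := h1
  obtain ⟨φ, hφ, hR⟩ := embed (fun _ p q => ({p, q} : Finset V) ∈ H) (fun _ p => N p)
    (fun t p w hw => by simpa [N] using hw) u v (hne huv) huv hu hu hv hv (by
      intro l hl
      by_contra h
      push Not at h
      have hsub : H ⊆ (l.toFinset ×ˢ (univ : Finset V)).image
          (fun pq => ({pq.1, pq.2} : Finset V)) := by
        intro e he
        obtain ⟨p, q, hpq, rfl⟩ := card_eq_two.1 (hH e he)
        rw [mem_image]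
        by_cases hp : p ∈ l
        · exact ⟨(p, q), by simp [hp], rfl⟩
        · by_cases hq : q ∈ l
          · exact ⟨(q, p), by simp [hq], pair_comm _ _⟩
          · exact absurd he (h p q hpq hp hq)
      have h2 := (card_le_card hsub).trans card_image_le
      rw [card_product, card_univ] at h2
      have h3 := List.toFinset_card_le l
      have h4 : l.toFinset.card * Fintype.card V ≤ 14 * Fintype.card V :=
        Nat.mul_le_mul_right _ (by omega)
      omega)
  apply hF
  refine ⟨φ, hφ, ?_⟩
  intro e he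
  obtain ⟨i, rfl⟩ := mem_F.1 he
  rw [image_edge]
  exact hR i

end Pool.Agent.H601Z.Pat
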