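import Mathlib
import Pool.Agent.H601Z.PatC

set_option autoImplicit false

namespace Pool.Agent.H601Z.Pat

open Finset Filter Topology

theorem ev_poly (k : ℕ) (r C : ℝ) (hr : 1 < r) (hC : 0 < C) :
    ∀ᶠ n : ℕ in atTop, C * (n : ℝ) ^ k < r ^ n := by
  have h := tendsto_pow_const_div_const_pow_of_one_lt k hr
  have h2 := h.eventually (gt_mem_nhds (show (0 : ℝ) < 1 / C by positivity))
  filter_upwards [h2] with n hn
  have hrn : 0 < r ^ n := by positivity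
  rw [div_lt_div_iff₀ hrn hC] at hn
  linarith

theorem numeric (n M : ℕ) (hn : 2 ≤ n) (hM : 2 * M = n * (n - 1))
    (h1 : (4 * 3 ^ 15 * (3 / 2) ^ 130 : ℝ) * (n : ℝ) ^ 141 < (3 / 2) ^ n)
    (h2 : (32 * 3 ^ 98 : ℝ) * (n : ℝ) ^ 96 < 2 ^ n) :
    ((3 : ℝ) ^ 15 * (n : ℝ) ^ 141) * (2 ^ M * (3 / 2) ^ (n + 126)) +
      ((3 : ℝ) ^ n * ((n : ℝ) ^ 30 * ((n : ℝ) ^ 18) ^ n)) * 3 ^ (48 * n) <
      (2 : ℝ) ^ (M - 1) * (3 / 2) ^ (2 * (n - 2)) := by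
  obtain ⟨k, rfl⟩ : ∃ k, n = k + 2 := ⟨n - 2, by omega⟩
  have hM1 : 1 ≤ M := by
    have : (k + 2) * (k + 2 - 1) = (k + 2) * (k + 1) := rfl
    nlinarith
  obtain ⟨L, rfl⟩ : ∃ L, M = L + 1 := ⟨M - 1, by omega⟩
  simp only [Nat.add_sub_cancel]
  set x : ℝ := ((k + 2 : ℕ) : ℝ) with hx
  have hx1 : 1 ≤ x := by rw [hx]; exact_mod_cast (by omega : 1 ≤ k + 2)
  have hq : (1 : ℝ) ≤ (3 / 2) ^ (2 * k) := one_le_pow₀ (by norm_num)
  have hL : (0 : ℝ) < 2 ^ L := by positivity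
  have hA : ((3 : ℝ) ^ 15 * x ^ 141) * (2 ^ (L + 1) * (3 / 2) ^ (k + 2 + 126)) <
      (1 / 2) * ((2 : ℝ) ^ L * (3 / 2) ^ (2 * k)) := by
    have e1 : ((3 : ℝ) ^ 15 * x ^ 141) * (2 ^ (L + 1) * (3 / 2) ^ (k + 2 + 126)) =
        ((4 * 3 ^ 15 * (3 / 2) ^ 130 : ℝ) * x ^ 141) *
          ((1 / 2) * 2 ^ L * (3 / 2) ^ k / (3 / 2) ^ 2) := by
      rw [show k + 2 + 126 = k + 128 by ring, pow_add, pow_add]
      field_simp
      norm_num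
    have e2 : (1 / 2) * ((2 : ℝ) ^ L * (3 / 2) ^ (2 * k)) =
        (3 / 2) ^ (k + 2) * ((1 / 2) * 2 ^ L * (3 / 2) ^ k / (3 / 2) ^ 2) := by
      rw [show 2 * k = k + k by ring, pow_add, pow_add]
      field_simp
    rw [e1, e2]
    exact mul_lt_mul_of_pos_right h1 (by positivity)
  have hB : ((3 : ℝ) ^ (k + 2) * (x ^ 30 * (x ^ 18) ^ (k + 2))) * 3 ^ (48 * (k + 2)) ≤
      (1 / 2) * ((2 : ℝ) ^ L * (3 / 2) ^ (2 * k)) := by
    have h3 : (4 * 3 ^ 49 * x ^ 48) ^ 2 ≤ (2 : ℝ) ^ (k + 1) := by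
      have e : (2 : ℝ) ^ (k + 2) = 2 * 2 ^ (k + 1) := by ring
      rw [e] at h2
      have e' : (4 * 3 ^ 49 * x ^ 48) ^ 2 = (16 * 3 ^ 98 : ℝ) * x ^ 96 := by ring
      rw [e']
      linarith
    have h4 : ((4 * 3 ^ 49 * x ^ 48) ^ (k + 2)) ^ 2 ≤ ((2 : ℝ) ^ (L + 1)) ^ 2 := by
      rw [← pow_mul, mul_comm (k + 2) 2, pow_mul, ← pow_mul 2 (L + 1), mul_comm (L + 1) 2, hM]
      rw [show k + 2 - 1 = k + 1 from rfl, mul_comm (k + 2) (k + 1), pow_mul]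
      exact pow_le_pow_left₀ (by positivity) h3 _
    have h5 : (4 * 3 ^ 49 * x ^ 48) ^ (k + 2) ≤ (2 : ℝ) ^ (L + 1) :=
      (pow_le_pow_iff_left₀ (by positivity) (by positivity) (by norm_num)).1 h4
    have h6 : (4 : ℝ) * x ^ 30 ≤ (4 * x ^ 30) ^ (k + 2) := by
      apply le_self_pow₀ _ (by omega)
      have : 1 ≤ x ^ 30 := one_le_pow₀ hx1
      linarith
    have e3 : (4 * 3 ^ 49 * x ^ 48) ^ (k + 2) =
        (4 * x ^ 30) ^ (k + 2) * ((3 : ℝ) ^ (k + 2) * (x ^ 18) ^ (k + 2) * 3 ^ (48 * (k + 2))) := by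
      rw [pow_mul, ← mul_pow, ← mul_pow, ← mul_pow]
      congr 1
      ring
    have h7 : (4 * x ^ 30) * ((3 : ℝ) ^ (k + 2) * (x ^ 18) ^ (k + 2) * 3 ^ (48 * (k + 2))) ≤
        (2 : ℝ) ^ (L + 1) := by
      refine le_trans ?_ h5
      rw [e3]
      exact mul_le_mul_of_nonneg_right h6 (by positivity)
    have h8 : (2 : ℝ) ^ L ≤ (2 : ℝ) ^ L * (3 / 2) ^ (2 * k) := le_mul_of_one_le_right hL.le hq
    have e4 : (2 : ℝ) ^ (L + 1) = 2 * 2 ^ L := by ring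
    rw [e4] at h7
    have e5 : ((3 : ℝ) ^ (k + 2) * (x ^ 30 * (x ^ 18) ^ (k + 2))) * 3 ^ (48 * (k + 2)) =
        (1 / 4) * ((4 * x ^ 30) * ((3 : ℝ) ^ (k + 2) * (x ^ 18) ^ (k + 2) * 3 ^ (48 * (k + 2)))) := by
      ring
    rw [e5]
    linarith
  linarith

theorem card_PM (n : ℕ) : (Fintype.card (PM (Fin n)) : ℝ) = (3 : ℝ) ^ 15 * (n : ℝ) ^ 141 := by
  simp only [Fintype.card_prod, Fintype.card_fun, Fintype.card_fin]
  push_cast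
  ring

theorem card_PD (n : ℕ) : (Fintype.card (PD (Fin n)) : ℝ) =
    (3 : ℝ) ^ n * ((n : ℝ) ^ 30 * ((n : ℝ) ^ 18) ^ n) := by
  simp only [Fintype.card_prod, Fintype.card_fun, Fintype.card_fin]
  push_cast
  ring

theorem card_KK (n : ℕ) : 2 * (KK (Fin n)).card = n * (n - 1) := by
  unfold KK
  rw [card_powersetCard, card_univ, Fintype.card_fin, Nat.choose_two_right,
    Nat.mul_div_cancel' (Nat.even_mul_pred_self n).two_dvd]

theorem beats : ∀ᶠ n : ℕ in atTop, ∀ a b : Fin n, a ≠ b →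
    cnt (KK (Fin n)) < cnt ((KK (Fin n)).erase {a, b}) := by
  filter_upwards [ev_poly 141 (3 / 2) (4 * 3 ^ 15 * (3 / 2) ^ 130) (by norm_num) (by positivity),
    ev_poly 96 2 (32 * 3 ^ 98) (by norm_num) (by positivity), eventually_ge_atTop 2]
    with n h1 h2 hn a b hab
  have h3 := upper (V := Fin n) a
  have h4 := lower a b hab
  rw [card_PM, card_PD, Fintype.card_fin] at h3
  rw [Fintype.card_fin] at h4
  have h5 := numeric n _ hn (card_KK n) h1 h2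
  exact_mod_cast (h3.trans_lt h5).trans_le h4

end Pool.Agent.H601Z.Pat
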