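import Mathlib

set_option autoImplicit false

namespace Pool.Agent.H601Z.Skew

/-- The numerical range of an operator on a real normed space. -/
def numRange {X : Type} [NormedAddCommGroup X] [NormedSpace ℝ X] (T : X →L[ℝ] X) : Set ℝ :=
  {c | ∃ (x : X) (φ : X →L[ℝ] ℝ), ‖x‖ = 1 ∧ ‖φ‖ = 1 ∧ φ x = 1 ∧ c = φ (T x)}

end Pool.Agent.H601Z.Skew
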