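import Mathlib
import Pool.Agent.H601Z.SkewDefs

set_option autoImplicit false

namespace Pool.Agent.H601Z.Skew

open Filter Topology ZeroAtInfty MeasureTheory FourierTransform

/-- the ambient space -/
abbrev YY := C₀(ℕ × ℝ, ℝ)

theorem abs_le_norm (F : YY) (p : ℕ × ℝ) : |F p| ≤ ‖F‖ := F.toBCF.norm_coe_le_norm p

theorem norm_le_of (F : YY) (C : ℝ) (hC : 0 ≤ C) (h : ∀ p, |F p| ≤ C) : ‖F‖ ≤ C :=
  (BoundedContinuousFunction.norm_le (f := F.toBCF) hC).2 h

/-- the space -/
def XS : Submodule ℝ YY where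
  carrier := {F | ∀ n x, HasDerivAt (fun y => F (n, y)) (2 * F (n + 1, x)) x}
  add_mem' := by
    intro F G hF hG n x
    have := (hF n x).add (hG n x)
    rw [← mul_add] at this
    exact this
  zero_mem' := by
    intro n x
    simpa using hasDerivAt_const x (0 : ℝ)
  smul_mem' := by
    intro c F hF n x
    have := (hF n x).const_mul c
    rw [mul_left_comm] at this
    exact this

theorem XS_closed : IsClosed (XS : Set YY) := by
  apply IsSeqClosed.isClosed
  intro u F hu hF n x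
  have h1 := (ZeroAtInftyContinuousMap.tendsto_iff_tendstoUniformly.1
    (hF.const_smul (2 : ℝ))).comp (fun y : ℝ => (n + 1, y))
  have h2 := ZeroAtInftyContinuousMap.tendsto_iff_tendstoUniformly.1 hF
  exact hasDerivAt_of_tendstoUniformly (f := fun k y => u k (n, y))
    (f' := fun k y => 2 * u k (n + 1, y)) (g' := fun y => 2 * F (n + 1, y)) h1
    (Eventually.of_forall fun k y => hu k n y) (fun y => h2.tendsto_at (n, y)) x

/-- the space, as a type -/
def XX : Type := XS

noncomputable instance : NormedAddCommGroup XX := inferInstanceAs (NormedAddCommGroup XS)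
noncomputable instance : NormedSpace ℝ XX := inferInstanceAs (NormedSpace ℝ XS)
instance : CompleteSpace XX := XS_closed.completeSpace_coe

/-- the shift in the first coordinate -/
def sh : CocompactMap (ℕ × ℝ) (ℕ × ℝ) where
  toFun p := (p.1 + 1, p.2)
  continuous_toFun := by fun_prop
  cocompact_tendsto' := by
    have h : Function.LeftInverse (fun p : ℕ × ℝ => (p.1 - 1, p.2))
        (fun p : ℕ × ℝ => (p.1 + 1, p.2)) := fun p => by simp
    exact (h.isClosedEmbedding (by fun_prop) (by fun_prop)).tendsto_cocompact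

/-- the translation in the second coordinate -/
def tr (r : ℝ) : CocompactMap (ℕ × ℝ) (ℕ × ℝ) where
  toFun p := (p.1, p.2 + r)
  continuous_toFun := by fun_prop
  cocompact_tendsto' := by
    have h : Function.LeftInverse (fun p : ℕ × ℝ => (p.1, p.2 - r))
        (fun p : ℕ × ℝ => (p.1, p.2 + r)) := fun p => by simp
    exact (h.isClosedEmbedding (by fun_prop) (by fun_prop)).tendsto_cocompact

theorem fibre_tendsto (F : YY) (n : ℕ) : Tendsto (fun x : ℝ => F (n, x)) (cocompact ℝ) (𝓝 0) := by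
  have h : Function.LeftInverse (fun p : ℕ × ℝ => p.2) (fun x : ℝ => (n, x)) := fun p => rfl
  exact (zero_at_infty F).comp
    (h.isClosedEmbedding (by fun_prop) (by fun_prop)).tendsto_cocompact

/-- the derivative, as a linear map -/
def TL : XX →ₗ[ℝ] XX where
  toFun F := ⟨(2 : ℝ) • F.1.comp sh, fun n x => (F.2 (n + 1) x).const_mul 2⟩
  map_add' F G := by
    apply Subtype.ext
    ext p
    change 2 * (F.1 (sh p) + G.1 (sh p)) = 2 * F.1 (sh p) + 2 * G.1 (sh p)
    ring
  map_smul' c F := by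
    apply Subtype.ext
    ext p
    change 2 * (c * F.1 (sh p)) = c * (2 * F.1 (sh p))
    ring

/-- the derivative -/
noncomputable def TT : XX →L[ℝ] XX :=
  TL.mkContinuous 2 (by
    intro F
    refine norm_le_of _ _ (by positivity) fun p => ?_
    change |2 * F.1 (sh p)| ≤ 2 * ‖F.1‖
    rw [abs_mul, abs_two]
    have := abs_le_norm F.1 (sh p)
    linarith)

theorem TT_apply (F : XX) (n : ℕ) (x : ℝ) : (TT F).1 (n, x) = 2 * F.1 (n + 1, x) := rfl

/-- translation -/
def tau (r : ℝ) (F : XX) : XX :=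
  ⟨F.1.comp (tr r), fun n x => HasDerivAt.comp_add_const x r (F.2 n (x + r))⟩

theorem tau_apply (r : ℝ) (F : XX) (n : ℕ) (x : ℝ) : (tau r F).1 (n, x) = F.1 (n, x + r) := rfl

theorem tau_zero (F : XX) : tau 0 F = F := by
  apply Subtype.ext
  ext ⟨n, x⟩
  rw [tau_apply, add_zero]

theorem norm_tau (r : ℝ) (F : XX) : ‖tau r F‖ ≤ ‖F‖ :=
  norm_le_of _ _ (norm_nonneg _) fun p => abs_le_norm F.1 (tr r p)

theorem taylor2 (g g1 g2 : ℝ → ℝ) (M : ℝ) (h1 : ∀ x, HasDerivAt g (g1 x) x)
    (h2 : ∀ x, HasDerivAt g1 (g2 x) x) (hM : ∀ x, |g2 x| ≤ M) (x y : ℝ) :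
    |g y - g x - (y - x) * g1 x| ≤ M * |y - x| ^ 2 := by
  have hM0 : 0 ≤ M := (abs_nonneg _).trans (hM 0)
  have h3 : ∀ s, ‖g1 s - g1 x‖ ≤ M * ‖s - x‖ := fun s =>
    convex_univ.norm_image_sub_le_of_norm_hasDerivWithin_le
      (fun z _ => (h2 z).hasDerivWithinAt) (fun z _ => hM z) (Set.mem_univ x) (Set.mem_univ s)
  have h4 := (convex_closedBall x |y - x|).norm_image_sub_le_of_norm_hasDerivWithin_le
    (f := fun s => g s - s * g1 x) (f' := fun s => g1 s - g1 x) (C := M * |y - x|)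
    (fun z _ => by
      have := (h1 z).sub ((hasDerivAt_id z).mul_const (g1 x))
      rw [one_mul] at this
      exact this.hasDerivWithinAt)
    (fun z hz => (h3 z).trans (mul_le_mul_of_nonneg_left (by
      rw [Metric.mem_closedBall, Real.dist_eq] at hz; exact hz) hM0))
    (Metric.mem_closedBall_self (abs_nonneg _))
    (show y ∈ Metric.closedBall x |y - x| by rw [Metric.mem_closedBall, Real.dist_eq])
  rw [Real.norm_eq_abs, Real.norm_eq_abs] at h4
  calc |g y - g x - (y - x) * g1 x| = |g y - y * g1 x - (g x - x * g1 x)| := by ring_nf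
    _ ≤ M * |y - x| * |y - x| := h4
    _ = M * |y - x| ^ 2 := by ring

theorem tau_deriv (F : XX) (r : ℝ) : HasDerivAt (fun s => tau s F) (TT (tau r F)) r := by
  rw [hasDerivAt_iff_isLittleO]
  refine Asymptotics.IsBigO.trans_isLittleO (g := fun s => ‖s - r‖ ^ 2) ?_
    (Asymptotics.isLittleO_pow_sub_sub r one_lt_two)
  refine Asymptotics.IsBigO.of_bound (4 * ‖F‖) (Eventually.of_forall fun s => ?_)
  refine norm_le_of _ _ (by positivity) ?_
  rintro ⟨n, x⟩
  have h := taylor2 (fun y => F.1 (n, y)) (fun y => 2 * F.1 (n + 1, y))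
    (fun y => 2 * (2 * F.1 (n + 1 + 1, y))) (4 * ‖F‖) (F.2 n)
    (fun y => (F.2 (n + 1) y).const_mul 2) (fun y => by
      have := abs_le_norm F.1 (n + 1 + 1, y)
      rw [abs_mul, abs_mul, abs_two]
      change _ ≤ 4 * ‖F.1‖
      linarith) (x + r) (x + s)
  rw [show x + s - (x + r) = s - r by ring] at h
  rw [Real.norm_eq_abs, Real.norm_eq_abs, abs_of_nonneg (by positivity : 0 ≤ |s - r| ^ 2)]
  exact h

theorem skew (x : XX) (φ : XX →L[ℝ] ℝ) (hx : ‖x‖ = 1) (hφ : ‖φ‖ = 1) (h : φ x = 1) :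
    φ (TT x) = 0 := by
  have h1 : HasDerivAt (fun s => φ (tau s x)) (φ (TT (tau 0 x))) 0 :=
    φ.hasFDerivAt.comp_hasDerivAt 0 (tau_deriv x 0)
  rw [tau_zero] at h1
  refine IsLocalMax.hasDerivAt_eq_zero ?_ h1
  refine Eventually.of_forall fun s => ?_
  simp only [tau_zero, h]
  have h2 := φ.le_opNorm (tau s x)
  have h3 := norm_tau s x
  rw [hφ, one_mul] at h2
  rw [hx] at h3
  exact (le_abs_self _).trans (h2.trans h3)

theorem tau_eq_exp (F : XX) (s : ℝ) : tau s F = NormedSpace.exp (s • TT) F := by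
  have h1 : ∀ r : ℝ, HasDerivAt (fun u : ℝ => NormedSpace.exp (u • (-TT)) (tau u F)) 0 r := by
    intro r
    have h2 := (hasDerivAt_exp_smul_const (𝕂 := ℝ) (-TT) r).clm_apply (tau_deriv F r)
    convert h2 using 1
    simp
  have h3 := is_const_of_deriv_eq_zero (fun r => (h1 r).differentiableAt)
    (fun r => (h1 r).deriv) s 0
  simp only [zero_smul, NormedSpace.exp_zero, tau_zero] at h3
  have h4 : NormedSpace.exp (s • TT) * NormedSpace.exp (s • (-TT)) = 1 := by
    letI : NormedAlgebra ℚ (XX →L[ℝ] XX) := NormedAlgebra.restrictScalars ℚ ℝ _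
    rw [← NormedSpace.exp_add_of_commute, smul_neg, add_neg_cancel, NormedSpace.exp_zero]
    exact ((Commute.refl TT).neg_right.smul_left s).smul_right s
  calc tau s F = (NormedSpace.exp (s • TT) * NormedSpace.exp (s • (-TT))) (tau s F) := by
        rw [h4]; rfl
    _ = NormedSpace.exp (s • TT) F := by
        rw [ContinuousLinearMap.mul_apply, h3]; rfl

/-- evaluation -/
noncomputable def ev (p : ℕ × ℝ) : XX →L[ℝ] ℝ :=
  LinearMap.mkContinuous
    ({ toFun := fun F : XX => F.1 p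
       map_add' := fun _ _ => rfl
       map_smul' := fun _ _ => rfl } : XX →ₗ[ℝ] ℝ) 1 (fun F => by
    rw [one_mul]; exact abs_le_norm F.1 p)

theorem analytic (F : XX) (n : ℕ) (x : ℝ) : AnalyticAt ℝ (fun y => F.1 (n, y)) x := by
  have h1 : (fun y => F.1 (n, y)) = fun y : ℝ =>
      ((ev (n, 0)).comp (ContinuousLinearMap.apply ℝ XX F)) (NormedSpace.exp (y • TT)) := by
    funext y
    change _ = ev (n, 0) (NormedSpace.exp (y • TT) F)
    rw [← tau_eq_exp]
    change _ = F.1 (n, 0 + y)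
    rw [zero_add]
  rw [h1]
  have h2 : AnalyticAt ℝ (fun y : ℝ => y • TT) x := analyticAt_id.smul analyticAt_const
  exact (ContinuousLinearMap.analyticAt _ _).comp ((NormedSpace.exp_analytic _).comp h2)

theorem attained (H : YY) (hH : ‖H‖ = 1) : ∃ p, |H p| = 1 := by
  have h1 : ∃ p, 1 / 2 < |H p| := by
    by_contra h
    push Not at h
    have := norm_le_of H (1 / 2) (by norm_num) h
    linarith
  obtain ⟨p, hp⟩ := h1
  have h2 : ∀ᶠ q in cocompact (ℕ × ℝ), |H q| ≤ |H p| := by
    have h3 := (zero_at_infty H).abs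
    rw [abs_zero] at h3
    exact (h3.eventually (gt_mem_nhds (show (0 : ℝ) < |H p| by linarith))).mono fun q hq => hq.le
  obtain ⟨q, hq⟩ := (map_continuous H).abs.exists_forall_ge' p h2
  refine ⟨q, le_antisymm (hH ▸ abs_le_norm H q) ?_⟩
  rw [← hH]
  exact norm_le_of H _ (abs_nonneg _) hq

theorem no_plane (F G : XX) (h : ∀ a b : ℝ, ‖a • F + b • G‖ ^ 2 = a ^ 2 + b ^ 2) : False := by
  have happ : ∀ (a b : ℝ) (p : ℕ × ℝ), (a • F + b • G).1 p = a * F.1 p + b * G.1 p :=
    fun _ _ _ => rfl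
  have hle : ∀ p, F.1 p ^ 2 + G.1 p ^ 2 ≤ 1 := by
    intro p
    have h1 := abs_le_norm (F.1 p • F + G.1 p • G).1 p
    have h2 := h (F.1 p) (G.1 p)
    rw [happ] at h1
    have h3 : |F.1 p * F.1 p + G.1 p * G.1 p| ^ 2 ≤ F.1 p ^ 2 + G.1 p ^ 2 := by
      rw [← h2]
      exact pow_le_pow_left₀ (abs_nonneg _) h1 2
    rw [sq_abs] at h3
    by_contra hc
    push Not at hc
    nlinarith
  have hcount : ∀ n : ℕ, {x : ℝ | F.1 (n, x) ^ 2 + G.1 (n, x) ^ 2 - 1 = 0}.Countable := by
    intro n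
    have han : AnalyticOnNhd ℝ (fun x => F.1 (n, x) ^ 2 + G.1 (n, x) ^ 2 - 1) Set.univ :=
      fun x _ => (((analytic F n x).pow 2).add ((analytic G n x).pow 2)).sub analyticAt_const
    rcases han.eqOn_zero_or_eventually_ne_zero_of_preconnected isPreconnected_univ with h1 | h1
    · exfalso
      have h2 := (((fibre_tendsto F.1 n).pow 2).add ((fibre_tendsto G.1 n).pow 2)).sub_const 1
      have h3 : (fun x => F.1 (n, x) ^ 2 + G.1 (n, x) ^ 2 - 1) = fun _ => 0 :=
        funext fun x => h1 (Set.mem_univ x)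
      rw [h3] at h2
      have := tendsto_nhds_unique h2 tendsto_const_nhds
      norm_num at this
    · have h2 := isDiscrete_of_codiscreteWithin
        (s := {x : ℝ | F.1 (n, x) ^ 2 + G.1 (n, x) ^ 2 - 1 = 0}) h1
      rw [Set.inter_univ] at h2
      exact (HereditarilyLindelofSpace.isLindelof _).countable_of_isDiscrete h2
  have hc : (⋃ n : ℕ, (fun x => F.1 (n, x) ^ 2) ''
      {x : ℝ | F.1 (n, x) ^ 2 + G.1 (n, x) ^ 2 - 1 = 0}).Countable :=
    Set.countable_iUnion fun n => (hcount n).image _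
  have hsub : Set.Icc (0 : ℝ) 1 ⊆ ⋃ n : ℕ, (fun x => F.1 (n, x) ^ 2) ''
      {x : ℝ | F.1 (n, x) ^ 2 + G.1 (n, x) ^ 2 - 1 = 0} := by
    rintro s ⟨hs0, hs1⟩
    have ha : Real.sqrt s ^ 2 = s := Real.sq_sqrt hs0
    have hb : Real.sqrt (1 - s) ^ 2 = 1 - s := Real.sq_sqrt (by linarith)
    set a := Real.sqrt s
    set b := Real.sqrt (1 - s)
    have h1 : ‖a • F + b • G‖ = 1 := by
      have h2 := h a b
      rw [ha, hb, add_sub_cancel] at h2
      exact (pow_eq_one_iff_of_nonneg (norm_nonneg _) two_ne_zero).1 h2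
    obtain ⟨⟨n, x⟩, hp⟩ := attained (a • F + b • G).1 h1
    rw [happ] at hp
    have h3 := hle (n, x)
    set u := F.1 (n, x) with hu
    set v := G.1 (n, x) with hv
    have h4 : (a * u + b * v) ^ 2 = 1 := by rw [← sq_abs, hp, one_pow]
    have h5 : (a * u + b * v) ^ 2 + (a * v - b * u) ^ 2 = u ^ 2 + v ^ 2 := by
      have : (a * u + b * v) ^ 2 + (a * v - b * u) ^ 2 = (a ^ 2 + b ^ 2) * (u ^ 2 + v ^ 2) := by
        ring
      rw [this, ha, hb]; ring
    have h6 : (a * v - b * u) ^ 2 = 0 := by nlinarith [sq_nonneg (a * v - b * u)]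
    have h7 : a * v - b * u = 0 := pow_eq_zero_iff two_ne_zero |>.1 h6
    have h8 : u ^ 2 + v ^ 2 = 1 := by linarith
    have h9 : u = a * (a * u + b * v) := by
      have : a * (a * u + b * v) = (a ^ 2 + b ^ 2) * u + b * (a * v - b * u) := by ring
      rw [this, ha, hb, h7]; ring
    rw [Set.mem_iUnion]
    refine ⟨n, x, ?_, ?_⟩
    · change u ^ 2 + v ^ 2 - 1 = 0
      linarith
    · change u ^ 2 = s
      rw [h9, mul_pow, h4, ha, mul_one]
  have h0 := (hc.mono hsub).measure_zero (volume : Measure ℝ)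
  simp at h0

/-- the band-limited example, on the Fourier side -/
noncomputable def gg (n : ℕ) (t : ℝ) : ℂ :=
  (Set.Icc (0 : ℝ) (1 / 8)).indicator (fun t : ℝ => (-Real.pi * Complex.I * t) ^ n) t

theorem gg_int (n : ℕ) : Integrable (gg n) := by
  unfold gg
  rw [integrable_indicator_iff measurableSet_Icc]
  exact (by fun_prop : Continuous fun t : ℝ =>
    (-Real.pi * Complex.I * t) ^ n).continuousOn.integrableOn_compact isCompact_Icc

theorem gg_succ (n : ℕ) (t : ℝ) :
    (-2 * Real.pi * Complex.I * t) • gg n t = (2 : ℂ) * gg (n + 1) t := by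
  unfold gg
  by_cases h : t ∈ Set.Icc (0 : ℝ) (1 / 8)
  · rw [Set.indicator_of_mem h, Set.indicator_of_mem h, smul_eq_mul]; ring
  · rw [Set.indicator_of_notMem h, Set.indicator_of_notMem h]; simp

theorem gg_int' (n : ℕ) : Integrable (fun t : ℝ => t • gg n t) := by
  have h : (fun t : ℝ => t • gg n t) = (Set.Icc (0 : ℝ) (1 / 8)).indicator
      (fun t : ℝ => (t : ℂ) * (-Real.pi * Complex.I * t) ^ n) := by
    funext t
    unfold gg
    by_cases h : t ∈ Set.Icc (0 : ℝ) (1 / 8)
    · rw [Set.indicator_of_mem h, Set.indicator_of_mem h]; simp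
    · rw [Set.indicator_of_notMem h, Set.indicator_of_notMem h]; simp
  rw [h, integrable_indicator_iff measurableSet_Icc]
  exact (by fun_prop : Continuous fun t : ℝ =>
    (t : ℂ) * (-Real.pi * Complex.I * t) ^ n).continuousOn.integrableOn_compact isCompact_Icc

/-- the band-limited example -/
noncomputable def ff (n : ℕ) (x : ℝ) : ℝ := (𝓕 (gg n) x).re

theorem ff_deriv (n : ℕ) (x : ℝ) : HasDerivAt (ff n) (2 * ff (n + 1) x) x := by
  have h1 := Real.hasDerivAt_fourier (gg_int n) (gg_int' n) x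
  have h2 : 𝓕 (fun t : ℝ => (-2 * Real.pi * Complex.I * t) • gg n t) x =
      2 * 𝓕 (gg (n + 1)) x := by
    simp_rw [gg_succ]
    rw [Real.fourier_eq, Real.fourier_eq, ← integral_const_mul]
    congr 1
    funext t
    simp only [Circle.smul_def, smul_eq_mul]
    ring
  rw [h2] at h1
  have h3 := Complex.reCLM.hasFDerivAt.comp_hasDerivAt x h1
  have h4 : Complex.reCLM (2 * 𝓕 (gg (n + 1)) x) = 2 * ff (n + 1) x := by simp [ff]
  rw [h4] at h3
  exact h3

theorem ff_bound (n : ℕ) (x : ℝ) : |ff n x| ≤ (1 / 2) ^ n := by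
  refine (Complex.abs_re_le_norm _).trans ?_
  have h1 : ‖𝓕 (gg n) x‖ ≤ ∫ t, ‖gg n t‖ :=
    VectorFourier.norm_fourierIntegral_le_integral_norm _ _ _ _ _
  refine h1.trans ?_
  have h2 : ∀ t, ‖gg n t‖ ≤ (Set.Icc (0 : ℝ) (1 / 8)).indicator (fun _ => ((1 : ℝ) / 2) ^ n) t := by
    intro t
    unfold gg
    by_cases h : t ∈ Set.Icc (0 : ℝ) (1 / 8)
    · rw [Set.indicator_of_mem h, Set.indicator_of_mem h, norm_pow]
      apply pow_le_pow_left₀ (norm_nonneg _)
      simp only [norm_mul, norm_neg, Complex.norm_real, Complex.norm_I, mul_one, Real.norm_eq_abs]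
      rw [abs_of_pos Real.pi_pos, abs_of_nonneg h.1]
      have := Real.pi_le_four
      have h3 := h.1
      have h4 := h.2
      nlinarith [Real.pi_pos]
    · rw [Set.indicator_of_notMem h, Set.indicator_of_notMem h]; simp
  have h3 : Integrable ((Set.Icc (0 : ℝ) (1 / 8)).indicator (fun _ => ((1 : ℝ) / 2) ^ n)) := by
    rw [integrable_indicator_iff measurableSet_Icc]
    exact continuous_const.continuousOn.integrableOn_compact isCompact_Icc
  refine (integral_mono (gg_int n).norm h3 h2).trans ?_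
  rw [integral_indicator measurableSet_Icc, setIntegral_const]
  simp only [Real.volume_real_Icc, smul_eq_mul]
  have : (0 : ℝ) < (1 / 2) ^ n := by positivity
  norm_num

theorem ff_tendsto (n : ℕ) : Tendsto (ff n) (cocompact ℝ) (𝓝 0) := by
  have h := (Complex.continuous_re.tendsto 0).comp (Real.zero_at_infty_fourier (gg n))
  rw [Complex.zero_re] at h
  exact h

theorem ff_zero : ff 0 0 = 1 / 8 := by
  unfold ff
  rw [Real.fourier_eq]
  simp only [inner_zero_right, neg_zero, AddChar.map_zero_eq_one, one_smul]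
  unfold gg
  rw [integral_indicator measurableSet_Icc]
  simp

/-- the example as an element of the space -/
noncomputable def F0 : XX :=
  ⟨{ toFun := fun p => ff p.1 p.2
     continuous_toFun := by
      refine continuous_prod_of_discrete_left.2 fun n => ?_
      exact continuous_iff_continuousAt.2 fun x => (ff_deriv n x).continuousAt
     zero_at_infty' := by
      rw [Metric.tendsto_nhds]
      intro ε hε
      obtain ⟨N, hN⟩ := exists_pow_lt_of_lt_one hε (show (1 / 2 : ℝ) < 1 by norm_num)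
      have h1 : ∀ n : ℕ, ∃ K : Set ℝ, IsCompact K ∧ ∀ x, x ∉ K → dist (ff n x) 0 < ε := by
        intro n
        obtain ⟨K, hK, h⟩ := mem_cocompact.1 (Metric.tendsto_nhds.1 (ff_tendsto n) ε hε)
        exact ⟨K, hK, fun x hx => h hx⟩
      choose K hK1 hK2 using h1
      refine mem_cocompact.2 ⟨⋃ n ∈ Finset.range N, ({n} : Set ℕ) ×ˢ K n,
        (Finset.range N).isCompact_biUnion fun n _ => isCompact_singleton.prod (hK1 n), ?_⟩
      rintro ⟨n, x⟩ hp
      simp only [Set.mem_compl_iff, Set.mem_iUnion, Finset.mem_range, Set.mem_prod,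
        Set.mem_singleton_iff, not_exists, not_and] at hp
      change dist (ff n x) 0 < ε
      by_cases hn : n < N
      · exact hK2 n x (hp n hn rfl)
      · rw [Real.dist_eq, sub_zero]
        refine (ff_bound n x).trans_lt (lt_of_le_of_lt ?_ hN)
        exact pow_le_pow_of_le_one (by norm_num) (by norm_num) (by omega) },
    fun n x => ff_deriv n x⟩

theorem TT_F0 : TT F0 ≠ 0 := by
  intro h
  have h1 : ∀ x, HasDerivAt (ff 0) 0 x := by
    intro x
    have h2 : 2 * ff (0 + 1) x = 0 := by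
      have := TT_apply F0 0 x
      rw [h] at this
      exact this.symm
    have h3 := ff_deriv 0 x
    rwa [h2] at h3
  have h2 : ff 0 = fun _ => 1 / 8 := by
    funext x
    rw [← ff_zero]
    exact is_const_of_deriv_eq_zero (fun r => (h1 r).differentiableAt) (fun r => (h1 r).deriv) x 0
  have h3 := ff_tendsto 0
  rw [h2] at h3
  have := tendsto_nhds_unique h3 tendsto_const_nhds
  norm_num at this

theorem TT_ne : TT ≠ 0 := fun h => TT_F0 (by rw [h]; rfl)

theorem numRange_TT : numRange TT = {0} := by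
  ext c
  constructor
  · rintro ⟨x, φ, hx, hφ, h, rfl⟩
    exact skew x φ hx hφ h
  · rintro rfl
    have h0 : F0 ≠ 0 := fun h => TT_F0 (by rw [h, map_zero])
    have h1 : ‖F0‖ ≠ 0 := norm_ne_zero_iff.2 h0
    have hx : ‖(‖F0‖⁻¹ : ℝ) • F0‖ = 1 := by
      rw [norm_smul, norm_inv, norm_norm, inv_mul_cancel₀ h1]
    obtain ⟨φ, hφ, h⟩ := exists_dual_vector ℝ ((‖F0‖⁻¹ : ℝ) • F0) (by rw [hx]; norm_num)
    rw [hx] at h
    exact ⟨_, φ, hx, hφ, h, (skew _ φ hx hφ h).symm⟩

theorem no_euclid (Z : Submodule ℝ XX) : IsEmpty (EuclideanSpace ℝ (Fin 2) ≃ₗᵢ[ℝ] Z) := by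
  refine ⟨fun e => ?_⟩
  refine no_plane (e (EuclideanSpace.single 0 1)) (e (EuclideanSpace.single 1 1)) fun a b => ?_
  have h1 : a • ((e (EuclideanSpace.single 0 1) : Z) : XX) +
      b • ((e (EuclideanSpace.single 1 1) : Z) : XX) =
      ((e (a • EuclideanSpace.single 0 1 + b • EuclideanSpace.single 1 1) : Z) : XX) := by
    simp
  rw [h1, ← Submodule.coe_norm, e.norm_map, EuclideanSpace.real_norm_sq_eq]
  simp [Fin.sum_univ_two]

end Pool.Agent.H601Z.Skew
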